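import Pool.Agent.Helper4.Sun.Ident
namespace Pool.Agent.Helper4.Sun
open Finset

def PS (a b c x : ℚ) (N : ℕ) : ℚ := ∑ k ∈ range N, hc a b c k * x^k

lemma PS_succ (a b c x : ℚ) (N : ℕ) : PS a b c x (N+1) = PS a b c x N + hc a b c N * x^N := by
  simp [PS, sum_range_succ]

lemma PS_zero (a b c x : ℚ) : PS a b c x 0 = 0 := by simp [PS]

lemma PS_stable (a b c x : ℚ) (M N : ℕ) (h : ∀ k, M ≤ k → hc a b c k = 0) (hN : M ≤ N) :
    PS a b c x N = PS a b c x M := by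
  induction N, hN using Nat.le_induction with
  | base => rfl
  | succ n hn ih => rw [PS_succ, ih, h n hn]; ring

lemma rf_vanish {R : Type*} [CommRing R] (L k : ℕ) (h : L < k) : rf (-(L:R)) k = 0 := by
  unfold rf
  apply prod_eq_zero (mem_range.2 h)
  simp

lemma hc_vanish_a (a b c : ℚ) (L k : ℕ) (ha : a = -(L:ℚ)) (h : L < k) : hc a b c k = 0 := by
  rw [hc, ha, rf_vanish L k h]; simp

lemma hc_vanish_b (a b c : ℚ) (L k : ℕ) (ha : b = -(L:ℚ)) (h : L < k) : hc a b c k = 0 := by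
  rw [hc, ha, rf_vanish L k h]; simp

lemma hc_one (a b c : ℚ) : hc a b c 1 = a*b/c := by
  simp [hc, rf]

lemma hc_two (a b c : ℚ) : hc a b c 2 = a*(a+1)*(b*(b+1))/(c*(c+1)*2) := by
  simp [hc, rf, prod_range_succ, Nat.factorial]

lemma hc_three (a b c : ℚ) :
    hc a b c 3 = a*(a+1)*(a+2)*(b*(b+1)*(b+2))/(c*(c+1)*(c+2)*6) := by
  simp [hc, rf, prod_range_succ, Nat.factorial]

lemma z_rec (w ν z : ℚ) (hν : ν = 1/6 ∨ ν = 5/6) (hc0 : ∀ j : ℤ, (1 - 2*w + j) ≠ 0) (N : ℕ) :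
    PS (1/2 - (w+1)) (ν - (w+1)) (1-2*(w+1)) z (N+2) =
      (1 - z/2) * PS (1/2-w) (ν - w) (1-2*w) z (N+2)
      - z^2/16 * ((w-1/6)*(w-5/6)/(w*(w-1))) * PS (1/2-(w-1)) (ν-(w-1)) (1-2*(w-1)) z (N+2)
      + z^(N+2) * (1/2 * hc (1/2-w) (ν - w) (1-2*w) (N+1) + 1/16 * ((w-1/6)*(w-5/6)/(w*(w-1))) *
        (hc (1/2-(w-1)) (ν-(w-1)) (1-2*(w-1)) N + z * hc (1/2-(w-1)) (ν-(w-1)) (1-2*(w-1)) (N+1)))
      := by
  induction N with
  | zero =>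
    have nn : ∀ j : ℤ, ∀ y : ℚ, y = 1 - 2*w + j → y ≠ 0 := by
      intro j y hy; rw [hy]; exact hc0 j
    have l1 : (1-2*w : ℚ) ≠ 0 := nn 0 _ (by push_cast; ring)
    have l2 : (1-2*(w+1) : ℚ) ≠ 0 := nn (-2) _ (by push_cast; ring)
    have l3 : (1-2*(w-1) : ℚ) ≠ 0 := nn 2 _ (by push_cast; ring)
    have he : w ≠ 0 := by
      intro h; exact nn (-1) 0 (by rw [h]; norm_num) rfl
    have l7 : w - 1 ≠ 0 := by intro h; exact nn 1 0 (by push_cast; linarith) rfl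
    simp only [PS_succ, PS_zero, hc_zero, hc_one, zero_add]
    rcases hν with rfl | rfl
    · field_simp
      ring
    · field_simp
      ring
  | succ n ih =>
    have h := z_term w ν hν hc0 n
    rw [PS_succ, ih, PS_succ _ _ _ _ (n+2), PS_succ _ _ _ _ (n+2), h]
    ring

lemma p1_three (w μ : ℚ) (hμ : μ = 1/3 ∨ μ = 2/3) (hc0 : ∀ j : ℤ, (1 - 3*w + j) ≠ 0)
    (he : w ≠ 0) (he2 : w - 1 ≠ 0) :
    hc (μ-2*(w+1)) (μ - (w+1)) (1-3*(w+1)) 3 =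
      hc (μ-2*w) (μ - w) (1-3*w) 3 - 2/3 * hc (μ-2*w) (μ - w) (1-3*w) 2
      - 1/27 * hc (μ-2*w) (μ - w) (1-3*w) 1
      - 16/729 * ((w-1/6)*(w-5/6)/(w*(w-1))) * hc (μ-2*(w-1)) (μ - (w-1)) (1-3*(w-1)) 0 := by
  have nn : ∀ j : ℤ, ∀ y : ℚ, y = 1 - 3*w + j → y ≠ 0 := by
    intro j y hy; rw [hy]; exact hc0 j
  have l1 : (1-3*w : ℚ) ≠ 0 := nn 0 _ (by push_cast; ring)
  have l2 : (1-3*w+1 : ℚ) ≠ 0 := nn 1 _ (by push_cast; ring)
  have l3 : (1-3*w+2 : ℚ) ≠ 0 := nn 2 _ (by push_cast; ring)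
  have l4 : (1-3*(w+1) : ℚ) ≠ 0 := nn (-3) _ (by push_cast; ring)
  have l5 : (1-3*(w+1)+1 : ℚ) ≠ 0 := nn (-2) _ (by push_cast; ring)
  have l6 : 1 - w ≠ 0 := by intro h; apply he2; linarith
  have l8 : (1-3*(w+1)+2 : ℚ) = -3*w := by ring
  rw [hc_three, hc_three, hc_two, hc_one, hc_zero, l8]
  rcases hμ with rfl | rfl
  · field_simp
    ring
  · field_simp
    ring

lemma p1_rec (w μ x : ℚ) (hμ : μ = 1/3 ∨ μ = 2/3) (hc0 : ∀ j : ℤ, (1 - 3*w + j) ≠ 0)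
    (he : w ≠ 0) (he2 : w - 1 ≠ 0) (N : ℕ) :
    PS (μ-2*(w+1)) (μ - (w+1)) (1-3*(w+1)) x (N+3) =
      (1 - 2/3*x - x^2/27) * PS (μ-2*w) (μ - w) (1-3*w) x (N+3)
      - 16/729 * x^3 * ((w-1/6)*(w-5/6)/(w*(w-1))) *
        PS (μ-2*(w-1)) (μ - (w-1)) (1-3*(w-1)) x (N+3)
      + x^(N+3) * (2/3 * hc (μ-2*w) (μ - w) (1-3*w) (N+2)
        + 1/27 * (hc (μ-2*w) (μ - w) (1-3*w) (N+1) + x * hc (μ-2*w) (μ - w) (1-3*w) (N+2))
        + 16/729 * ((w-1/6)*(w-5/6)/(w*(w-1))) *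
          (hc (μ-2*(w-1)) (μ - (w-1)) (1-3*(w-1)) N
            + x * hc (μ-2*(w-1)) (μ - (w-1)) (1-3*(w-1)) (N+1)
            + x^2 * hc (μ-2*(w-1)) (μ - (w-1)) (1-3*(w-1)) (N+2)))
      := by
  have nn : ∀ j : ℤ, ∀ y : ℚ, y = 1 - 3*w + j → y ≠ 0 := by
    intro j y hy; rw [hy]; exact hc0 j
  have l1 : (1-3*w : ℚ) ≠ 0 := nn 0 _ (by push_cast; ring)
  have l2 : (1-3*w+1 : ℚ) ≠ 0 := nn 1 _ (by push_cast; ring)
  have l4 : (1-3*(w+1) : ℚ) ≠ 0 := nn (-3) _ (by push_cast; ring)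
  have l5 : (1-3*(w+1)+1 : ℚ) ≠ 0 := nn (-2) _ (by push_cast; ring)
  have l6 : (1-3*(w-1) : ℚ) ≠ 0 := nn 3 _ (by push_cast; ring)
  have l7 : (1-3*(w-1)+1 : ℚ) ≠ 0 := nn 4 _ (by push_cast; ring)
  induction N with
  | zero =>
    simp only [PS_succ, PS_zero, hc_zero, hc_one, hc_two, zero_add]
    rcases hμ with rfl | rfl
    · field_simp
      ring
    · field_simp
      ring
  | succ n ih =>
    rw [PS_succ, ih, PS_succ _ _ _ _ (n+3), PS_succ _ _ _ _ (n+3)]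
    rcases n with _ | k
    · have h := p1_three w μ hμ hc0 he he2
      simp only [zero_add, Nat.reduceAdd] at h ⊢
      rw [h]
      ring
    · have h := p1_term w μ hμ hc0 he he2 k
      have e1 : k + 1 + 3 = k + 4 := by ring
      have e2 : k + 1 + 2 = k + 3 := by ring
      have e3 : k + 1 + 1 = k + 2 := by ring
      simp only [e1, e2, e3] at *
      rw [h]
      ring

lemma p2_two (w μ : ℚ) (hμ : μ = 1/3 ∨ μ = 2/3) (hc0 : ∀ j : ℤ, (1 - w + j) ≠ 0) :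
    hc (μ-2*(w+1)) (μ + (w+1)) (1-(w+1)) 2 =
      hc (μ-2*w) (μ + w) (1-w) 2 + 18 * hc (μ-2*w) (μ + w) (1-w) 1
      - 27 * hc (μ-2*w) (μ + w) (1-w) 0
      - 16 * ((w-1/6)*(w-5/6)/(w*(w-1))) * hc (μ-2*(w-1)) (μ + (w-1)) (1-(w-1)) 1 := by
  have nn : ∀ j : ℤ, ∀ y : ℚ, y = 1 - w + j → y ≠ 0 := by
    intro j y hy; rw [hy]; exact hc0 j
  have l1 : (1-w : ℚ) ≠ 0 := nn 0 _ (by push_cast; ring)
  have l2 : (1-w+1 : ℚ) ≠ 0 := nn 1 _ (by push_cast; ring)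
  have l3 : (1-(w-1) : ℚ) ≠ 0 := nn 1 _ (by push_cast; ring)
  have l4 : (1-(w+1)+1 : ℚ) ≠ 0 := nn 0 _ (by push_cast; ring)
  have he : w ≠ 0 := by
    intro h; exact nn (-1) 0 (by rw [h]; norm_num) rfl
  have l6 : w - 1 ≠ 0 := by intro h; apply l1; linarith
  have l8 : (1-(w+1) : ℚ) = -w := by ring
  have l9 : (-w+1 : ℚ) = 1-w := by ring
  rw [hc_two, hc_two, hc_one, hc_one, hc_zero, l8, l9]
  rcases hμ with rfl | rfl
  · field_simp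
    ring
  · field_simp
    ring

lemma p2_three (w μ : ℚ) (hμ : μ = 1/3 ∨ μ = 2/3) (hc0 : ∀ j : ℤ, (1 - w + j) ≠ 0) :
    hc (μ-2*(w+1)) (μ + (w+1)) (1-(w+1)) 3 =
      hc (μ-2*w) (μ + w) (1-w) 3 + 18 * hc (μ-2*w) (μ + w) (1-w) 2
      - 27 * hc (μ-2*w) (μ + w) (1-w) 1
      - 16 * ((w-1/6)*(w-5/6)/(w*(w-1))) * hc (μ-2*(w-1)) (μ + (w-1)) (1-(w-1)) 2 := by
  have nn : ∀ j : ℤ, ∀ y : ℚ, y = 1 - w + j → y ≠ 0 := by
    intro j y hy; rw [hy]; exact hc0 j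
  have l1 : (1-w : ℚ) ≠ 0 := nn 0 _ (by push_cast; ring)
  have l2 : (1-w+1 : ℚ) ≠ 0 := nn 1 _ (by push_cast; ring)
  have l2' : (1-w+2 : ℚ) ≠ 0 := nn 2 _ (by push_cast; ring)
  have l3 : (1-(w-1) : ℚ) ≠ 0 := nn 1 _ (by push_cast; ring)
  have l3' : (1-(w-1)+1 : ℚ) ≠ 0 := nn 2 _ (by push_cast; ring)
  have he : w ≠ 0 := by
    intro h; exact nn (-1) 0 (by rw [h]; norm_num) rfl
  have l6 : w - 1 ≠ 0 := by intro h; apply l1; linarith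
  have l8 : (1-(w+1) : ℚ) = -w := by ring
  have l9 : (-w+1 : ℚ) = 1-w := by ring
  have l10 : (-w+2 : ℚ) = 1-w+1 := by ring
  have l11 : (1-(w-1) : ℚ) = 1-w+1 := by ring
  have l12 : (1-w+1+1 : ℚ) = 1-w+2 := by ring
  rw [hc_three, hc_three, hc_two, hc_two, hc_one, l8, l9, l10, l11, l12]
  rcases hμ with rfl | rfl
  · field_simp
    ring
  · field_simp
    ring

lemma p2_rec (w μ x : ℚ) (hμ : μ = 1/3 ∨ μ = 2/3) (hc0 : ∀ j : ℤ, (1 - w + j) ≠ 0)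
    (N : ℕ) :
    PS (μ-2*(w+1)) (μ + (w+1)) (1-(w+1)) x (N+2) =
      (1 + 18*x - 27*x^2) * PS (μ-2*w) (μ + w) (1-w) x (N+2)
      - 16 * x * ((w-1/6)*(w-5/6)/(w*(w-1))) *
        PS (μ-2*(w-1)) (μ + (w-1)) (1-(w-1)) x (N+2)
      + x^(N+2) * (-18 * hc (μ-2*w) (μ + w) (1-w) (N+1)
        + 27 * (hc (μ-2*w) (μ + w) (1-w) N + x * hc (μ-2*w) (μ + w) (1-w) (N+1))
        + 16 * ((w-1/6)*(w-5/6)/(w*(w-1))) *
          hc (μ-2*(w-1)) (μ + (w-1)) (1-(w-1)) (N+1))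
      := by
  have nn : ∀ j : ℤ, ∀ y : ℚ, y = 1 - w + j → y ≠ 0 := by
    intro j y hy; rw [hy]; exact hc0 j
  have l1 : (1-w : ℚ) ≠ 0 := nn 0 _ (by push_cast; ring)
  have l3 : (1-(w-1) : ℚ) ≠ 0 := nn 1 _ (by push_cast; ring)
  have he : w ≠ 0 := by
    intro h; exact nn (-1) 0 (by rw [h]; norm_num) rfl
  have l6 : w - 1 ≠ 0 := by intro h; apply l1; linarith
  have l8 : (1-(w+1) : ℚ) = -w := by ring
  induction N with
  | zero =>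
    simp only [PS_succ, PS_zero, hc_zero, hc_one, zero_add, l8]
    rcases hμ with rfl | rfl
    · field_simp
      ring
    · field_simp
      ring
  | succ n ih =>
    rw [PS_succ, ih, PS_succ _ _ _ _ (n+2), PS_succ _ _ _ _ (n+2)]
    rcases n with _ | _ | k
    · have h := p2_two w μ hμ hc0
      simp only [zero_add] at h ⊢
      rw [h]
      ring
    · have h := p2_three w μ hμ hc0
      simp only [zero_add, Nat.reduceAdd] at h ⊢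
      rw [h]
      ring
    · have h := p2_term w μ hμ hc0 k
      have e1 : k + 1 + 1 + 2 = k + 4 := by ring
      have e2 : k + 1 + 1 + 1 = k + 3 := by ring
      have e3 : k + 1 + 1 = k + 2 := by ring
      simp only [e1, e2, e3] at *
      rw [h]
      ring

end Pool.Agent.Helper4.Sun
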