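import Pool.Agent.Helper4.Sun.First
import Pool.Agent.Helper4.Sun.Rec
namespace Pool.Agent.Helper4.Sun
open Finset

set_option linter.unusedSectionVars false

/-- four-parameter coefficient over `ℚ` -/
def hd (a b c d : ℚ) (k : ℕ) : ℚ := rf a k * rf b k / (rf c k * rf d k)

/-- four-parameter coefficient over `ZMod m` -/
def hdR {m : ℕ} (a b c d : ZMod m) (k : ℕ) : ZMod m := rf a k * rf b k * (rf c k * rf d k)⁻¹

def PD (a b c d x : ℚ) (N : ℕ) : ℚ := ∑ k ∈ range N, hd a b c d k * x^k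

def PR {m : ℕ} (a b c d x : ZMod m) (N : ℕ) : ZMod m := ∑ k ∈ range N, hdR a b c d k * x^k

lemma PS_eq_PD (a b c x : ℚ) (N : ℕ) : PS a b c x N = PD a b c 1 x N := by
  unfold PS PD hc hd
  apply sum_congr rfl
  intro k _
  rw [rf_one]

lemma PD_split (a b c d x : ℚ) (N M : ℕ) :
    PD a b c d x (N+M) = PD a b c d x N + hd a b c d N * x^N * PD (a+N) (b+N) (c+N) (d+N) x M := by
  unfold PD
  rw [sum_range_add, mul_sum]
  congr 1
  apply sum_congr rfl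
  intro k _
  unfold hd
  rw [rf_add, rf_add, rf_add, rf_add, pow_add]
  rw [show rf a N * rf (a + N) k * (rf b N * rf (b+N) k) / (rf c N * rf (c+N) k * (rf d N * rf (d+N) k))
    = (rf a N * rf b N / (rf c N * rf d N)) * (rf (a+N) k * rf (b+N) k / (rf (c+N) k * rf (d+N) k)) by
      rw [div_mul_div_comm]; congr 1 <;> ring]
  ring

lemma Red.hd {m : ℕ} [Fact (1 < m)] {a b c d : ℚ} {a' b' c' d' : ZMod m} (ha : Red m a a')
    (hb : Red m b b') (hc : Red m c c') (hd : Red m d d') (k : ℕ)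
    (hu : IsUnit (Sun.rf c' k * Sun.rf d' k)) :
    Red m (Sun.hd a b c d k) (hdR a' b' c' d' k) :=
  ((ha.rf k).mul (hb.rf k)).div ((hc.rf k).mul (hd.rf k)) hu

lemma Red.PD {m : ℕ} [Fact (1 < m)] {a b c d x : ℚ} {a' b' c' d' x' : ZMod m} (ha : Red m a a')
    (hb : Red m b b') (hc : Red m c c') (hd : Red m d d') (hx : Red m x x') (N : ℕ)
    (hu : ∀ k < N, IsUnit (Sun.rf c' k * Sun.rf d' k)) :
    Red m (Sun.PD a b c d x N) (PR a' b' c' d' x' N) :=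
  Red.sum _ (fun k hk => (Red.hd ha hb hc hd k (hu k (mem_range.1 hk))).mul (hx.pow k))

section
variable (p : ℕ) [hp : Fact p.Prime]

lemma isUnit_one_P (y : ZMod (p^2)) (k : ℕ) (h : k < p) :
    IsUnit (rf (1 + (p:ZMod (p^2)) * y) k) := by
  rw [rf_one_P p y k h]
  apply (isUnit_fa p k h).mul
  apply IsUnit.of_mul_eq_one (1 - y * ha p k)
  linear_combination (-y^2) * ha_mul p k k

lemma denom_inv (y3 y4 : ZMod (p^2)) (k : ℕ) (h : k < p) :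
    (rf (1 + (p:ZMod (p^2)) * y3) k * rf (1 + (p:ZMod (p^2)) * y4) k)⁻¹ =
      (fa p k)⁻¹^2 * (1 - (y3+y4) * ha p k) := by
  apply inv_eq_of
  rw [rf_one_P p y3 k h, rf_one_P p y4 k h]
  have e := ZMod.mul_inv_of_unit _ (isUnit_fa p k h)
  have e2 := ha_mul p k k
  have e3 : fa p k * (1 + y3 * ha p k) * (fa p k * (1 + y4 * ha p k)) *
      ((fa p k)⁻¹^2 * (1 - (y3+y4) * ha p k)) =
      (fa p k * (fa p k)⁻¹)^2 * ((1 + y3 * ha p k) * (1 + y4 * ha p k) * (1 - (y3+y4)*ha p k)) := by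
    ring
  rw [e3, e]
  linear_combination (y3*y4 - (y3+y4)^2 - y3*y4*(y3+y4) * ha p k) * e2

/-- zeroth-order coefficient -/
def t0 (x x' : ZMod (p^2)) (k : ℕ) : ZMod (p^2) := rf x k * rf x' k * (fa p k)⁻¹^2
/-- first-order coefficient -/
def t1 (x x' : ZMod (p^2)) (k : ℕ) : ZMod (p^2) :=
  p * (dr x k * rf x' k + rf x k * dr x' k) * (fa p k)⁻¹^2 - 2 * (rf x k * rf x' k * (fa p k)⁻¹^2 * ha p k)

/-- affine dependence, equal perturbations of the numerators -/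
lemma affine_z (x x' y y3 y4 : ZMod (p^2)) (h34 : y3 + y4 = 2*y) (k : ℕ) (h : k < p) :
    hdR (x + (p:ZMod (p^2))*y) (x' + (p:ZMod (p^2))*y) (1 + (p:ZMod (p^2))*y3) (1 + (p:ZMod (p^2))*y4) k = t0 p x x' k + y * t1 p x x' k := by
  unfold hdR t0 t1
  rw [denom_inv p y3 y4 k h, h34, rf_add_P _ _ _ (P2 p), rf_add_P _ _ _ (P2 p)]
  have e2 := P_ha p k
  have e3 := P2 p
  linear_combination (y^2 * dr x k * dr x' k * (fa p k)⁻¹^2 * (1 - 2*y*ha p k)) * e3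
    - (2*y^2*(dr x k * rf x' k + rf x k * dr x' k) * (fa p k)⁻¹^2) * e2

/-- affine dependence, equal numerator parameters -/
lemma affine_p (x y1 y2 y3 y4 Y : ZMod (p^2)) (h12 : y1 + y2 = 2*Y) (h34 : y3 + y4 = 2*Y)
    (k : ℕ) (h : k < p) :
    hdR (x + (p:ZMod (p^2))*y1) (x + (p:ZMod (p^2))*y2) (1 + (p:ZMod (p^2))*y3) (1 + (p:ZMod (p^2))*y4) k = t0 p x x k + Y * t1 p x x k := by
  unfold hdR t0 t1
  rw [denom_inv p y3 y4 k h, h34, rf_add_P _ _ _ (P2 p), rf_add_P _ _ _ (P2 p)]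
  have e2 := P_ha p k
  have e3 := P2 p
  linear_combination (y1*y2 * dr x k * dr x k * (fa p k)⁻¹^2 * (1 - 2*Y*ha p k)) * e3
    + (p * rf x k * dr x k * (fa p k)⁻¹^2 * (1 - 2 * Y * ha p k)) * h12
    - (4*Y^2*(dr x k * rf x k) * (fa p k)⁻¹^2) * e2

/-- the product `∏_{j ≠ i} (x + j)` -/
def Wx {R : Type*} [CommRing R] (x : R) (i : ℕ) : R := rf x i * rf (x + i + 1) (p-1-i)

lemma rf_p (x : ℚ) (i : ℕ) (hi : i < p) : rf x p = (x + i) * Wx p x i := by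
  have : p = i + (1 + (p-1-i)) := by omega
  conv_lhs => rw [this]
  rw [rf_add, rf_add]
  unfold Wx
  simp [rf]
  ring

lemma Wx_R (y : ZMod (p^2)) (i : ℕ) (hi : i < p) (hodd : p % 2 = 1) :
    Wx p (-(i : ZMod (p^2)) + (p:ZMod (p^2)) * y) i = fa p (p-1) * (1 + ha p i) := by
  unfold Wx
  have e1 := rf_neg_P p y 0 i (by omega)
  simp only [fa_zero, ha_zero, zero_add, mul_one, sub_zero] at e1
  have e2 : -(i : ZMod (p^2)) + (p:ZMod (p^2)) * y + i + 1 = 1 + (p:ZMod (p^2)) * y := by ring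
  rw [e2, rf_one_P p y (p-1-i) (by omega), e1]
  have e3 := ha_symm p i (p-1-i) (by omega) hodd
  have e4 := fa_compl p i (p-1-i) (by omega)
  have e5 : i + (p-1-i) = p-1 := by omega
  rw [e5] at e4
  rw [← e3, e4]
  have e6 := ha_mul p i i
  linear_combination ((-1)^i * fa p i * fa p (p-1-i) * (1 - y^2)) * e6

lemma Red.Wx {x : ℚ} {r : ZMod (p^2)} (h : Red (p^2) x r) (i : ℕ) :
    Red (p^2) (Sun.Wx p x i) (Sun.Wx p r i) := by
  unfold Sun.Wx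
  exact (h.rf i).mul (((h.add (Red.nat i)).add Red.one).rf _)

/-- reduction of the `p`-th coefficient -/
lemma Red.hd_p {a1 b1 c1 d1 : ℚ} {a1' b1' c1' d1' : ZMod (p^2)} (ia ib : ℕ)
    (hia : ia < p) (hib : ib < p) (hodd : p % 2 = 1)
    (ha1 : Red (p^2) a1 a1') (hb1 : Red (p^2) b1 b1') (hc1 : Red (p^2) c1 c1')
    (hd1 : Red (p^2) d1 d1') (hc : IsUnit c1') (hd : IsUnit d1') :
    Red (p^2) (Sun.hd (-(ia:ℚ) + p*a1) (-(ib:ℚ) + p*b1) (-((p-1:ℕ):ℚ) + p*c1)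
      (-((p-1:ℕ):ℚ) + p*d1) p) (a1' * b1' * (c1' * d1')⁻¹ * ((1 + ha p ia) * (1 + ha p ib))) := by
  have hp0 : (p:ℚ) ≠ 0 := by have := hp.out.pos; positivity
  have hlt : p - 1 < p := by have := hp.out.pos; omega
  have e : Sun.hd (-(ia:ℚ) + p*a1) (-(ib:ℚ) + p*b1) (-((p-1:ℕ):ℚ) + p*c1)
      (-((p-1:ℕ):ℚ) + p*d1) p = (a1 * b1 / (c1 * d1)) *
      ((Sun.Wx p (-(ia:ℚ) + p*a1) ia * Sun.Wx p (-(ib:ℚ) + p*b1) ib) /
       (Sun.Wx p (-((p-1:ℕ):ℚ) + p*c1) (p-1) * Sun.Wx p (-((p-1:ℕ):ℚ) + p*d1) (p-1))) := by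
    unfold Sun.hd
    rw [rf_p p _ ia hia, rf_p p _ ib hib, rf_p p (-((p-1:ℕ):ℚ) + p*c1) (p-1) hlt,
      rf_p p (-((p-1:ℕ):ℚ) + p*d1) (p-1) hlt]
    rw [show (-(ia:ℚ) + p*a1 + ia) = p * a1 by ring, show (-(ib:ℚ) + p*b1 + ib) = p * b1 by ring,
      show (-((p-1:ℕ):ℚ) + p*c1 + ((p-1:ℕ):ℚ)) = p * c1 by ring,
      show (-((p-1:ℕ):ℚ) + p*d1 + ((p-1:ℕ):ℚ)) = p * d1 by ring]
    rw [div_mul_div_comm]
    rw [← mul_div_mul_left (a1 * b1 * (Sun.Wx p (-(ia:ℚ) + p*a1) ia * Sun.Wx p (-(ib:ℚ) + p*b1) ib))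
      _ (pow_ne_zero 2 hp0)]
    congr 1 <;> ring
  rw [e]
  have wa := (Red.Wx p ((Red.nat ia).neg.add ((Red.nat p).mul ha1)) ia)
  have wb := (Red.Wx p ((Red.nat ib).neg.add ((Red.nat p).mul hb1)) ib)
  have wc := (Red.Wx p ((Red.nat (p-1)).neg.add ((Red.nat p).mul hc1)) (p-1))
  have wd := (Red.Wx p ((Red.nat (p-1)).neg.add ((Red.nat p).mul hd1)) (p-1))
  rw [Wx_R p _ ia hia hodd] at wa
  rw [Wx_R p _ ib hib hodd] at wb
  have h0 : ha p (p-1) = 0 := by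
    rw [← ha_symm p 0 (p-1) (by omega) hodd, ha_zero]
  rw [Wx_R p _ (p-1) hlt hodd, h0, add_zero, mul_one] at wc wd
  have hu := isUnit_fa p (p-1) hlt
  have key := (((ha1.mul hb1).div (hc1.mul hd1) (hc.mul hd)).mul
    ((wa.mul wb).div (wc.mul wd) (hu.mul hu)))
  have e7 : (fa p (p-1) * fa p (p-1))⁻¹ = (fa p (p-1))⁻¹^2 := by
    apply inv_eq_of
    have := ZMod.mul_inv_of_unit _ hu
    linear_combination (fa p (p-1) * (fa p (p-1))⁻¹ + 1) * this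
  rw [e7] at key
  have e8 : a1' * b1' * (c1' * d1')⁻¹ *
      (fa p (p - 1) * (1 + ha p ia) * (fa p (p - 1) * (1 + ha p ib)) * (fa p (p - 1))⁻¹ ^ 2) =
      a1' * b1' * (c1' * d1')⁻¹ * ((1 + ha p ia) * (1 + ha p ib)) := by
    have := ZMod.mul_inv_of_unit _ hu
    linear_combination (a1' * b1' * (c1' * d1')⁻¹ * ((1 + ha p ia) * (1 + ha p ib))) *
      (fa p (p-1) * (fa p (p-1))⁻¹ + 1) * this
  rw [e8] at key
  exact key

end

end Pool.Agent.Helper4.Sun
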