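import Mathlib
namespace Pool.Agent.Helper4.Sun

lemma algA0 {R : Type*} [CommRing R] (P H1 H2 H3 u i : R) (hP : P^2 = 0) (hi : 12 * i = 1)
    (e4 : u * ((1 - 6*i*(P*H3 - P*H2)) * (1 - 4*i*(P*H2))) =
      u * ((1 - 2*i*(P*H1)) * (1 - 8*i*(P*H2 - P*H3)) * ((1 - P*H3) * (1 + P*H2)))) :
    u * (P*H1) = u * (P*H2 + P*H3) := by
  grind

lemma algV0 {R : Type*} [CommRing R] (P H2 H3 i : R) (hP : P^2 = 0) (hi : 12 * i = 1) :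
    ((1 - P*H3) * (1 + P*H2)) * ((1 + 4*i*(P*H3)) * (1 - 8*i*(P*H2 - P*H3))) = 1 + 4*i*(P*H2) := by
  grind

lemma algL0 {R : Type*} [CommRing R] (P H2 H3 i : R) (hP : P^2 = 0) (hi : 12 * i = 1) :
    (1 - 8*i*(P*H2)) * (1 + 4*i*(P*H3)) * (1 - 6*i*(P*H3 - P*H2)) =
      1 + P * (-(2*i*(H2+H3))) := by grind

/-- Step A: `h₁ = h₂ + h₃`. -/
lemma algA {R : Type*} [CommRing R] (P H1 H2 H3 a b c d ε w i A2 A6 B3 : R)
    (hP : P^2 = 0) (hi : 12 * i = 1) (hε : ε^2 = 1)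
    (ua : IsUnit a) (uc : IsUnit c) (uw : IsUnit w)
    (D1 : b = w * A2 * a) (hA2 : A2 * b = ε * (c * (1 - 6*i*(P*H3 - P*H2))))
    (D2 : b * (1 - 4*i*(P*H2)) = w * A6 * B3)
    (hA6 : A6 = ε * (a * (1 - 2*i*(P*H1))))
    (hB3 : B3 * c = ε * (d * (1 - 8*i*(P*H2 - P*H3))))
    (hC : b * d * (1 - P*H2) = ε * (c * c * (1 - P*H3))) : P*H1 = P*H2 + P*H3 := by
  have e1 : b * b = w * a * ε * (c * (1 - 6*i*(P*H3 - P*H2))) := by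
    linear_combination (b) * D1 + w * a * hA2
  have e2 : b * c * (1 - 4*i*(P*H2)) = w * a * (1 - 2*i*(P*H1)) * (d * (1 - 8*i*(P*H2 - P*H3))) := by
    linear_combination c * D2 + w * (B3*c) * hA6 + w * ε * (a * (1 - 2*i*(P*H1))) * hB3
      + w * a * (1 - 2*i*(P*H1)) * (d * (1 - 8*i*(P*H2 - P*H3))) * hε
  have e3 : b * d = ε * (c * c * (1 - P*H3)) * (1 + P*H2) := by
    linear_combination (1 + P*H2) * hC + b*d*H2^2*hP
  have hu : IsUnit (w * a * ε * c * c) := by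
    have uε : IsUnit ε := IsUnit.of_mul_eq_one ε (by linear_combination hε)
    exact (((uw.mul ua).mul uε).mul uc).mul uc
  have e4 : w * a * ε * c * c * ((1 - 6*i*(P*H3 - P*H2)) * (1 - 4*i*(P*H2))) =
      w * a * ε * c * c * ((1 - 2*i*(P*H1)) * (1 - 8*i*(P*H2 - P*H3)) * ((1 - P*H3) * (1 + P*H2))) := by
    linear_combination (-c * (1 - 4*i*(P*H2))) * e1 + b * e2 + w * a * (1 - 2*i*(P*H1)) * (1 - 8*i*(P*H2 - P*H3)) * e3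
  exact hu.mul_left_cancel (algA0 P H1 H2 H3 _ i hP hi e4)

/-- `64^n = 1 - h₃/2`. -/
lemma algQ2 {R : Type*} [CommRing R] (P H3 c ε w3 i A26 f : R)
    (hP : P^2 = 0) (hi : 12 * i = 1) (hε : ε^2 = 1) (uc : IsUnit c)
    (D6 : f = w3 * A26 * c) (hA : A26 = ε * (c * (1 - 6*i*(P*H3))))
    (hf : f = ε * (c * c * (1 - P*H3))) : w3 = 1 - 6*i*(P*H3) := by
  have uε : IsUnit ε := IsUnit.of_mul_eq_one ε (by linear_combination hε)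
  apply ((uε.mul uc).mul uc).mul_left_cancel
  have e1 : ε * c * c * w3 * (1 - 6*i*(P*H3)) = ε * c * c * (1 - P*H3) := by
    linear_combination (-1:R) * D6 + hf - w3 * c * hA
  have e2 : ε * c * c * w3 = ε * c * c * (1 - P*H3) * (1 + 6*i*(P*H3)) := by
    linear_combination (1 + 6*i*(P*H3)) * e1 + ε * c * c * w3 * 36 * i^2 * H3^2 * hP
  rw [e2]
  generalize ε * c * c = u
  grind

/-- `3^{6n} = 1 - 2 h₂ / 3`. -/
lemma algQ3 {R : Type*} [CommRing R] (P H2 b d v2 i D3 E3 f : R)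
    (hP : P^2 = 0) (hi : 12 * i = 1) (ub : IsUnit b) (ud : IsUnit d)
    (T6 : f = v2 * (D3 * E3 * b)) (hD3 : D3 = b * (1 - 4*i*(P*H2)))
    (hE3 : E3 * b = d) (hf : f = b * d * (1 - P*H2)) : v2 = 1 - 8*i*(P*H2) := by
  apply (ub.mul ud).mul_left_cancel
  have e1 : b * d * v2 * (1 - 4*i*(P*H2)) = b * d * (1 - P*H2) := by
    linear_combination (-1:R) * T6 + hf - v2 * b * (1 - 4*i*(P*H2)) * hE3 - v2 * E3 * b * hD3
  have e2 : b * d * v2 = b * d * (1 - P*H2) * (1 + 4*i*(P*H2)) := by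
    linear_combination (1 + 4*i*(P*H2)) * e1 + b * d * v2 * 16 * i^2 * H2^2 * hP
  rw [e2]
  generalize b * d = u
  grind

/-- `27^n = ε (1 - h₂/3)`. -/
lemma algV {R : Type*} [CommRing R] (P H2 H3 a b c d ε v i A3 B3 : R)
    (hP : P^2 = 0) (hi : 12 * i = 1) (hε : ε^2 = 1) (uc : IsUnit c)
    (T3 : c = v * (A3 * B3 * a)) (hA3 : A3 * a = ε * (b * (1 + 4*i*(P*H3))))
    (hB3 : B3 * c = ε * (d * (1 - 8*i*(P*H2 - P*H3))))
    (hC : b * d * (1 - P*H2) = ε * (c * c * (1 - P*H3))) : v = ε * (1 - 4*i*(P*H2)) := by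
  have uε : IsUnit ε := IsUnit.of_mul_eq_one ε (by linear_combination hε)
  apply ((uε.mul uc).mul uc).mul_left_cancel
  have e3 : b * d = ε * (c * c * (1 - P*H3)) * (1 + P*H2) := by
    linear_combination (1 + P*H2) * hC + b*d*H2^2*hP
  have e1 : c * c = v * (b * d) * ((1 + 4*i*(P*H3)) * (1 - 8*i*(P*H2 - P*H3))) := by
    linear_combination c * T3 + v * (B3 * c) * hA3 + v * ε * (b * (1 + 4*i*(P*H3))) * hB3
      + v * b * d * ((1 + 4*i*(P*H3)) * (1 - 8*i*(P*H2 - P*H3))) * hε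
  have e2 : c * c = (ε * c * c * v) * (((1 - P*H3) * (1 + P*H2)) * ((1 + 4*i*(P*H3)) * (1 - 8*i*(P*H2 - P*H3)))) := by
    linear_combination e1 + v * ((1 + 4*i*(P*H3)) * (1 - 8*i*(P*H2 - P*H3))) * e3
  have e5 : ((1 - P*H3) * (1 + P*H2)) * ((1 + 4*i*(P*H3)) * (1 - 8*i*(P*H2 - P*H3))) = 1 + 4*i*(P*H2) :=
    algV0 P H2 H3 i hP hi
  rw [e5] at e2
  linear_combination (-(1 - 4*i*(P*H2))) * e2 + (ε * c * c * v) * 16 * i^2 * H2^2 * hP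
    - c * c * (1 - 4*i*(P*H2)) * hε

/-- `C₃ = C₂ (1 - 5 h₂/6)`. -/
lemma algC {R : Type*} [CommRing R] (P H2 H3 a b ε v w s G G' i A3 A6 D3 E6 C2 C3 : R)
    (hP : P^2 = 0) (hi : 12 * i = 1) (hε : ε^2 = 1) (ua : IsUnit a) (us : IsUnit s)
    (uw : IsUnit w)
    (hG : s * G = w) (hG' : w^2 * G' = s^2) (hv : s^3 = v)
    (hV : v = ε * (1 - 4*i*(P*H2))) (hw : w^3 = 1 - 6*i*(P*H3))
    (hA3 : A3 * a = ε * (b * (1 + 4*i*(P*H3))))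
    (hA6 : A6 = ε * (a * (1 - 2*i*(P*H2 + P*H3))))
    (hE6 : E6 = a * (1 + 2*i*(P*H2 + P*H3)))
    (hD3 : D3 = b * (1 - 4*i*(P*H2)))
    (h2 : C2 * A6 = G * A3) (h3 : C3 * (A6 * E6) = G' * D3) :
    C3 = C2 * (1 - 10*i*(P*H2)) := by
  have uε : IsUnit ε := IsUnit.of_mul_eq_one ε (by linear_combination hε)
  have un : ∀ x : R, IsUnit (1 + P * x) := fun x =>
    IsUnit.of_mul_eq_one (1 - P * x) (by linear_combination (-x^2) * hP)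
  have uA6 : IsUnit A6 := by
    rw [hA6, show 1 - 2*i*(P*H2 + P*H3) = 1 + P * (-(2*i*(H2+H3))) by ring]
    exact uε.mul (ua.mul (un _))
  have uE6 : IsUnit E6 := by
    rw [hE6, show 1 + 2*i*(P*H2 + P*H3) = 1 + P * ((2*i*(H2+H3))) by ring]
    exact (ua.mul (un _))
  apply ((((uA6.mul uE6).mul (uw.pow 2)).mul us)).mul_left_cancel
  -- LHS
  have l1 : A6 * E6 * w^2 * s * C3 = s^3 * D3 := by
    linear_combination w^2 * s * h3 + s * D3 * hG'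
  have l2 : A6 * E6 * w^2 * s * C2 = w^3 * (A3 * E6) := by
    linear_combination w^2 * s * E6 * h2 + w^2 * E6 * A3 * hG
  have l3 : A3 * E6 = ε * (b * (1 + 4*i*(P*H3))) * (1 + 2*i*(P*H2 + P*H3)) := by
    linear_combination A3 * hE6 + (1 + 2*i*(P*H2 + P*H3)) * hA3
  rw [l1, hv, hV, hD3]
  rw [show A6 * E6 * w^2 * s * (C2 * (1 - 10*i*(P*H2))) = (A6 * E6 * w^2 * s * C2) * (1 - 10*i*(P*H2)) by ring,
    l2, l3, hw]
  clear l1 l2 l3 h2 h3 hD3 hE6 hA6 hA3 hw hV hv hG' hG un uA6 uE6 uε ua us uw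
  grind

/-- `5^{3n} a b L C₂ = ε c`. -/
lemma algL {R : Type*} [CommRing R] (P H2 H3 a b c ε w s t G L i A2 A3 A6 C2 : R)
    (hP : P^2 = 0) (hi : 12 * i = 1) (hε : ε^2 = 1) (ub : IsUnit b)
    (us : IsUnit s) (uw : IsUnit w)
    (hG : s * G = w) (hL : w^2 * t^3 * L = s^7) (hs : s^6 = 1 - 8*i*(P*H2))
    (D1 : b = w * A2 * a) (hA2 : A2 * b = ε * (c * (1 - 6*i*(P*H3 - P*H2))))
    (hA3 : A3 * a = ε * (b * (1 + 4*i*(P*H3))))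
    (hA6 : A6 = ε * (a * (1 - 2*i*(P*H2 + P*H3))))
    (h2 : C2 * A6 = G * A3) :
    t^3 * a * b * (L * C2) = ε * c := by
  have un : ∀ x : R, IsUnit (1 + P * x) := fun x =>
    IsUnit.of_mul_eq_one (1 - P * x) (by linear_combination (-x^2) * hP)
  have uε : IsUnit ε := IsUnit.of_mul_eq_one ε (by linear_combination hε)
  have e1 : b * b = w * a * ε * (c * (1 - 6*i*(P*H3 - P*H2))) := by
    linear_combination (b) * D1 + w * a * hA2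
  -- w t³ L C₂ A₆ = s⁶ A₃
  have e2 : w * t^3 * L * C2 * A6 = s^6 * A3 := by
    apply (uw.mul us).mul_left_cancel
    linear_combination w^2 * s * t^3 * L * h2 + w^2 * t^3 * L * A3 * hG + w * A3 * hL
  have e3 : w * t^3 * L * C2 * (a * (1 - 2*i*(P*H2 + P*H3))) * a =
      (1 - 8*i*(P*H2)) * (b * (1 + 4*i*(P*H3))) := by
    apply uε.mul_left_cancel
    linear_combination a * e2 - w * t^3 * L * C2 * a * hA6 + a * A3 * hs + (1 - 8*i*(P*H2)) * hA3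
  have e4 : (t^3 * L * C2 * a * b) * b * (1 - 2*i*(P*H2 + P*H3)) =
      (ε * c) * b * ((1 - 8*i*(P*H2)) * (1 + 4*i*(P*H3)) * (1 - 6*i*(P*H3 - P*H2))) := by
    linear_combination (t^3 * L * C2 * a) * (1 - 2*i*(P*H2 + P*H3)) * e1 +
      ε * (c * (1 - 6*i*(P*H3 - P*H2))) * e3
  have e5 : (1 - 8*i*(P*H2)) * (1 + 4*i*(P*H3)) * (1 - 6*i*(P*H3 - P*H2)) =
      1 + P * (-(2*i*(H2+H3))) := algL0 P H2 H3 i hP hi
  rw [e5, show 1 - 2*i*(P*H2 + P*H3) = 1 + P * (-(2*i*(H2+H3))) by ring] at e4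
  have e6 := (un (-(2*i*(H2+H3)))).mul_right_cancel e4
  have e7 := ub.mul_right_cancel e6
  linear_combination e7

lemma algS0 {R : Type*} [CommRing R] (P H2 σ₁ σ₂ x i : R) (hP : P^2 = 0) (hi : 12 * i = 1) :
    (1 + 800*i^2*(P*H2)) + σ₁ * ((1 + P*H2)*(1+P*H2)) * (x * (1 + 16*i*(P*H2))) *
      ((1 + 320*i^2*(P*H2)) + σ₂ * ((1 + P*H2)*(1+P*H2)) * (x * (1 + 16*i*(P*H2))) *
        (1 - 160*i^2*(P*H2))) = (1 + σ₁*x + σ₁*σ₂*x^2) * (1 + 800*i^2*(P*H2)) := by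
  have e1 : ((1 + P*H2)*(1+P*H2)) * (1 + 16*i*(P*H2)) = 1 + (2+16*i)*(P*H2) := by grind
  have e2 : (1 + (2+16*i)*(P*H2)) * (1 + 320*i^2*(P*H2)) = 1 + 800*i^2*(P*H2) := by grind
  have e3 : (1 + (2+16*i)*(P*H2))^2 * (1 - 160*i^2*(P*H2)) = 1 + 800*i^2*(P*H2) := by grind
  calc _ = (1 + 800*i^2*(P*H2)) + σ₁*x*((((1 + P*H2)*(1+P*H2)) * (1 + 16*i*(P*H2))) * (1 + 320*i^2*(P*H2)))
        + σ₁*σ₂*x^2*((((1 + P*H2)*(1+P*H2)) * (1 + 16*i*(P*H2)))^2 * (1 - 160*i^2*(P*H2))) := by ring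
    _ = _ := by rw [e1, e2, e3]; ring

lemma algS1 {R : Type*} [CommRing R] (P H2 H3 Q5 ρ i : R) (hP : P^2 = 0) (hi : 12 * i = 1) :
    (7 + ρ * ((1 + P*H3) * (1 + (P*H2+P*H3))) * (1 - 8*i*(P*H2) - 3*(P*Q5))) * (1 + 80*i^2*(P*H2)) -
      (1+ρ) * (1 - 56*i*(P*H2) + 2*(P*H3) - 3*(P*Q5)) * (1 + 800*i^2*(P*H2)) =
    6 * (1 + 6*i*(P*H2) - 4*i*(P*H3) + 6*i*(P*Q5)) := by
  grind

lemma algS {R : Type*} [CommRing R] (P H2 H3 Q5 i S G Φ Γ L Lp z Zp x Xp l τ σ₁ σ₂ C2 C3 : R)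
    (hP : P^2 = 0) (hi : 12 * i = 1)
    (u6 : IsUnit (6:R)) (u250 : IsUnit (250:R)) (u2187 : IsUnit (2187 : R)) (u8 : IsUnit (8:R))
    (hτ : 2 * τ = -1) (hσ₁ : 3 * σ₁ = -2) (hσ₂ : 18 * σ₂ = 1)
    (hz : 125 * z = -3) (hx : 9 * x = 1) (hl : 2000 * l = 2187)
    (hZp : Zp = z * (1 - 8*i*(P*H2) - 3*(P*Q5))) (hXp : Xp = x * (1 + 16*i*(P*H2)))
    (hLp : Lp = l * (1 - 56*i*(P*H2) + 2*(P*H3) - 3*(P*Q5)))
    (E1 : S - 2*i*G = L * (Φ - 3*i*Γ))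
    (E2 : (S - 14*i*G) + τ * ((1 + P*H3) * (1 + (P*H2+P*H3))) * Zp * (S - 2*i*G) =
      L * Lp * ((Φ - 21*i*Γ) + σ₁ * ((1 + P*H2)*(1+P*H2)) * Xp * ((Φ - 9*i*Γ) +
        σ₂ * ((1 + P*H2)*(1+P*H2)) * Xp * (Φ + 3*i*Γ))))
    (E3 : Φ - i*Γ = C2) (E4 : Φ + 2*i*Γ = C3) (hC : C3 = C2 * (1 - 10*i*(P*H2))) :
    S = L * C2 * (1 + 6*i*(P*H2) - 4*i*(P*H3) + 6*i*(P*Q5)) := by
  have g1 : i * Γ = -40*i^2*(P*H2)*C2 := by
    linear_combination (-4*i)*E3 + (4*i)*E4 + 4*i*hC - i * Γ * hi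
  have f0 : Φ = C2 * (1 - 40*i^2*(P*H2)) := by linear_combination E3 + g1
  have f1 : Φ - 3*i*Γ = C2 * (1 + 80*i^2*(P*H2)) := by linear_combination f0 - 3 * g1
  have f2 : Φ - 21*i*Γ = C2 * (1 + 800*i^2*(P*H2)) := by linear_combination f0 - 21 * g1
  have f3 : Φ - 9*i*Γ = C2 * (1 + 320*i^2*(P*H2)) := by linear_combination f0 - 9 * g1
  have f4 : Φ + 3*i*Γ = C2 * (1 - 160*i^2*(P*H2)) := by linear_combination f0 + 3 * g1
  have hρ : 250 * (τ * z) = 3 := by linear_combination 125 * z * hτ - hz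
  have hβ : l * (1 + σ₁*x + σ₁*σ₂*x^2) = 1 + τ * z := by
    apply ((u2187.mul u8).mul u250).mul_left_cancel
    have b1 : 2187 * (1 + σ₁*x + σ₁*σ₂*x^2) = 2024 := by
      linear_combination (729 * x + 729*σ₂*x^2)* hσ₁ - 81 * x^2 * hσ₂ - (162 + 1 + 9*x) * hx
    linear_combination (250*8*l) * b1 + 2024 * hl - 2187 * 8 * hρ
  rw [f1] at E1
  rw [E1, f2, f3, f4, hXp, hZp, hLp] at E2
  have e1 : C2 * (1 + 800*i^2*(P*H2)) + σ₁ * ((1 + P*H2)*(1+P*H2)) * (x * (1 + 16*i*(P*H2))) *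
      (C2 * (1 + 320*i^2*(P*H2)) + σ₂ * ((1 + P*H2)*(1+P*H2)) * (x * (1 + 16*i*(P*H2))) *
        (C2 * (1 - 160*i^2*(P*H2)))) = C2 * ((1 + σ₁*x + σ₁*σ₂*x^2) * (1 + 800*i^2*(P*H2))) := by
    rw [← algS0 P H2 σ₁ σ₂ x i hP hi]; ring
  rw [e1] at E2
  have e2 := algS1 P H2 H3 Q5 (τ*z) i hP hi
  apply u6.mul_left_cancel
  linear_combination (-1:R) * E2 + 7 * E1 + L * C2 * e2 + (- L * C2 * (1 - 56*i*(P*H2) + 2*(P*H3) - 3*(P*Q5)) * (1 + 800*i^2*(P*H2))) * hβ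

lemma algJ0 {R : Type*} [CommRing R] (P H2 H3 i : R) (hP : P^2 = 0) (hi : 12 * i = 1) :
    (P-1) * (20*i*(10*P-4) - 8*i*((7*P-1)*(1 - P*H3) + (9*P-3)*(1+P*H2-P*H3))) =
      -(1 - 6*i*(P*H2) + 8*i*(P*H3)) * (10*P-4) := by
  grind

lemma algJ1 {R : Type*} [CommRing R] (P H2 H3 i : R) (hP : P^2 = 0) (hi : 12 * i = 1) :
    (1 - P*H3) * (1 + P*H2) * (1 - 6*i*(P*H2) + 8*i*(P*H3)) =
      1 + 6*i*(P*H2) - 4*i*(P*H3) := by
  grind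

lemma algJ {R : Type*} [CommRing R] (P H2 H3 i a b c d ε J B1 B2 B3 : R)
    (hP : P^2 = 0) (hi : 12 * i = 1) (hε : ε^2 = 1) (uc : IsUnit c) (u4 : IsUnit (10*P-4))
    (hJ : J = (P-1) * ε * (20*i*B1 - 8*i*(B2+B3)))
    (hB1 : B1 * a * c = d) (hB2 : B2 * c * a * (10*P-4) = (7*P-1) * d * (1 - P*H3))
    (hB3 : B3 * a * c * (10*P-4) = (9*P-3) * d * (1 + P*H2 - P*H3))
    (hC : b * d * (1 - P*H2) = ε * (c * c * (1 - P*H3))) :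
    -ε * J * a * b = ε * c * (1 + 6*i*(P*H2) - 4*i*(P*H3)) := by
  have e3 : b * d = ε * (c * c * (1 - P*H3)) * (1 + P*H2) := by
    linear_combination (1 + P*H2) * hC + b*d*H2^2*hP
  apply (uc.mul u4).mul_left_cancel
  have e1 : J * a * c * (10*P-4) = ε * d * ((P-1) * (20*i*(10*P-4) - 8*i*((7*P-1)*(1 - P*H3) + (9*P-3)*(1+P*H2-P*H3)))) := by
    rw [hJ]
    linear_combination (P-1)*ε*20*i*(10*P-4) * hB1 - (P-1)*ε*8*i*hB2 - (P-1)*ε*8*i*hB3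
  rw [algJ0 P H2 H3 i hP hi] at e1
  have e4 := algJ1 P H2 H3 i hP hi
  linear_combination (-ε * b) * e1 + (1 - 6*i*(P*H2) + 8*i*(P*H3)) * (10*P-4) * e3
    + ε * c * c * (10*P-4) * e4 + b * d * (1 - 6*i*(P*H2) + 8*i*(P*H3)) * (10*P-4) * hε

end Pool.Agent.Helper4.Sun
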