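import Mathlib

namespace Pool.Agent.Helper4.Sun

open Finset

/-- rising factorial -/
def rf {R : Type*} [CommRing R] (x : R) (k : ℕ) : R := ∏ i ∈ range k, (x + i)

section
variable {R : Type*} [CommRing R]

@[simp] lemma rf_zero (x : R) : rf x 0 = 1 := by simp [rf]

lemma rf_succ (x : R) (k : ℕ) : rf x (k+1) = rf x k * (x + k) := by
  simp [rf, prod_range_succ]

lemma rf_add (x : R) (m k : ℕ) : rf x (m + k) = rf x m * rf (x + m) k := by
  simp only [rf, prod_range_add, Nat.cast_add, add_assoc]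

lemma rf_succ' (x : R) (k : ℕ) : rf x (k+1) = x * rf (x+1) k := by
  rw [add_comm k 1, rf_add]
  simp [rf]

lemma rf_one (k : ℕ) : rf (1:R) k = (k.factorial : R) := by
  induction k with
  | zero => simp
  | succ k ih => rw [rf_succ, ih, Nat.factorial_succ]; push_cast; ring

end

/-- the hypergeometric coefficient over `ℚ` -/
def hc (a b c : ℚ) (k : ℕ) : ℚ := rf a k * rf b k / (rf c k * (k.factorial : ℚ))

lemma hc_zero (a b c : ℚ) : hc a b c 0 = 1 := by simp [hc]

lemma rf_ne (c : ℚ) (h : ∀ j : ℤ, c + j ≠ 0) (k : ℕ) : rf c k ≠ 0 := by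
  unfold rf
  rw [Finset.prod_ne_zero_iff]
  intro i _
  exact_mod_cast h i

end Pool.Agent.Helper4.Sun
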