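import Pool.Agent.Helper4.Sun.Main1
namespace Pool.Agent.Helper4.Sun
open Finset

set_option linter.unusedSectionVars false

section
variable (p : ℕ) [hp : Fact p.Prime]

lemma add_P_pow {R : Type*} [CommRing R] (P x y : R) (hP : P^2 = 0) (k : ℕ) :
    (x + P*y)^(k+1) = x^(k+1) + ((k:R)+1)*x^k*(P*y) := by
  induction k with
  | zero => simp
  | succ k ih =>
    rw [pow_succ, ih]; push_cast
    linear_combination (((k:R)+1)*x^k*y^2) * hP

/-- reduction modulo `p` -/
def pii : ZMod (p^2) →+* ZMod p := ZMod.castHom (dvd_pow_self p two_ne_zero) (ZMod p)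

lemma pii_P : pii p (p : ZMod (p^2)) = 0 := by
  rw [map_natCast]; simp

lemma pii_eq_zero (x : ZMod (p^2)) (h : pii p x = 0) : ∃ y, x = (p : ZMod (p^2)) * y := by
  apply nonunit_dvd
  intro hu
  have := hu.map (pii p)
  rw [h] at this
  exact not_isUnit_zero this

lemma isUnit_of_pii (x : ZMod (p^2)) (h : pii p x ≠ 0) : IsUnit x := by
  by_contra hc
  obtain ⟨y, hy⟩ := nonunit_dvd p x hc
  apply h
  rw [hy, map_mul, pii_P, zero_mul]

lemma pow_p_eq (x y : ZMod (p^2)) (h : pii p x = pii p y) : x^p = y^p := by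
  obtain ⟨z, hz⟩ := pii_eq_zero p (x-y) (by rw [map_sub, h, sub_self])
  have hx : x = y + (p : ZMod (p^2)) * z := by linear_combination hz
  have hp1 : p = (p-1)+1 := by have := hp.out.pos; omega
  have h2 := add_P_pow (p : ZMod (p^2)) y z (P2 p) (p-1)
  rw [← hp1] at h2
  rw [hx, h2]
  have h3 : ((p-1 : ℕ) : ZMod (p^2)) + 1 = p := by
    rw [Nat.cast_sub hp.out.pos]; push_cast; ring
  rw [h3]
  linear_combination (y^(p-1) * z) * P2 p

/-- Teichmüller lift -/
def TT (t : ZMod p) : ZMod (p^2) := ((t.val : ℕ) : ZMod (p^2))^p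

lemma pii_val (t : ZMod p) : pii p ((t.val : ℕ) : ZMod (p^2)) = t := by
  rw [map_natCast]; exact ZMod.natCast_zmod_val t

lemma TT_pii (x : ZMod (p^2)) : TT p (pii p x) = x^p := by
  unfold TT
  apply pow_p_eq
  rw [pii_val]

lemma pii_TT (t : ZMod p) : pii p (TT p t) = t := by
  unfold TT
  rw [map_pow, pii_val, ZMod.pow_card]

lemma TT_zero : TT p 0 = 0 := by
  have := TT_pii p 0
  rw [map_zero] at this
  rw [this, zero_pow hp.out.ne_zero]

lemma TT_one : TT p 1 = 1 := by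
  have := TT_pii p 1
  rw [map_one] at this
  rw [this, one_pow]

lemma TT_mul (s t : ZMod p) : TT p (s*t) = TT p s * TT p t := by
  unfold TT
  rw [← mul_pow]
  apply pow_p_eq
  rw [map_mul, pii_val, pii_val, pii_val]

lemma TT_pow (s : ZMod p) (k : ℕ) : TT p (s^k) = (TT p s)^k := by
  induction k with
  | zero => simp [TT_one]
  | succ k ih => rw [pow_succ s, TT_mul, ih, pow_succ (TT p s)]

lemma TT_fermat (s : ZMod p) (hs : s ≠ 0) : (TT p s)^(p-1) = 1 := by
  rw [← TT_pow, ZMod.pow_card_sub_one_eq_one hs, TT_one]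

lemma TT_one_sub (t : ZMod p) : TT p (1-t) = (1 - TT p t)^p := by
  rw [← TT_pii p (1 - TT p t), map_sub, map_one, pii_TT]

lemma TT_isUnit (s : ZMod p) (hs : s ≠ 0) : IsUnit (TT p s) := by
  apply isUnit_of_pii; rw [pii_TT]; exact hs

/-- sum over the field through a generator -/
lemma sum_gen {A : Type*} [AddCommMonoid A] (g : (ZMod p)ˣ) (hg : ∀ x, x ∈ Subgroup.zpowers g)
    (h : ZMod p → A) :
    ∑ x, h x = h 0 + ∑ k ∈ range (p-1), h ((g : ZMod p)^k) := by
  classical
  rw [← Finset.add_sum_erase univ h (mem_univ 0)]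
  congr 1
  have ho : orderOf g = p - 1 := by
    rw [orderOf_eq_card_of_forall_mem_zpowers hg, Nat.card_eq_fintype_card, ZMod.card_units]
  have himg : univ.erase (0 : ZMod p) = image (fun k => (g : ZMod p)^k) (range (p-1)) := by
    ext x
    simp only [mem_erase, mem_univ, and_true, mem_image, mem_range]
    constructor
    · intro hx
      have := hg (Units.mk0 x hx)
      rw [mem_zpowers_iff_mem_range_orderOf] at this
      simp only [mem_image, mem_range] at this
      obtain ⟨k, hk, hk2⟩ := this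
      refine ⟨k, by rw [← ho]; exact hk, ?_⟩
      have := congrArg Units.val hk2
      simpa using this
    · rintro ⟨k, hk, rfl⟩
      exact pow_ne_zero _ g.ne_zero
  rw [himg, sum_image]
  intro a ha b hb hab
  simp only [coe_range, Set.mem_Iio] at ha hb
  have hab' : g^a = g^b := by
    apply Units.ext
    simpa using hab
  exact pow_injOn_Iio_orderOf (by rw [ho]; exact ha) (by rw [ho]; exact hb) hab'

lemma exists_gen : ∃ g : (ZMod p)ˣ, ∀ x, x ∈ Subgroup.zpowers g := IsCyclic.exists_generator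

/-- power sums of the Teichmüller lifts -/
lemma sum_TT_ne (m : ℕ) (hm : ¬ (p-1) ∣ m) : ∑ t, (TT p t)^m = 0 := by
  obtain ⟨g, hg⟩ := exists_gen p
  have ho : orderOf g = p - 1 := by
    rw [orderOf_eq_card_of_forall_mem_zpowers hg, Nat.card_eq_fintype_card, ZMod.card_units]
  have hgm : (g : ZMod p)^m ≠ 1 := by
    intro h
    apply hm
    rw [← ho]
    apply orderOf_dvd_of_pow_eq_one
    apply Units.ext
    simpa using h
  have h1 : ∑ t, (TT p t)^m = ∑ t, (TT p ((g : ZMod p) * t))^m := by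
    symm
    exact Fintype.sum_equiv (Equiv.mulLeft₀ (g : ZMod p) g.ne_zero) _ _ (fun t => rfl)
  have h2 : ∑ t, (TT p ((g : ZMod p) * t))^m = (TT p g)^m * ∑ t, (TT p t)^m := by
    rw [mul_sum]
    apply sum_congr rfl
    intro t _
    rw [TT_mul, mul_pow]
  have hu : IsUnit ((TT p g)^m - 1) := by
    apply isUnit_of_pii
    rw [map_sub, map_pow, pii_TT, map_one]
    exact sub_ne_zero.2 hgm
  apply hu.mul_left_cancel
  rw [mul_zero]
  linear_combination -h1 - h2

lemma sum_TT_eq (m : ℕ) (hm0 : 0 < m) (hm : (p-1) ∣ m) : ∑ t, (TT p t)^m = (p : ZMod (p^2)) - 1 := by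
  obtain ⟨c, rfl⟩ := hm
  have h1 : ∀ t : ZMod p, (TT p t)^((p-1)*c) = if t = 0 then 0 else 1 := by
    intro t
    split_ifs with h
    · rw [h, TT_zero, zero_pow (by omega)]
    · rw [pow_mul, TT_fermat p t h, one_pow]
  simp_rw [h1]
  have h2 : ∀ t : ZMod p, (if t = 0 then (0 : ZMod (p^2)) else 1) = 1 - (if t = 0 then 1 else 0) := by
    intro t; split_ifs <;> simp
  simp_rw [h2]
  rw [sum_sub_distrib]
  simp [ZMod.card]


variable (n : ℕ)

/-- the Jacobi sum in `ZMod (p^2)` -/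
def JJ : ZMod (p^2) := ∑ t : ZMod p, (TT p t)^(3*n) * (TT p (1-t))^(4*n)

lemma pow_4n (h5 : 5 < p) (hpn : p = 6*n+1) (x : ZMod (p^2)) :
    (x^p)^(4*n) = 20*ii p*x^(4*n) - 8*ii p*x^(10*n) := by
  have hi := ii_eq p h5
  have hP := P2 p
  have hPn : (p : ZMod (p^2)) = 6*n+1 := by
    have : ((6*n+1 : ℕ) : ZMod (p^2)) = p := by rw [← hpn]
    rw [← this]; push_cast; ring
  by_cases hx : IsUnit x
  · obtain ⟨q, hq⟩ := fermat_q p x hx
    have hp1 : p - 1 = 6*n := by omega
    rw [hp1] at hq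
    have e1 : (x^p)^(4*n) = x^(4*n) * (x^(6*n))^(4*n) := by
      rw [← pow_mul, ← pow_mul, ← pow_add]
      congr 1
      rw [hpn]; ring
    have e2 : x^(10*n) = x^(4*n) * x^(6*n) := by rw [← pow_add]; congr 1; ring
    have e3 : (1 + (p:ZMod (p^2))*q)^(4*n) = 1 + (p:ZMod (p^2))*(((4*n:ℕ):ZMod (p^2))*q) := by
      have h4 : 4*n = (4*n-1)+1 := by omega
      have h3 := add_P_pow (p:ZMod (p^2)) 1 q hP (4*n-1)
      rw [← h4] at h3
      rw [h3]
      have h6 : ((4*n-1:ℕ):ZMod (p^2)) + 1 = ((4*n:ℕ):ZMod (p^2)) := by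
        conv_rhs => rw [h4]
        rw [Nat.cast_add, Nat.cast_one]
      rw [h6, one_pow, one_pow]; ring
    rw [e1, e2, hq, e3]
    push_cast
    have e4 : (p:ZMod (p^2)) * (4*n) = - 8*ii p * (p:ZMod (p^2)) := by
      linear_combination (-4*n*(p:ZMod (p^2))) * hi - 8*ii p*(p:ZMod (p^2)) * hPn + 8*ii p * hP
    linear_combination (x^(4*n) * q) * e4 - x^(4*n) * hi
  · obtain ⟨y, hy⟩ := nonunit_dvd p x hx
    have hz : ∀ k : ℕ, 2 ≤ k → x^k = 0 := by
      intro k hk
      rw [hy, mul_pow]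
      have : (p:ZMod (p^2))^k = 0 := by
        rw [show k = 2 + (k-2) by omega, pow_add, hP, zero_mul]
      rw [this, zero_mul]
    rw [← pow_mul, hz (p*(4*n)) (by nlinarith), hz (4*n) (by omega), hz (10*n) (by omega)]
    ring

lemma sum_binom (M : ℕ) :
    ∑ t : ZMod p, (TT p t)^(3*n) * (1 - TT p t)^M =
      ∑ m ∈ range (M+1), (-1)^m * (M.choose m : ZMod (p^2)) * ∑ t : ZMod p, (TT p t)^(3*n+m) := by
  have h1 : ∀ t : ZMod p, (TT p t)^(3*n) * (1 - TT p t)^M =
      ∑ m ∈ range (M+1), (-1)^m * (M.choose m : ZMod (p^2)) * (TT p t)^(3*n+m) := by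
    intro t
    rw [show (1 - TT p t) = (-TT p t) + 1 by ring, add_pow, mul_sum]
    apply sum_congr rfl
    intro m _
    rw [one_pow, mul_one, neg_pow, pow_add]
    ring
  simp_rw [h1]
  rw [sum_comm]
  apply sum_congr rfl
  intro m _
  rw [mul_sum]

lemma sum_4n (hpn : p = 6*n+1) (hn : 0 < n) :
    ∑ t : ZMod p, (TT p t)^(3*n) * (1 - TT p t)^(4*n) =
      ((p : ZMod (p^2)) - 1) * (-1)^n * ((4*n).choose (3*n) : ZMod (p^2)) := by
  have hp1 : p - 1 = 6*n := by omega
  rw [sum_binom, sum_eq_single (3*n)]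
  · rw [sum_TT_eq p _ (by omega) (by rw [hp1]; exact ⟨1, by ring⟩)]
    have : ((-1:ZMod (p^2))^(3*n)) = (-1)^n := by
      rw [show 3*n = 2*n+n by ring, pow_add, pow_mul]; simp
    rw [this]; ring
  · intro m hm hne
    rw [mem_range] at hm
    rw [sum_TT_ne p, mul_zero]
    rw [hp1]
    rintro ⟨c, hc⟩
    rcases Nat.lt_or_ge c 2 with h | h
    · interval_cases c
      · omega
      · omega
    · nlinarith
  · intro h
    exfalso; apply h; rw [mem_range]; omega

lemma sum_10n (hpn : p = 6*n+1) (hn : 0 < n) :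
    ∑ t : ZMod p, (TT p t)^(3*n) * (1 - TT p t)^(10*n) =
      ((p : ZMod (p^2)) - 1) * (-1)^n *
        (((10*n).choose (3*n) : ZMod (p^2)) + ((10*n).choose (9*n) : ZMod (p^2))) := by
  have hp1 : p - 1 = 6*n := by omega
  rw [sum_binom, sum_eq_add (3*n) (9*n) (by omega)]
  · rw [sum_TT_eq p _ (by omega) (by rw [hp1]; exact ⟨1, by ring⟩),
      sum_TT_eq p _ (by omega) (by rw [hp1]; exact ⟨2, by ring⟩)]
    have : ((-1:ZMod (p^2))^(3*n)) = (-1)^n := by
      rw [show 3*n = 2*n+n by ring, pow_add, pow_mul]; simp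
    have h' : ((-1:ZMod (p^2))^(9*n)) = (-1)^n := by
      rw [show 9*n = 2*(4*n)+n by ring, pow_add, pow_mul]; simp
    rw [this, h']; ring
  · intro m hm hne
    rw [mem_range] at hm
    rw [sum_TT_ne p, mul_zero]
    rw [hp1]
    rintro ⟨c, hc⟩
    rcases Nat.lt_or_ge c 3 with h | h
    · interval_cases c
      · omega
      · omega
      · omega
    · nlinarith
  · intro h
    exfalso; apply h; rw [mem_range]; omega
  · intro h
    exfalso; apply h; rw [mem_range]; omega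

lemma JJ_eq (h5 : 5 < p) (hpn : p = 6*n+1) :
    JJ p n = ((p:ZMod (p^2))-1)*(-1)^n*(20*ii p*((4*n).choose (3*n) : ZMod (p^2))
      - 8*ii p*(((10*n).choose (3*n) : ZMod (p^2)) + ((10*n).choose (9*n) : ZMod (p^2)))) := by
  unfold JJ
  have h1 : ∀ t : ZMod p, (TT p t)^(3*n) * (TT p (1-t))^(4*n) =
      20*ii p*((TT p t)^(3*n) * (1 - TT p t)^(4*n)) - 8*ii p*((TT p t)^(3*n) * (1 - TT p t)^(10*n)) := by
    intro t
    rw [TT_one_sub, pow_4n p n h5 hpn]; ring
  simp_rw [h1]
  rw [sum_sub_distrib, ← mul_sum, ← mul_sum, sum_4n p n hpn (by omega), sum_10n p n hpn (by omega)]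
  ring

end

end Pool.Agent.Helper4.Sun
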