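import Pool.Agent.Helper4.Sun.Main2
import Pool.Agent.Helper4.Sun.Jac
namespace Pool.Agent.Helper4.Sun
open Finset

set_option linter.unusedSectionVars false

section
variable (p : ℕ) [hp : Fact p.Prime] (n : ℕ)

lemma ha_rel (h5 : 5 < p) (hpn : p = 6*n+1) : ha p n = ha p (2*n) + ha p (3*n) := by
  have hi := ii_eq p h5
  have hP := P2 p
  have hodd : p % 2 = 1 := by omega
  have h42 : ha p (4*n) = ha p (2*n) := ha_symm p (4*n) (2*n) (by omega) hodd
  have ua := isUnit_fa p n (by omega)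
  have uc := isUnit_fa p (3*n) (by omega)
  have kA2 := rf_gen' p n h5 hpn 3 (2*n) n (by ring) (by norm_num) (6*ii p) (by push_cast; ring)
  have kA6 := rf_gen' p n h5 hpn 1 0 n (by ring) (by norm_num) (2*ii p) (by push_cast; ring)
  have kB3 := rf_gen' p n h5 hpn 4 (3*n) n (by ring) (by norm_num) (8*ii p) (by push_cast; ring)
  have kD3 := rf_gen' p n h5 hpn 2 0 (2*n) (by ring) (by norm_num) (4*ii p) (by push_cast; ring)
  have hC1 := fa_compl p (2*n) (4*n) (by omega)
  have hC2 := fa_compl p (3*n) (3*n) (by omega)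
  rw [show 2*n+4*n = 6*n by ring] at hC1
  rw [show 3*n+3*n = 6*n by ring] at hC2
  simp only [ha_def] at h42 hC1 hC2 ⊢
  have H0 : HH p 0 = 0 := by simp [HH]
  have pε : ((-1:ZMod (p^2))^(2*n)) = 1 := by rw [pow_mul]; simp
  have pε3 : ((-1:ZMod (p^2))^(3*n)) = (-1)^n := by
    rw [show 3*n = 2*n+n by ring, pow_add, pε, one_mul]
  have hε : ((-1:ZMod (p^2))^n)^2 = 1 := by rw [← pow_mul, mul_comm, pε]
  rw [H0] at kA6 kD3
  rw [fa_zero] at kA6 kD3
  rw [pε] at kD3 hC1
  rw [pε3] at hC2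
  rw [h42] at kB3
  simp only [one_mul, mul_one, mul_zero, sub_zero, sub_self] at kA6 kD3 hC1
  have D1 := rf_dup (6*ii p) (6*ii p) (by linear_combination hi) n
  have D2 := rf_dup (2*ii p) (6*ii p) (by linear_combination hi) n
  rw [show 2*(6*ii p) = 1 by linear_combination hi, show 6*ii p + 6*ii p = 1 by linear_combination hi,
    rf_one_fa, rf_one_fa] at D1
  rw [show 2*(2*ii p) = 4*ii p by ring, show 2*ii p + 6*ii p = 8*ii p by ring] at D2
  have u2 := unit2 p h5
  have u4 : IsUnit (4 : ZMod (p^2)) := by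
    have := u2.mul u2; rw [show (2:ZMod (p^2))*2 = 4 by norm_num] at this; exact this
  have uw : IsUnit ((4 : ZMod (p^2))^n) := u4.pow n
  exact algA (p : ZMod (p^2)) (HH p n) (HH p (2*n)) (HH p (3*n)) (fa p n) (fa p (2*n))
    (fa p (3*n)) (fa p (4*n)) ((-1)^n) (4^n) (ii p) (rf (6*ii p) n) (rf (2*ii p) n) (rf (8*ii p) n)
    hP hi hε ua uc uw (by linear_combination D1) kA2 (by linear_combination D2 - kD3) kA6
    (by linear_combination kB3) (by linear_combination hC2 - hC1)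

lemma rf_asc {R : Type*} [CommRing R] (m k : ℕ) : rf (m:R) k = (m.ascFactorial k : R) := by
  induction k with
  | zero => simp
  | succ k ih => rw [rf_succ, ih, Nat.ascFactorial_succ]; push_cast; ring

/-- `C(N, k) k! = (N-k+1)_k` -/
lemma choose_rf {R : Type*} [CommRing R] (m k : ℕ) :
    ((m+k).choose k : R) * (k.factorial : R) = rf (((m+1 : ℕ) : R)) k := by
  rw [rf_asc, Nat.ascFactorial_eq_factorial_mul_choose]
  push_cast; ring

lemma hB1 (hpn : p = 6*n+1) : ((4*n).choose (3*n) : ZMod (p^2)) * fa p n * fa p (3*n) = fa p (4*n) := by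
  have h := Nat.choose_mul_factorial_mul_factorial (show 3*n ≤ 4*n by omega)
  rw [show 4*n - 3*n = n by omega] at h
  have h2 := congrArg (Nat.cast : ℕ → ZMod (p^2)) h
  push_cast at h2
  unfold fa
  linear_combination h2

lemma shift_rf (a b : ℕ) (h : a + b < p) :
    rf (((a:ZMod (p^2)) + p)) b * fa p a * ((a:ZMod (p^2)) + b + p) =
      ((a:ZMod (p^2)) + p) * (fa p (a+b) * (1 + (ha p (a+b) - ha p a))) := by
  have h1 := rf_mid_P p 1 a b h
  have h2 := rf_succ ((a:ZMod (p^2)) + p) b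
  have h3 := rf_succ' ((a:ZMod (p^2)) + p) b
  rw [h2, show (a:ZMod (p^2)) + p + 1 = 1 + a + p * 1 by ring] at h3
  linear_combination fa p a * h3 + ((a:ZMod (p^2)) + p) * h1

lemma hB2 (h5 : 5 < p) (hpn : p = 6*n+1) :
    ((10*n).choose (3*n) : ZMod (p^2)) * fa p (3*n) * fa p n * (10*(p:ZMod (p^2))-4) =
      (7*(p:ZMod (p^2))-1) * fa p (4*n) * (1 - ha p (3*n)) := by
  have hPn : (p : ZMod (p^2)) = 6*n+1 := by
    have : ((6*n+1 : ℕ) : ZMod (p^2)) = p := by rw [← hpn]
    rw [← this]; push_cast; ring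
  have h1 := choose_rf (R := ZMod (p^2)) (7*n) (3*n)
  rw [show 7*n+3*n = 10*n by ring, show 7*n+1 = n + (6*n+1) by ring, ← hpn] at h1
  have h2 := shift_rf p n (3*n) (by omega)
  rw [show n + 3*n = 4*n by ring, ha_rel p n h5 hpn,
    ha_symm p (4*n) (2*n) (by omega) (by omega)] at h2
  push_cast at h1 h2
  rw [← h1] at h2
  have h3 : ((3*n).factorial : ZMod (p^2)) = fa p (3*n) := rfl
  rw [h3] at h2
  have e1 : 10*(p:ZMod (p^2))-4 = 6 * ((n:ZMod (p^2)) + 3*n + p) := by linear_combination 4*hPn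
  have e2 : 7*(p:ZMod (p^2))-1 = 6 * ((n:ZMod (p^2)) + p) := by linear_combination hPn
  rw [e1, e2]
  linear_combination 6 * h2

lemma hB3 (hpn : p = 6*n+1) :
    ((10*n).choose (9*n) : ZMod (p^2)) * fa p n * fa p (3*n) * (10*(p:ZMod (p^2))-4) =
      (9*(p:ZMod (p^2))-3) * fa p (4*n) * (1 + ha p (2*n) - ha p (3*n)) := by
  have hPn : (p : ZMod (p^2)) = 6*n+1 := by
    have : ((6*n+1 : ℕ) : ZMod (p^2)) = p := by rw [← hpn]
    rw [← this]; push_cast; ring
  have hpos := hp.out.pos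
  have hn : 0 < n := by
    rcases Nat.eq_zero_or_pos n with h | h
    · subst h; have := hp.out.one_lt; omega
    · exact h
  have h1 := choose_rf (R := ZMod (p^2)) (9*n) n
  rw [show 9*n+n = 10*n by ring, show 9*n+1 = 3*n + (6*n+1) by ring, ← hpn] at h1
  have h2 := shift_rf p (3*n) n (by omega)
  rw [show 3*n + n = 4*n by ring,
    ha_symm p (4*n) (2*n) (by omega) (by omega)] at h2
  have hch : (10*n).choose (9*n) = (10*n).choose n := by
    rw [← Nat.choose_symm (show n ≤ 10*n by omega)]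
    congr 1; omega
  rw [hch]
  push_cast at h1 h2
  rw [← h1] at h2
  have h3 : (n.factorial : ZMod (p^2)) = fa p n := rfl
  rw [h3] at h2
  have e1 : 10*(p:ZMod (p^2))-4 = 6 * (3 * (n:ZMod (p^2)) + n + p) := by linear_combination 4*hPn
  have e2 : 9*(p:ZMod (p^2))-3 = 6 * (3 * (n:ZMod (p^2)) + p) := by linear_combination 3*hPn
  rw [e1, e2]
  linear_combination 6 * h2

/-- First part: the truncated sum is plus or minus the Jacobi sum. -/
theorem main2 (h5 : 5 < p) (hpn : p = 6*n+1) {z' : ZMod (p^2)} (hz : Red (p^2) (-3/125) z') :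
    IsUnit (JJ p n) ∧ (S0 p z' = JJ p n ∨ S0 p z' = -JJ p n) :=
  main1 p n h5 hpn hz (JJ_eq p n h5 hpn) (hB1 p n hpn) (hB2 p n h5 hpn) (hB3 p n hpn)

end

end Pool.Agent.Helper4.Sun
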