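import Pool.Agent.Helper4.Sun.Rec
namespace Pool.Agent.Helper4.Sun
open Finset

lemma ne_z1 (K : ℕ) : ∀ j : ℤ, (1 - 2*((1/6 : ℚ)+K) + j) ≠ 0 := by
  intro j h
  have : ((2 : ℤ) - 6*K + 3*j : ℚ) = 0 := by push_cast; linarith
  have h2 : ((2 : ℤ) - 6*K + 3*j) = 0 := by exact_mod_cast this
  omega

lemma ne_z5 (K : ℕ) : ∀ j : ℤ, (1 - 2*((5/6 : ℚ)+K) + j) ≠ 0 := by
  intro j h
  have : ((-2 : ℤ) - 6*K + 3*j : ℚ) = 0 := by push_cast; linarith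
  have h2 : ((-2 : ℤ) - 6*K + 3*j) = 0 := by exact_mod_cast this
  omega

lemma ne_p1 (K : ℕ) : ∀ j : ℤ, (1 - 3*((1/6 : ℚ)+K) + j) ≠ 0 := by
  intro j h
  have : ((1 : ℤ) - 6*K + 2*j : ℚ) = 0 := by push_cast; linarith
  have h2 : ((1 : ℤ) - 6*K + 2*j) = 0 := by exact_mod_cast this
  omega

lemma ne_p5 (K : ℕ) : ∀ j : ℤ, (1 - 3*((5/6 : ℚ)+K) + j) ≠ 0 := by
  intro j h
  have : ((-3 : ℤ) - 6*K + 2*j : ℚ) = 0 := by push_cast; linarith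
  have h2 : ((-3 : ℤ) - 6*K + 2*j) = 0 := by exact_mod_cast this
  omega

lemma ne_q1 (K : ℕ) : ∀ j : ℤ, (1 - ((1/6 : ℚ)+K) + j) ≠ 0 := by
  intro j h
  have : ((5 : ℤ) - 6*K + 6*j : ℚ) = 0 := by push_cast; linarith
  have h2 : ((5 : ℤ) - 6*K + 6*j) = 0 := by exact_mod_cast this
  omega

lemma ne_q5 (K : ℕ) : ∀ j : ℤ, (1 - ((5/6 : ℚ)+K) + j) ≠ 0 := by
  intro j h
  have : ((1 : ℤ) - 6*K + 6*j : ℚ) = 0 := by push_cast; linarith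
  have h2 : ((1 : ℤ) - 6*K + 6*j) = 0 := by exact_mod_cast this
  omega

lemma ne_m (m : ℕ) : ∀ j : ℤ, (1 - (-(m:ℚ) - 1/3) + j) ≠ 0 := by
  intro j h
  have : ((4 : ℤ) + 3*m + 3*j : ℚ) = 0 := by push_cast; linarith
  have h2 : ((4 : ℤ) + 3*m + 3*j) = 0 := by exact_mod_cast this
  omega

lemma ne_w (a : ℕ) (ha : a = 1 ∨ a = 5) (K : ℕ) : ((a/6 : ℚ)+K) ≠ 0 := by
  intro h
  have : ((a : ℤ) + 6*K : ℚ) = 0 := by push_cast; linarith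
  have h2 : ((a : ℤ) + 6*K) = 0 := by exact_mod_cast this
  omega

lemma ne_w1 (a : ℕ) (ha : a = 1 ∨ a = 5) (K : ℕ) : ((a/6 : ℚ)+K) - 1 ≠ 0 := by
  intro h
  have : ((a : ℤ) + 6*K - 6 : ℚ) = 0 := by push_cast; linarith
  have h2 : ((a : ℤ) + 6*K - 6) = 0 := by exact_mod_cast this
  omega

/-- recurrence on the z-side, boundary terms gone; σ = 1/6 or 5/6 -/
lemma z_rec' (σ z : ℚ) (hσ : σ = 1/6 ∨ σ = 5/6) (K N : ℕ) (hN : K + 3 ≤ N)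
    (hc0 : ∀ K : ℕ, ∀ j : ℤ, (1 - 2*(σ+K) + j) ≠ 0) :
    PS (1/2 - (σ+(K+2:ℕ))) (σ - (σ+(K+2:ℕ))) (1-2*(σ+(K+2:ℕ))) z N =
      (1 - z/2) * PS (1/2-(σ+(K+1:ℕ))) (σ - (σ+(K+1:ℕ))) (1-2*(σ+(K+1:ℕ))) z N
      - z^2/16 * (((σ+(K+1:ℕ))-1/6)*((σ+(K+1:ℕ))-5/6)/((σ+(K+1:ℕ))*((σ+(K+1:ℕ))-1))) *
        PS (1/2-(σ+K)) (σ-(σ+K)) (1-2*(σ+K)) z N := by
  obtain ⟨M, rfl⟩ : ∃ M, N = M + 2 := ⟨N - 2, by omega⟩
  have h := z_rec (σ+(K+1:ℕ)) σ z hσ (hc0 (K+1)) M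
  have e1 : (σ+(K+1:ℕ)) + 1 = σ + (K+2:ℕ) := by push_cast; ring
  have e2 : (σ+(K+1:ℕ)) - 1 = σ + K := by push_cast; ring
  rw [e1] at h
  rw [h]
  have v1 : hc (1/2-(σ+(K+1:ℕ))) (σ - (σ+(K+1:ℕ))) (1-2*(σ+(K+1:ℕ))) (M+1) = 0 :=
    hc_vanish_b _ _ _ (K+1) _ (by ring) (by omega)
  have v2 : hc (1/2-(σ+K)) (σ - (σ+K)) (1-2*(σ+K)) M = 0 :=
    hc_vanish_b _ _ _ K _ (by ring) (by omega)
  have v3 : hc (1/2-(σ+K)) (σ - (σ+K)) (1-2*(σ+K)) (M+1) = 0 :=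
    hc_vanish_b _ _ _ K _ (by ring) (by omega)
  rw [e2, v1, v2, v3]
  ring

lemma z_rec0 (σ z : ℚ) (hσ : σ = 1/6 ∨ σ = 5/6) (N : ℕ) (hN : 2 ≤ N)
    (hc0 : ∀ K : ℕ, ∀ j : ℤ, (1 - 2*(σ+K) + j) ≠ 0) :
    PS (1/2 - (σ+(1:ℕ))) (σ - (σ+(1:ℕ))) (1-2*(σ+(1:ℕ))) z N =
      (1 - z/2) * PS (1/2-(σ+(0:ℕ))) (σ - (σ+(0:ℕ))) (1-2*(σ+(0:ℕ))) z N := by
  obtain ⟨M, rfl⟩ : ∃ M, N = M + 2 := ⟨N - 2, by omega⟩
  have h := z_rec (σ+(0:ℕ)) σ z hσ (hc0 0) M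
  have e1 : (σ+(0:ℕ)) + 1 = σ + (1:ℕ) := by push_cast; ring
  rw [e1] at h
  rw [h]
  have v1 : hc (1/2-(σ+(0:ℕ))) (σ - (σ+(0:ℕ))) (1-2*(σ+(0:ℕ))) (M+1) = 0 :=
    hc_vanish_b _ _ _ 0 _ (by ring) (by omega)
  have v2 : (((σ+(0:ℕ))-1/6)*((σ+(0:ℕ))-5/6)/((σ+(0:ℕ))*((σ+(0:ℕ))-1))) = 0 := by
    rcases hσ with rfl | rfl <;> simp
  rw [v1, v2]
  ring

/-- recurrence on the first phi side; (σ,μ) = (1/6,1/3) or (5/6,2/3) -/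
lemma p1_rec' (σ μ x : ℚ) (h : (σ = 1/6 ∧ μ = 1/3) ∨ (σ = 5/6 ∧ μ = 2/3)) (K N : ℕ)
    (hN : 2*K + 7 ≤ N) :
    PS (μ - 2*(σ+(K+2:ℕ))) (μ - (σ+(K+2:ℕ))) (1-3*(σ+(K+2:ℕ))) x N =
      (1 - 2/3*x - x^2/27) *
        PS (μ - 2*(σ+(K+1:ℕ))) (μ - (σ+(K+1:ℕ))) (1-3*(σ+(K+1:ℕ))) x N
      - 16/729 * x^3 * (((σ+(K+1:ℕ))-1/6)*((σ+(K+1:ℕ))-5/6)/((σ+(K+1:ℕ))*((σ+(K+1:ℕ))-1))) *
        PS (μ-2*(σ+K)) (μ-(σ+K)) (1-3*(σ+K)) x N := by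
  obtain ⟨M, rfl⟩ : ∃ M, N = M + 3 := ⟨N - 3, by omega⟩
  have hμ : μ = 1/3 ∨ μ = 2/3 := by rcases h with ⟨_, h⟩ | ⟨_, h⟩ <;> simp [h]
  have hc0 : ∀ j : ℤ, (1 - 3*(σ+(K+1:ℕ)) + j) ≠ 0 := by
    rcases h with ⟨h, _⟩ | ⟨h, _⟩ <;> rw [h]
    · exact ne_p1 (K+1)
    · exact ne_p5 (K+1)
  have hw : (σ+(K+1:ℕ)) ≠ 0 := by
    rcases h with ⟨h, _⟩ | ⟨h, _⟩ <;> rw [h]
    · have := ne_w 1 (Or.inl rfl) (K+1); push_cast at *; exact this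
    · have := ne_w 5 (Or.inr rfl) (K+1); push_cast at *; exact this
  have hw1 : (σ+(K+1:ℕ)) - 1 ≠ 0 := by
    rcases h with ⟨h, _⟩ | ⟨h, _⟩ <;> rw [h]
    · have := ne_w1 1 (Or.inl rfl) (K+1); push_cast at *; exact this
    · have := ne_w1 5 (Or.inr rfl) (K+1); push_cast at *; exact this
  have hr := p1_rec (σ+(K+1:ℕ)) μ x hμ hc0 hw hw1 M
  have e1 : (σ+(K+1:ℕ)) + 1 = σ + (K+2:ℕ) := by push_cast; ring
  have e2 : (σ+(K+1:ℕ)) - 1 = σ + K := by push_cast; ring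
  rw [e1] at hr
  rw [hr]
  have van : ∀ (J j : ℕ), 2*J+1 < j →
      hc (μ-2*(σ+J)) (μ-(σ+J)) (1-3*(σ+J)) j = 0 := by
    intro J j hj
    rcases h with ⟨h, h'⟩ | ⟨h, h'⟩ <;> subst h <;> subst h'
    · exact hc_vanish_a _ _ _ (2*J) _ (by push_cast; ring) (by omega)
    · exact hc_vanish_a _ _ _ (2*J+1) _ (by push_cast; ring) (by omega)
  rw [e2, van (K+1) (M+2) (by omega), van (K+1) (M+1) (by omega), van K M (by omega),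
    van K (M+1) (by omega), van K (M+2) (by omega)]
  ring

lemma p1_rec0 (σ μ x : ℚ) (h : (σ = 1/6 ∧ μ = 1/3) ∨ (σ = 5/6 ∧ μ = 2/3)) (N : ℕ)
    (hN : 5 ≤ N) :
    PS (μ - 2*(σ+(1:ℕ))) (μ - (σ+(1:ℕ))) (1-3*(σ+(1:ℕ))) x N =
      (1 - 2/3*x - x^2/27) *
        PS (μ - 2*(σ+(0:ℕ))) (μ - (σ+(0:ℕ))) (1-3*(σ+(0:ℕ))) x N := by
  obtain ⟨M, rfl⟩ : ∃ M, N = M + 3 := ⟨N - 3, by omega⟩
  have hμ : μ = 1/3 ∨ μ = 2/3 := by rcases h with ⟨_, h⟩ | ⟨_, h⟩ <;> simp [h]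
  have hc0 : ∀ j : ℤ, (1 - 3*(σ+(0:ℕ)) + j) ≠ 0 := by
    rcases h with ⟨h, _⟩ | ⟨h, _⟩ <;> rw [h]
    · exact ne_p1 0
    · exact ne_p5 0
  have hw : (σ+(0:ℕ)) ≠ 0 := by
    rcases h with ⟨h, _⟩ | ⟨h, _⟩ <;> rw [h] <;> norm_num
  have hw1 : (σ+(0:ℕ)) - 1 ≠ 0 := by
    rcases h with ⟨h, _⟩ | ⟨h, _⟩ <;> rw [h] <;> norm_num
  have hr := p1_rec (σ+(0:ℕ)) μ x hμ hc0 hw hw1 M
  have e1 : (σ+(0:ℕ)) + 1 = σ + (1:ℕ) := by push_cast; ring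
  rw [e1] at hr
  rw [hr]
  have van : ∀ (J j : ℕ), 2*J+1 < j →
      hc (μ-2*(σ+J)) (μ-(σ+J)) (1-3*(σ+J)) j = 0 := by
    intro J j hj
    rcases h with ⟨h, h'⟩ | ⟨h, h'⟩ <;> subst h <;> subst h'
    · exact hc_vanish_a _ _ _ (2*J) _ (by push_cast; ring) (by omega)
    · exact hc_vanish_a _ _ _ (2*J+1) _ (by push_cast; ring) (by omega)
  have v2 : (((σ+(0:ℕ))-1/6)*((σ+(0:ℕ))-5/6)/((σ+(0:ℕ))*((σ+(0:ℕ))-1))) = 0 := by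
    rcases h with ⟨h, _⟩ | ⟨h, _⟩ <;> rw [h] <;> simp
  rw [van 0 (M+2) (by omega), van 0 (M+1) (by omega), v2]
  ring

/-- recurrence on the second phi side; (σ,μ) = (1/6,1/3) or (5/6,2/3) -/
lemma p2_rec' (σ μ x : ℚ) (h : (σ = 1/6 ∧ μ = 1/3) ∨ (σ = 5/6 ∧ μ = 2/3)) (K N : ℕ)
    (hN : 2*K + 7 ≤ N) :
    PS (μ - 2*(σ+(K+2:ℕ))) (μ + (σ+(K+2:ℕ))) (1-(σ+(K+2:ℕ))) x N =
      (1 + 18*x - 27*x^2) *
        PS (μ - 2*(σ+(K+1:ℕ))) (μ + (σ+(K+1:ℕ))) (1-(σ+(K+1:ℕ))) x N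
      - 16 * x * (((σ+(K+1:ℕ))-1/6)*((σ+(K+1:ℕ))-5/6)/((σ+(K+1:ℕ))*((σ+(K+1:ℕ))-1))) *
        PS (μ-2*(σ+K)) (μ+(σ+K)) (1-(σ+K)) x N := by
  obtain ⟨M, rfl⟩ : ∃ M, N = M + 2 := ⟨N - 2, by omega⟩
  have hμ : μ = 1/3 ∨ μ = 2/3 := by rcases h with ⟨_, h⟩ | ⟨_, h⟩ <;> simp [h]
  have hc0 : ∀ j : ℤ, (1 - (σ+(K+1:ℕ)) + j) ≠ 0 := by
    rcases h with ⟨h, _⟩ | ⟨h, _⟩ <;> rw [h]
    · exact ne_q1 (K+1)
    · exact ne_q5 (K+1)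
  have hr := p2_rec (σ+(K+1:ℕ)) μ x hμ hc0 M
  have e1 : (σ+(K+1:ℕ)) + 1 = σ + (K+2:ℕ) := by push_cast; ring
  have e2 : (σ+(K+1:ℕ)) - 1 = σ + K := by push_cast; ring
  rw [e1] at hr
  rw [hr]
  have van : ∀ (J j : ℕ), 2*J+1 < j →
      hc (μ-2*(σ+J)) (μ+(σ+J)) (1-(σ+J)) j = 0 := by
    intro J j hj
    rcases h with ⟨h, h'⟩ | ⟨h, h'⟩ <;> subst h <;> subst h'
    · exact hc_vanish_a _ _ _ (2*J) _ (by push_cast; ring) (by omega)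
    · exact hc_vanish_a _ _ _ (2*J+1) _ (by push_cast; ring) (by omega)
  rw [e2, van (K+1) (M+1) (by omega), van (K+1) M (by omega),
    van K (M+1) (by omega)]
  ring

lemma p2_rec0 (σ μ x : ℚ) (h : (σ = 1/6 ∧ μ = 1/3) ∨ (σ = 5/6 ∧ μ = 2/3)) (N : ℕ)
    (hN : 5 ≤ N) :
    PS (μ - 2*(σ+(1:ℕ))) (μ + (σ+(1:ℕ))) (1-(σ+(1:ℕ))) x N =
      (1 + 18*x - 27*x^2) *
        PS (μ - 2*(σ+(0:ℕ))) (μ + (σ+(0:ℕ))) (1-(σ+(0:ℕ))) x N := by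
  obtain ⟨M, rfl⟩ : ∃ M, N = M + 2 := ⟨N - 2, by omega⟩
  have hμ : μ = 1/3 ∨ μ = 2/3 := by rcases h with ⟨_, h⟩ | ⟨_, h⟩ <;> simp [h]
  have hc0 : ∀ j : ℤ, (1 - (σ+(0:ℕ)) + j) ≠ 0 := by
    rcases h with ⟨h, _⟩ | ⟨h, _⟩ <;> rw [h]
    · exact ne_q1 0
    · exact ne_q5 0
  have hr := p2_rec (σ+(0:ℕ)) μ x hμ hc0 M
  have e1 : (σ+(0:ℕ)) + 1 = σ + (1:ℕ) := by push_cast; ring
  rw [e1] at hr
  rw [hr]
  have van : ∀ (J j : ℕ), 2*J+1 < j →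
      hc (μ-2*(σ+J)) (μ+(σ+J)) (1-(σ+J)) j = 0 := by
    intro J j hj
    rcases h with ⟨h, h'⟩ | ⟨h, h'⟩ <;> subst h <;> subst h'
    · exact hc_vanish_a _ _ _ (2*J) _ (by push_cast; ring) (by omega)
    · exact hc_vanish_a _ _ _ (2*J+1) _ (by push_cast; ring) (by omega)
  have v2 : (((σ+(0:ℕ))-1/6)*((σ+(0:ℕ))-5/6)/((σ+(0:ℕ))*((σ+(0:ℕ))-1))) = 0 := by
    rcases h with ⟨h, _⟩ | ⟨h, _⟩ <;> rw [h] <;> simp
  rw [van 0 (M+1) (by omega), van 0 M (by omega), v2]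
  ring

/-- (T1) -/
theorem T1 (K : ℕ) : ∀ N : ℕ, 2*K + 5 ≤ N →
    PS (1/2 - (1/6+(K:ℚ))) (1/6 - (1/6+(K:ℚ))) (1-2*(1/6+(K:ℚ))) (-3/125) N =
      (2187/2000)^K * PS (1/3 - 2*(1/6+(K:ℚ))) (1/3-(1/6+(K:ℚ))) (1-3*(1/6+(K:ℚ))) (1/9) N := by
  induction K using Nat.twoStepInduction with
  | zero =>
    intro N hN
    rw [PS_stable _ _ _ _ 1 N (fun k hk => hc_vanish_b _ _ _ 0 _ (by norm_num) (by omega)) (by omega),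
      PS_stable _ _ _ _ 1 N (fun k hk => hc_vanish_a _ _ _ 0 _ (by norm_num) (by omega)) (by omega)]
    simp [PS_succ, PS_zero, hc_zero]
  | one =>
    intro N hN
    have h1 := z_rec0 (1/6) (-3/125) (Or.inl rfl) N (by omega) ne_z1
    have h2 := p1_rec0 (1/6) (1/3) (1/9) (Or.inl ⟨rfl, rfl⟩) N (by omega)
    rw [h1, h2,
      PS_stable _ _ _ _ 1 N (fun k hk => hc_vanish_b _ _ _ 0 _ (by norm_num) (by omega)) (by omega),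
      PS_stable _ _ _ _ 1 N (fun k hk => hc_vanish_a _ _ _ 0 _ (by norm_num) (by omega)) (by omega)]
    simp [PS_succ, PS_zero, hc_zero]
    norm_num
  | more K ih1 ih2 =>
    intro N hN
    have h1 := z_rec' (1/6) (-3/125) (Or.inl rfl) K N (by omega) ne_z1
    have h2 := p1_rec' (1/6) (1/3) (1/9) (Or.inl ⟨rfl, rfl⟩) K N (by omega)
    have h3 := ih1 N (by omega)
    have h4 := ih2 N (by omega)
    rw [h1, h2, h3, h4]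
    ring

/-- (T1'') -/
theorem T1'' (K : ℕ) : ∀ N : ℕ, 2*K + 5 ≤ N →
    PS (1/2 - (5/6+(K:ℚ))) (5/6 - (5/6+(K:ℚ))) (1-2*(5/6+(K:ℚ))) (3/128) N =
      81/80 * (2187/2048)^K *
        PS (2/3 - 2*(5/6+(K:ℚ))) (2/3-(5/6+(K:ℚ))) (1-3*(5/6+(K:ℚ))) (1/9) N := by
  induction K using Nat.twoStepInduction with
  | zero =>
    intro N hN
    rw [PS_stable _ _ _ _ 1 N (fun k hk => hc_vanish_b _ _ _ 0 _ (by norm_num) (by omega)) (by omega),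
      PS_stable _ _ _ _ 2 N (fun k hk => hc_vanish_a _ _ _ 1 _ (by norm_num) (by omega)) (by omega)]
    simp [PS_succ, PS_zero, hc_zero, hc_one]
    norm_num
  | one =>
    intro N hN
    have h1 := z_rec0 (5/6) (3/128) (Or.inr rfl) N (by omega) ne_z5
    have h2 := p1_rec0 (5/6) (2/3) (1/9) (Or.inr ⟨rfl, rfl⟩) N (by omega)
    rw [h1, h2,
      PS_stable _ _ _ _ 1 N (fun k hk => hc_vanish_b _ _ _ 0 _ (by norm_num) (by omega)) (by omega),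
      PS_stable _ _ _ _ 2 N (fun k hk => hc_vanish_a _ _ _ 1 _ (by norm_num) (by omega)) (by omega)]
    simp [PS_succ, PS_zero, hc_zero, hc_one]
    norm_num
  | more K ih1 ih2 =>
    intro N hN
    have h1 := z_rec' (5/6) (3/128) (Or.inr rfl) K N (by omega) ne_z5
    have h2 := p1_rec' (5/6) (2/3) (1/9) (Or.inr ⟨rfl, rfl⟩) K N (by omega)
    have h3 := ih1 N (by omega)
    have h4 := ih2 N (by omega)
    rw [h1, h2, h3, h4]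
    ring

/-- (T2'') -/
theorem T2'' (K : ℕ) : ∀ N : ℕ, 2*K + 5 ≤ N →
    PS (2/3 - 2*(5/6+(K:ℚ))) (2/3+(5/6+(K:ℚ))) (1-(5/6+(K:ℚ))) (1/9) N = 0 := by
  induction K using Nat.twoStepInduction with
  | zero =>
    intro N hN
    rw [PS_stable _ _ _ _ 2 N (fun k hk => hc_vanish_a _ _ _ 1 _ (by norm_num) (by omega)) (by omega)]
    simp [PS_succ, PS_zero, hc_zero, hc_one]
    norm_num
  | one =>
    intro N hN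
    have h2 := p2_rec0 (5/6) (2/3) (1/9) (Or.inr ⟨rfl, rfl⟩) N (by omega)
    rw [h2,
      PS_stable _ _ _ _ 2 N (fun k hk => hc_vanish_a _ _ _ 1 _ (by norm_num) (by omega)) (by omega)]
    simp [PS_succ, PS_zero, hc_zero, hc_one]
    norm_num
  | more K ih1 ih2 =>
    intro N hN
    have h2 := p2_rec' (5/6) (2/3) (1/9) (Or.inr ⟨rfl, rfl⟩) K N (by omega)
    have h3 := ih1 N (by omega)
    have h4 := ih2 N (by omega)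
    rw [h2, h3, h4]
    ring

lemma rf_pos (x : ℚ) (hx : 0 < x) (k : ℕ) : rf x k ≠ 0 := by
  unfold rf
  rw [prod_ne_zero_iff]
  intro i _
  positivity

/-- (T2) -/
theorem T2 (K : ℕ) : ∀ N : ℕ, 2*K + 5 ≤ N →
    PS (1/3 - 2*(1/6+(K:ℚ))) (1/3+(1/6+(K:ℚ))) (1-(1/6+(K:ℚ))) (1/9) N =
      (4/3)^K * rf (1/3) K / rf (1/6) K := by
  induction K using Nat.twoStepInduction with
  | zero =>
    intro N hN
    rw [PS_stable _ _ _ _ 1 N (fun k hk => hc_vanish_a _ _ _ 0 _ (by norm_num) (by omega)) (by omega)]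
    simp [PS_succ, PS_zero, hc_zero]
  | one =>
    intro N hN
    have h2 := p2_rec0 (1/6) (1/3) (1/9) (Or.inl ⟨rfl, rfl⟩) N (by omega)
    rw [h2,
      PS_stable _ _ _ _ 1 N (fun k hk => hc_vanish_a _ _ _ 0 _ (by norm_num) (by omega)) (by omega)]
    simp [PS_succ, PS_zero, hc_zero, rf_succ]
    norm_num
  | more K ih1 ih2 =>
    intro N hN
    have h2 := p2_rec' (1/6) (1/3) (1/9) (Or.inl ⟨rfl, rfl⟩) K N (by omega)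
    have h3 := ih1 N (by omega)
    have h4 := ih2 N (by omega)
    rw [h2, h3, h4]
    have r1 : rf (1/6 : ℚ) K ≠ 0 := rf_pos _ (by norm_num) K
    have k1 : (1/6 + (K:ℚ)) ≠ 0 := by positivity
    have k2 : (1/6 + ((K:ℚ)+1)) ≠ 0 := by positivity
    have k3 : (1/6 + ((K:ℚ)+1)) - 1 ≠ 0 := by ring_nf; positivity
    have k4 : (1 + (K:ℚ)*6) ≠ 0 := by positivity
    have k5 : (1 + 6*(K:ℚ)) ≠ 0 := by positivity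
    have k6 : (7 + 6*(K:ℚ)) ≠ 0 := by positivity
    have k7 : (1 + 6*((K:ℚ)+1)) ≠ 0 := by positivity
    simp only [rf_succ, pow_succ]
    push_cast
    generalize rf (1/6 : ℚ) K = A at *
    generalize rf (1/3 : ℚ) K = B at *
    generalize (K:ℚ) = κ at *
    rw [show (1/6 + (κ+1)) - 1 = 1/6+κ by ring, show (1/6 + (κ+1)) - 1/6 = κ+1 by ring,
      show (1/6 + (κ+1)) - 5/6 = κ+1/3 by ring]
    field_simp
    ring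

/-- (T3) -/
theorem T3 (m : ℕ) : ∀ N : ℕ, 2*m + 5 ≤ N →
    PS (1/3 - 2*(-(m:ℚ)-1/3)) (1/3+(-(m:ℚ)-1/3)) (1-(-(m:ℚ)-1/3)) (1/9) N =
      (3/4)^m * rf (4/3) m / rf (7/6) m := by
  induction m using Nat.twoStepInduction with
  | zero =>
    intro N hN
    rw [PS_stable _ _ _ _ 1 N (fun k hk => hc_vanish_b _ _ _ 0 _ (by norm_num) (by omega)) (by omega)]
    simp [PS_succ, PS_zero, hc_zero]
  | one =>
    intro N hN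
    rw [PS_stable _ _ _ _ 2 N (fun k hk => hc_vanish_b _ _ _ 1 _ (by norm_num) (by omega)) (by omega)]
    simp [PS_succ, PS_zero, hc_zero, hc_one, rf_succ]
    norm_num
  | more m ih1 ih2 =>
    intro N hN
    obtain ⟨M, rfl⟩ : ∃ M, N = M + 2 := ⟨N - 2, by omega⟩
    have hr := p2_rec (-((m+1:ℕ):ℚ)-1/3) (1/3) (1/9) (Or.inl rfl) (ne_m (m+1)) M
    have e1 : (-((m+1:ℕ):ℚ)-1/3) + 1 = -(m:ℚ) - 1/3 := by push_cast; ring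
    have e2 : (-((m+1:ℕ):ℚ)-1/3) - 1 = -((m+2:ℕ):ℚ) - 1/3 := by push_cast; ring
    rw [e1, e2] at hr
    have van : ∀ (J j : ℕ), J < j →
        hc (1/3 - 2*(-(J:ℚ)-1/3)) (1/3+(-(J:ℚ)-1/3)) (1-(-(J:ℚ)-1/3)) j = 0 := by
      intro J j hj
      exact hc_vanish_b _ _ _ J _ (by ring) hj
    rw [van (m+1) (M+1) (by omega), van (m+1) M (by omega), van (m+2) (M+1) (by omega)] at hr
    have h3 := ih1 (M+2) (by omega)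
    have h4 := ih2 (M+2) (by omega)
    rw [h3, h4] at hr
    generalize PS (1/3 - 2*(-((m+2:ℕ):ℚ)-1/3)) (1/3+(-((m+2:ℕ):ℚ)-1/3)) (1-(-((m+2:ℕ):ℚ)-1/3)) (1/9)
      (M+2) = X at *
    have r1 : rf (7/6 : ℚ) m ≠ 0 := rf_pos _ (by norm_num) m
    have k0 : (m:ℚ) + 1 + 1/3 ≠ 0 := by positivity
    have k1 : (m:ℚ) + 2 + 1/3 ≠ 0 := by positivity
    have k2 : (m:ℚ) + 1 + 1/2 ≠ 0 := by positivity
    have k3 : (m:ℚ) + 1 + 7/6 ≠ 0 := by positivity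
    simp only [rf_succ, pow_succ] at hr ⊢
    push_cast at hr ⊢
    generalize rf (7/6 : ℚ) m = A at *
    generalize rf (4/3 : ℚ) m = B at *
    have km : (0:ℚ) ≤ (m:ℚ) := by positivity
    generalize (m:ℚ) = κ at *
    have l1 : (6*κ+7) ≠ 0 := by positivity
    have l2 : (6*κ+13) ≠ 0 := by positivity
    have l3 : (2*κ+3) ≠ 0 := by positivity
    have l4 : (3*κ+4) ≠ 0 := by positivity
    have l5 : (3*κ+7) ≠ 0 := by positivity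
    have e5 : (-(κ+1)-1/3-1/6)*(-(κ+1)-1/3-5/6)/((-(κ+1)-1/3)*(-(κ+1)-1/3-1)) =
        (2*κ+3)*(6*κ+13)*3/(4*(3*κ+4)*(3*κ+7)) := by
      have : (-(κ+1)-1/3) ≠ 0 := by intro h; apply k0; linarith
      have : (-(κ+1)-1/3-1) ≠ 0 := by intro h; apply k1; linarith
      rw [div_eq_div_iff (by positivity) (by positivity)]
      ring
    rw [show (-(κ+1)-1/3-1) = (-(κ+2)-1/3) by ring] at e5
    rw [e5] at hr
    have key : X = ((1 + 18 * (1 / 9) - 27 * (1 / 9) ^ 2) * ((3 / 4) ^ m * (3 / 4) * (B * (4 / 3 + κ)) / (A * (7 / 6 + κ))) - (3 / 4) ^ m * B / A) / (16 * (1/9) * ((2*κ+3)*(6*κ+13)*3/(4*(3*κ+4)*(3*κ+7)))) := by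
      rw [eq_div_iff (by positivity)]
      linear_combination hr
    rw [key]
    have l6 : (7/6+κ) ≠ 0 := by positivity
    have l7 : (7/6+(κ+1)) ≠ 0 := by positivity
    field_simp
    ring

end Pool.Agent.Helper4.Sun
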