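import Pool.Agent.Helper4.Sun.Affine
import Pool.Agent.Helper4.Sun.Closed
namespace Pool.Agent.Helper4.Sun
open Finset

set_option linter.unusedSectionVars false

section
variable {R : Type*} [CommRing R]

lemma rf_neg_nat (M k : ℕ) : rf (-(M:R)) k = (-1)^k * ((k.factorial : R) * (M.choose k : R)) := by
  have h1 : rf (-(M:R)) k = (-1)^k * (M.descFactorial k : R) := by
    induction k with
    | zero => simp
    | succ k ih =>
      rw [rf_succ, ih, Nat.descFactorial_succ, pow_succ]
      rcases Nat.lt_or_ge M k with h | h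
      · rw [Nat.descFactorial_of_lt h]; simp
      · push_cast [Nat.cast_sub h]; ring
  rw [h1, Nat.descFactorial_eq_factorial_mul_choose]; push_cast; ring

lemma rf_nat_succ (n k : ℕ) :
    rf (((n:R)+1)) k = (k.factorial : R) * ((n+k).choose k : R) := by
  have h1 : ∀ m : ℕ, rf (m:R) k = (m.ascFactorial k : R) := by
    intro m
    induction k with
    | zero => simp
    | succ k ih => rw [rf_succ, ih, Nat.ascFactorial_succ]; push_cast; ring
  have h2 := h1 (n+1)
  rw [Nat.ascFactorial_eq_factorial_mul_choose] at h2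
  push_cast at h2
  exact h2

lemma choose_sum (M j : ℕ) (hj : j ≤ M) (y : R) :
    (M.choose j : R) * y^j * (1+y)^(M-j) =
      ∑ k ∈ range (M+1), (M.choose k : R) * (k.choose j : R) * y^k := by
  have e : M + 1 = j + ((M - j) + 1) := by omega
  rw [e, sum_range_add]
  have h0 : ∑ k ∈ range j, (M.choose k : R) * (k.choose j : R) * y^k = 0 := by
    apply sum_eq_zero
    intro k hk
    rw [Nat.choose_eq_zero_of_lt (mem_range.1 hk)]; simp
  rw [h0, zero_add, add_comm 1 y, add_pow, mul_sum]
  apply sum_congr rfl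
  intro i hi
  rw [mem_range] at hi
  have h1 := Nat.choose_mul (n := M) (show j ≤ j + i by omega)
  rw [Nat.add_sub_cancel_left] at h1
  have h2 := congrArg (Nat.cast : ℕ → R) h1
  push_cast at h2
  rw [h2, pow_add]
  simp only [one_pow, mul_one]
  ring

lemma vander (n k M : ℕ) (hk : k ≤ M) :
    (n+k).choose k = ∑ j ∈ range (M+1), n.choose j * k.choose j := by
  have h1 : (n+k).choose k = ∑ j ∈ range (k+1), n.choose j * k.choose j := by
    rw [Nat.add_choose_eq, Finset.Nat.sum_antidiagonal_eq_sum_range_succ (fun a b => n.choose a * k.choose b)]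
    apply sum_congr rfl
    intro j hj
    rw [mem_range] at hj
    rw [Nat.choose_symm (by omega)]
  rw [h1, show M+1 = (k+1) + (M-k) by omega, sum_range_add _ (k+1) (M-k)]
  symm
  rw [add_eq_left]
  apply sum_eq_zero
  intro j hj
  rw [Nat.choose_eq_zero_of_lt (show k < k+1+j by omega), mul_zero]

/-- Pfaff transformation, terminating, lower parameter `1` -/
lemma pfaff (M n : ℕ) (y : R) :
    ∑ k ∈ range (M+1), (M.choose k : R) * ((n+k).choose k : R) * y^k =
      ∑ j ∈ range (M+1), (M.choose j : R) * (n.choose j : R) * y^j * (1+y)^(M-j) := by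
  have h1 : ∀ j ∈ range (M+1), (M.choose j : R) * (n.choose j : R) * y^j * (1+y)^(M-j) =
      ∑ k ∈ range (M+1), (n.choose j : R) * ((M.choose k : R) * (k.choose j : R) * y^k) := by
    intro j hj
    rw [mem_range] at hj
    rw [← mul_sum, ← choose_sum M j (by omega) y]
    ring
  rw [sum_congr rfl h1, sum_comm]
  apply sum_congr rfl
  intro k hk
  rw [mem_range] at hk
  rw [vander n k M (by omega)]
  push_cast
  rw [mul_sum, sum_mul]
  apply sum_congr rfl
  intro j _
  ring

end

section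
variable (p : ℕ) [hp : Fact p.Prime]

instance fact_one : Fact (1 < p) := ⟨hp.out.one_lt⟩

lemma ne_zero_of_lt (k : ℕ) (h0 : 0 < k) (h : k < p) : (k : ZMod p) ≠ 0 := by
  intro hc
  rw [ZMod.natCast_eq_zero_iff] at hc
  have := Nat.le_of_dvd h0 hc
  omega

lemma fact_ne_zero (k : ℕ) (h : k < p) : (k.factorial : ZMod p) ≠ 0 := by
  intro hc
  rw [ZMod.natCast_eq_zero_iff, hp.out.dvd_factorial] at hc
  omega

lemma red_p : Red p (p:ℚ) 0 := by
  have := Red.nat (m := p) p
  rwa [ZMod.natCast_self] at this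

lemma red_sub_p {x c : ℚ} {r s : ZMod p} (h : Red p x r) (hc : Red p c s) : Red p (x - p*c) r := by
  have := h.sub ((red_p p).mul hc)
  simpa using this

lemma red_add_p {x c : ℚ} {r s : ZMod p} (h : Red p x r) (hc : Red p c s) : Red p (x + p*c) r := by
  have := h.add ((red_p p).mul hc)
  simpa using this

/-- reduction of truncated sums modulo `p` with lower parameters `≡ 1` -/
lemma red_PD {a b c d x : ℚ} {a' b' x' : ZMod p} (ha : Red p a a') (hb : Red p b b')
    (hc : Red p c 1) (hd : Red p d 1) (hx : Red p x x') :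
    Red p (PD a b c d x p) (∑ k ∈ range p, rf a' k * rf b' k * ((k.factorial : ZMod p)⁻¹)^2 * x'^k) := by
  have h1 := Red.PD ha hb hc hd hx p (fun k hk => by
    rw [rf_one]
    exact ((fact_ne_zero p k hk).isUnit).mul ((fact_ne_zero p k hk).isUnit))
  have h2 : PR a' b' (1 : ZMod p) 1 x' p =
      ∑ k ∈ range p, rf a' k * rf b' k * ((k.factorial : ZMod p)⁻¹)^2 * x'^k := by
    unfold PR hdR
    apply sum_congr rfl
    intro k hk
    rw [rf_one, mul_inv]
    ring
  rw [← h2]; exact h1

lemma trunc_sum {A : Type*} [AddCommMonoid A] (f : ℕ → A) (a b : ℕ) (h : a ≤ b)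
    (h0 : ∀ k, a ≤ k → f k = 0) : ∑ k ∈ range b, f k = ∑ k ∈ range a, f k := by
  symm
  apply sum_subset (range_mono h)
  intro k _ hk
  rw [mem_range, not_lt] at hk
  exact h0 k hk

lemma sum_nn (M n : ℕ) (hM : M < p) (x : ZMod p) :
    ∑ k ∈ range p, rf (-(M : ZMod p)) k * rf (-(n : ZMod p)) k * ((k.factorial : ZMod p)⁻¹)^2 * x^k =
      ∑ k ∈ range (M+1), (M.choose k : ZMod p) * (n.choose k : ZMod p) * x^k := by
  rw [trunc_sum _ (M+1) p (by omega)]
  · apply sum_congr rfl
    intro k hk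
    rw [mem_range] at hk
    rw [rf_neg_nat, rf_neg_nat]
    have h1 := mul_inv_cancel₀ (fact_ne_zero p k (by omega))
    have h2 : ((-1 : ZMod p)^k)^2 = 1 := by rw [← pow_mul, mul_comm, pow_mul]; simp
    have h3 : (k.factorial : ZMod p)^2 * ((k.factorial : ZMod p)⁻¹)^2 = 1 := by
      rw [← mul_pow, h1, one_pow]
    linear_combination ((k.factorial : ZMod p)^2 * ((k.factorial : ZMod p)⁻¹)^2 *
      (M.choose k : ZMod p) * (n.choose k : ZMod p) * x^k) * h2 +
      ((M.choose k : ZMod p) * (n.choose k : ZMod p) * x^k) * h3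
  · intro k hk
    rw [rf_vanish M k (by omega)]; ring

lemma sum_np (M n : ℕ) (hM : M < p) (x : ZMod p) :
    ∑ k ∈ range p, rf (-(M : ZMod p)) k * rf ((n : ZMod p)+1) k * ((k.factorial : ZMod p)⁻¹)^2 * x^k =
      ∑ k ∈ range (M+1), (M.choose k : ZMod p) * ((n+k).choose k : ZMod p) * (-x)^k := by
  rw [trunc_sum _ (M+1) p (by omega)]
  · apply sum_congr rfl
    intro k hk
    rw [mem_range] at hk
    rw [rf_neg_nat, rf_nat_succ, neg_pow x]
    have h1 := mul_inv_cancel₀ (fact_ne_zero p k (by omega))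
    have h3 : (k.factorial : ZMod p)^2 * ((k.factorial : ZMod p)⁻¹)^2 = 1 := by
      rw [← mul_pow, h1, one_pow]
    linear_combination ((-1)^k * (M.choose k : ZMod p) * ((n+k).choose k : ZMod p) * x^k) * h3
  · intro k hk
    rw [rf_vanish M k (by omega)]; ring

variable (n : ℕ)

lemma hne (h5 : 5 < p) (k : ℕ) (hk : ∀ q : ℕ, q.Prime → q ∣ k → q ≤ 5) : (k : ZMod p) ≠ 0 := by
  intro hc
  rw [ZMod.natCast_eq_zero_iff] at hc
  have := hk p hp.out hc
  omega

/-- the vanishing sum -/
lemma vanish (h5 : 5 < p) (hpn : p = 6*n+5) {y : ZMod p} (hy : Red p (3/128) y) :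
    ∑ k ∈ range (3*n+2+1), ((3*n+2).choose k : ZMod p) * (n.choose k : ZMod p) * y^k = 0 := by
  have h2ne : (2 : ZMod p) ≠ 0 := by
    have := ne_zero_of_lt p 2 (by norm_num) (by omega); push_cast at this; exact this
  have h3ne : (3 : ZMod p) ≠ 0 := by
    have := ne_zero_of_lt p 3 (by norm_num) (by omega); push_cast at this; exact this
  have h6ne : (6 : ZMod p) ≠ 0 := by
    have := ne_zero_of_lt p 6 (by norm_num) (by omega); push_cast at this; exact this
  have h5ne : (5 : ZMod p) ≠ 0 := by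
    have := ne_zero_of_lt p 5 (by norm_num) (by omega); push_cast at this; exact this
  have hpn0 : (6:ZMod p)*n+5 = 0 := by
    have : ((6*n+5 : ℕ) : ZMod p) = 0 := by rw [← hpn]; simp
    push_cast at this; exact this
  have h1 := T1'' n (3*p) (by omega)
  have h2 := T2'' n (3*p) (by omega)
  have hw : (5/6 + (n:ℚ)) = p * (1/6) := by rw [hpn]; push_cast; ring
  rw [PS_stable _ _ _ _ p (3*p) (fun k hk => hc_vanish_b _ _ _ n _ (by ring) (by omega)) (by omega),
    PS_stable (2/3 - 2*(5/6+(n:ℚ))) _ _ _ p (3*p)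
      (fun k hk => hc_vanish_a _ _ _ (2*n+1) _ (by push_cast; ring) (by omega)) (by omega)] at h1
  rw [PS_stable (2/3 - 2*(5/6+(n:ℚ))) _ _ _ p (3*p)
      (fun k hk => hc_vanish_a _ _ _ (2*n+1) _ (by push_cast; ring) (by omega)) (by omega)] at h2
  rw [hw, PS_eq_PD, PS_eq_PD] at h1
  rw [hw, PS_eq_PD] at h2
  have rp := red_p p
  have r6 : Red p (1/6) ((6:ZMod p)⁻¹) := by
    have := (Red.one (m := p)).div (Red.nat 6) (by push_cast; exact h6ne.isUnit)
    push_cast at this; rw [one_mul] at this; exact this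
  have r2 : Red p (1/2) (-((3*n+2 : ℕ) : ZMod p)) := by
    have := (Red.one (m := p)).div (Red.nat 2) (by push_cast; exact h2ne.isUnit)
    push_cast at this; rw [one_mul] at this
    have e : (2:ZMod p)⁻¹ = -((3*n+2 : ℕ) : ZMod p) := by
      apply inv_eq_of_mul_eq_one_left
      push_cast; linear_combination (-1:ZMod p) * hpn0
    rw [e] at this; exact this
  have r56 : Red p (5/6) (-((n : ℕ) : ZMod p)) := by
    have := (Red.nat (m := p) 5).div (Red.nat 6) (by push_cast; exact h6ne.isUnit)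
    push_cast at this
    have e : (5:ZMod p) * (6:ZMod p)⁻¹ = -((n : ℕ) : ZMod p) := by
      apply mul_left_cancel₀ h6ne
      have := mul_inv_cancel₀ h6ne
      linear_combination 5 * this + hpn0
    rw [e] at this; exact this
  obtain ⟨t, r23⟩ : ∃ t : ZMod p, Red p (2/3) t :=
    ⟨_, (Red.nat (m := p) 2).div (Red.nat 3) (by push_cast; exact h3ne.isUnit)⟩
  obtain ⟨u, r9⟩ : ∃ u : ZMod p, Red p (1/9) u :=
    ⟨_, (Red.nat (m := p) 1).div (Red.nat 9) (by
      have : ((9:ℕ) : ZMod p) = 3*3 := by norm_num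
      rw [this]; exact (mul_ne_zero h3ne h3ne).isUnit)⟩
  have r3 : Red p (1/3) ((3:ZMod p)⁻¹) := by
    have := (Red.one (m := p)).div (Red.nat 3) (by push_cast; exact h3ne.isUnit)
    push_cast at this; rw [one_mul] at this; exact this
  have A1 := red_PD p (a := 1/2 - p*(1/6)) (b := 5/6 - p*(1/6)) (c := 1 - 2*(p*(1/6))) (d := 1)
    (red_sub_p p r2 r6) (red_sub_p p r56 r6)
    (by rw [show (1:ℚ) - 2*(p*(1/6)) = 1 - p*(1/3) by ring]; exact red_sub_p p Red.one r3)
    Red.one hy
  have A2 := red_PD p (a := 2/3 - 2*(p*(1/6))) (b := 2/3 - p*(1/6)) (c := 1 - 3*(p*(1/6))) (d := 1)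
    (by rw [show (2/3:ℚ) - 2*(p*(1/6)) = 2/3 - p*(1/3) by ring]; exact red_sub_p p r23 r3)
    (red_sub_p p r23 r6)
    (by rw [show (1:ℚ) - 3*(p*(1/6)) = 1 - p*(1/2) by ring]; exact red_sub_p p Red.one r2)
    Red.one r9
  have A3 := red_PD p (a := 2/3 - 2*(p*(1/6))) (b := 2/3 + p*(1/6)) (c := 1 - p*(1/6)) (d := 1)
    (by rw [show (2/3:ℚ) - 2*(p*(1/6)) = 2/3 - p*(1/3) by ring]; exact red_sub_p p r23 r3)
    (red_add_p p r23 r6) (red_sub_p p Red.one r6)
    Red.one r9
  rw [h2] at A3
  have e3 := Red.unique A3 Red.zero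
  rw [e3] at A2
  rw [sum_nn p (3*n+2) n (by omega)] at A1
  obtain ⟨v, hv⟩ : ∃ v : ZMod p, Red p (81/80 * (2187/2048)^n) v := by
    have u80 : IsUnit ((80:ℕ) : ZMod p) := by
      have : ((80:ℕ) : ZMod p) = 2*2*2*2*5 := by norm_num
      rw [this]
      exact (mul_ne_zero (mul_ne_zero (mul_ne_zero (mul_ne_zero h2ne h2ne) h2ne) h2ne) h5ne).isUnit
    have u2048 : IsUnit ((2048:ℕ) : ZMod p) := by
      have : ((2048:ℕ) : ZMod p) = 2^11 := by norm_num
      rw [this]
      exact (pow_ne_zero _ h2ne).isUnit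
    have := ((Red.nat (m := p) 81).div (Red.nat 80) u80).mul
      (((Red.nat (m := p) 2187).div (Red.nat 2048) u2048).pow n)
    push_cast at this
    exact ⟨_, this⟩
  rw [h1] at A1
  have A4 := hv.mul A2
  rw [mul_zero] at A4
  exact Red.unique A1 A4

/-- Second case: the sum vanishes modulo `p`. -/
theorem case2 (h5 : 5 < p) (hpn : p = 6*n+5) :
    Red p (PD (1/2) (1/6) 1 1 (-3/125) p) 0 := by
  have h2ne : (2 : ZMod p) ≠ 0 := by
    have := ne_zero_of_lt p 2 (by norm_num) (by omega); push_cast at this; exact this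
  have h6ne : (6 : ZMod p) ≠ 0 := by
    have := ne_zero_of_lt p 6 (by norm_num) (by omega); push_cast at this; exact this
  have h5ne : (5 : ZMod p) ≠ 0 := by
    have := ne_zero_of_lt p 5 (by norm_num) (by omega); push_cast at this; exact this
  have hpn0 : (6:ZMod p)*n+5 = 0 := by
    have : ((6*n+5 : ℕ) : ZMod p) = 0 := by rw [← hpn]; simp
    push_cast at this; exact this
  have r16 : Red p (1/6) ((n : ZMod p) + 1) := by
    have := (Red.one (m := p)).div (Red.nat 6) (by push_cast; exact h6ne.isUnit)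
    push_cast at this; rw [one_mul] at this
    have e : (6:ZMod p)⁻¹ = (n : ZMod p) + 1 := by
      apply inv_eq_of_mul_eq_one_left
      linear_combination hpn0
    rw [e] at this; exact this
  have r2 : Red p (1/2) (-((3*n+2 : ℕ) : ZMod p)) := by
    have := (Red.one (m := p)).div (Red.nat 2) (by push_cast; exact h2ne.isUnit)
    push_cast at this; rw [one_mul] at this
    have e : (2:ZMod p)⁻¹ = -((3*n+2 : ℕ) : ZMod p) := by
      apply inv_eq_of_mul_eq_one_left
      push_cast; linear_combination (-1:ZMod p) * hpn0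
    rw [e] at this; exact this
  have n125 : (125 : ZMod p) ≠ 0 := by
    have : (125 : ZMod p) = 5^3 := by norm_num
    rw [this]; exact pow_ne_zero _ h5ne
  have n128 : (128 : ZMod p) ≠ 0 := by
    have : (128 : ZMod p) = 2^7 := by norm_num
    rw [this]; exact pow_ne_zero _ h2ne
  obtain ⟨z, rz, hz⟩ : ∃ z : ZMod p, Red p (-3/125) z ∧ 125 * z = -3 := by
    refine ⟨(-3) * (125 : ZMod p)⁻¹, ?_, ?_⟩
    · have := (Red.int (m := p) (-3)).div (Red.int 125) (by push_cast; exact n125.isUnit)
      push_cast at this; exact this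
    · have := mul_inv_cancel₀ n125
      linear_combination (-3) * this
  obtain ⟨y, ry, hy⟩ : ∃ y : ZMod p, Red p (3/128) y ∧ 128 * y = 3 := by
    refine ⟨3 * (128 : ZMod p)⁻¹, ?_, ?_⟩
    · have := (Red.int (m := p) 3).div (Red.int 128) (by push_cast; exact n128.isUnit)
      push_cast at this; exact this
    · have := mul_inv_cancel₀ n128
      linear_combination 3 * this
  have A := red_PD p r2 r16 Red.one Red.one rz
  rw [sum_np p (3*n+2) n (by omega), pfaff] at A
  have V := vanish p n h5 hpn ry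
  have e : ∑ j ∈ range (3*n+2+1), ((3*n+2).choose j : ZMod p) * (n.choose j : ZMod p) * (-z)^j * (1 + -z)^(3*n+2-j)
      = (1 + -z)^(3*n+2) * ∑ k ∈ range (3*n+2+1), ((3*n+2).choose k : ZMod p) * (n.choose k : ZMod p) * y^k := by
    rw [mul_sum]
    apply sum_congr rfl
    intro j hj
    rw [mem_range] at hj
    have e1 : (1 + -z)^(3*n+2) = (1 + -z)^j * (1 + -z)^(3*n+2-j) := by
      rw [← pow_add]; congr 1; omega
    have e2 : -z = (1 + -z) * y := by
      apply mul_left_cancel₀ n128
      apply mul_left_cancel₀ n125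
      linear_combination (-125 + (128*y-3)) * hz - 128 * hy
    have e3 : (-z)^j = (1 + -z)^j * y^j := by rw [← mul_pow, ← e2]
    rw [e1, e3]
    ring
  rw [e, V, mul_zero] at A
  exact A

end

end Pool.Agent.Helper4.Sun
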