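import Pool.Agent.Helper4.Sun.Jac
namespace Pool.Agent.Helper4.Sun
open Finset

set_option linter.unusedSectionVars false

section
def aa (c : ℕ → ℤ) (m : ℕ) : ℤ := ∑ k ∈ range m, (c (3*k) - c (3*k+2))
def bb (c : ℕ → ℤ) (m : ℕ) : ℤ := ∑ k ∈ range m, (c (3*k+1) - c (3*k+2))

lemma cubic_split {A : Type*} [CommRing A] (w : A) (hw : 1 + w + w^2 = 0) (c : ℕ → ℤ) (m : ℕ) :
    ∑ k ∈ range (3*m), (c k : A) * w^k = (aa c m : A) + (bb c m : A) * w := by
  have h3 : w^3 = 1 := by linear_combination (w-1)*hw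
  induction m with
  | zero => simp [aa, bb]
  | succ m ih =>
    rw [show 3*(m+1) = 3*m+1+1+1 by ring, sum_range_succ, sum_range_succ, sum_range_succ, ih]
    have e : w^(3*m) = 1 := by rw [pow_mul, h3, one_pow]
    have e1 : w^(3*m+1) = w := by rw [pow_succ, e, one_mul]
    have e2 : w^(3*m+1+1) = w^2 := by rw [pow_succ, e1]; ring
    rw [e, e1, e2]
    unfold aa bb
    rw [sum_range_succ, sum_range_succ, show 3*m+1+1 = 3*m+2 from rfl]
    push_cast
    linear_combination (c (3*m+2) : A) * hw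

lemma bb_even (c : ℕ → ℤ) (m : ℕ) (h : ∀ k < m, c (3*k+1) % 2 = 1 ∧ c (3*k+2) % 2 = 1) :
    2 ∣ bb c m := by
  unfold bb
  apply dvd_sum
  intro k hk
  obtain ⟨h1, h2⟩ := h k (mem_range.1 hk)
  omega

end

section
variable (p : ℕ) [hp : Fact p.Prime] (n : ℕ)

def cc (g : (ZMod p)ˣ) (k : ℕ) : ℤ := quadraticChar (ZMod p) (1 - (g : ZMod p)^k)

lemma char_sum {A : Type*} [CommRing A] [IsDomain A] (g : (ZMod p)ˣ) (hg : ∀ x, x ∈ Subgroup.zpowers g)
    (hpn : p = 6*n+1) (ψ : MulChar (ZMod p) A) (hw : 1 + ψ (g : ZMod p) + (ψ (g : ZMod p))^2 = 0) :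
    jacobiSum ψ ((quadraticChar (ZMod p)).ringHomComp (Int.castRingHom A)) =
      (aa (cc p g) (2*n) : A) + (bb (cc p g) (2*n) : A) * ψ (g : ZMod p) := by
  rw [← cubic_split _ hw]
  unfold jacobiSum
  rw [sum_gen p g hg]
  rw [MulChar.map_zero, zero_mul, zero_add]
  have hp1 : p - 1 = 3*(2*n) := by omega
  rw [hp1]
  apply sum_congr rfl
  intro k _
  rw [map_pow, MulChar.ringHomComp_apply]
  unfold cc
  simp
  ring

lemma norm_eq (g : (ZMod p)ˣ) (hg : ∀ x, x ∈ Subgroup.zpowers g) (h5 : 5 < p)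
    (hpn : p = 6*n+1) :
    (aa (cc p g) (2*n))^2 - aa (cc p g) (2*n) * bb (cc p g) (2*n) + (bb (cc p g) (2*n))^2 = p := by
  have hcard : Fintype.card (ZMod p) = p := ZMod.card p
  obtain ⟨ψ, hψ⟩ := MulChar.exists_mulChar_orderOf (ZMod p) (n := 3) (R := ℂ)
    (by rw [hcard, show p - 1 = 6*n by omega]; exact ⟨2*n, by ring⟩)
    (Complex.isPrimitiveRoot_exp 3 (by norm_num))
  have hψ3 : ψ^3 = 1 := by rw [← hψ]; exact pow_orderOf_eq_one ψ
  have hψ1 : ψ ≠ 1 := by
    rintro rfl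
    rw [orderOf_one] at hψ
    omega
  have hg3 : (ψ (g : ZMod p))^3 = 1 := by
    have := congrArg (fun f : MulChar (ZMod p) ℂ => f (g : ZMod p)) hψ3
    simp only [MulChar.pow_apply_coe, MulChar.one_apply_coe] at this
    exact this
  have hg1 : ψ (g : ZMod p) ≠ 1 := by
    intro h
    apply hψ1
    ext a
    obtain ⟨k, hk⟩ := mem_powers_iff_mem_zpowers.2 (hg a)
    have hk' : (a : ZMod p) = (g : ZMod p)^k := by
      have h2 := congrArg Units.val hk
      simpa using h2.symm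
    rw [hk', map_pow, h, one_pow, ← hk', MulChar.one_apply_coe]
  have hw : 1 + ψ (g : ZMod p) + (ψ (g : ZMod p))^2 = 0 := by
    have : (ψ (g : ZMod p) - 1) * (1 + ψ (g : ZMod p) + (ψ (g : ZMod p))^2) = 0 := by
      linear_combination hg3
    rcases mul_eq_zero.1 this with h | h
    · exact absurd (sub_eq_zero.1 h) hg1
    · exact h
  have hchar : ringChar (ZMod p) ≠ 2 := by
    rw [ZMod.ringChar_zmod_n]; omega
  set χ := (quadraticChar (ZMod p)).ringHomComp (Int.castRingHom ℂ) with hχ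
  have hχ1 : χ ≠ 1 := by
    rw [hχ, MulChar.ringHomComp_ne_one_iff (Int.cast_injective)]
    exact quadraticChar_ne_one hchar
  have hχ2 : χ⁻¹ = χ := ((quadraticChar_isQuadratic (ZMod p)).comp _).inv
  have hψχ : ψ * χ ≠ 1 := by
    intro h
    have h1 : ψ = χ := by rw [← hχ2]; exact eq_inv_of_mul_eq_one_left h
    have h2 : ψ^2 = 1 := by rw [h1, pow_two]; nth_rw 1 [← hχ2]; exact inv_mul_cancel χ
    apply hψ1
    have : ψ^3 = ψ^2 * ψ := by rw [pow_succ]
    rw [hψ3, h2, one_mul] at this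
    exact this.symm
  have key := jacobiSum_mul_jacobiSum_inv (F := ZMod p) (F' := ℂ)
    (by rw [ZMod.ringChar_zmod_n, ringChar.eq_zero]; omega) hψ1 hχ1 hψχ
  have e1 := char_sum p n g hg hpn ψ hw
  have hinv : ψ⁻¹ (g : ZMod p) = (ψ (g : ZMod p))^2 := by
    rw [MulChar.inv_apply_eq_inv']
    apply inv_eq_of_mul_eq_one_left
    linear_combination hg3
  have e2 := char_sum p n g hg hpn ψ⁻¹ (by rw [hinv]; linear_combination (ψ (g : ZMod p)) * hg3 + hw)
  rw [hχ2, hχ, e1, e2, hinv, hcard] at key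
  have : (((aa (cc p g) (2*n))^2 - aa (cc p g) (2*n) * bb (cc p g) (2*n) + (bb (cc p g) (2*n))^2 : ℤ) : ℂ)
      = ((p : ℤ) : ℂ) := by
    push_cast
    rw [← key]
    linear_combination (-(aa (cc p g) (2*n) : ℂ) * (bb (cc p g) (2*n) : ℂ)) * hw -
      ((bb (cc p g) (2*n) : ℂ))^2 * hg3
  exact_mod_cast this

lemma cc_odd (g : (ZMod p)ˣ) (hg : ∀ x, x ∈ Subgroup.zpowers g) (k : ℕ) (h0 : 0 < k)
    (h : k < p - 1) : cc p g k % 2 = 1 := by
  have ho : orderOf g = p - 1 := by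
    rw [orderOf_eq_card_of_forall_mem_zpowers hg, Nat.card_eq_fintype_card, ZMod.card_units]
  have hne : (1 - (g : ZMod p)^k) ≠ 0 := by
    intro hc
    have h1 : (g : ZMod p)^k = 1 := (sub_eq_zero.1 hc).symm
    have h2 : g^k = 1 := by apply Units.ext; simpa using h1
    have h3 := orderOf_dvd_of_pow_eq_one h2
    rw [ho] at h3
    have := Nat.le_of_dvd h0 h3
    omega
  unfold cc
  rcases quadraticChar_dichotomy hne with h | h <;> rw [h] <;> norm_num

lemma TT_3n (h5 : 5 < p) (hpn : p = 6*n+1) (s : ZMod p) :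
    (TT p s)^(3*n) = (quadraticChar (ZMod p) s : ZMod (p^2)) := by
  have hn : 0 < n := by omega
  have hchar : ringChar (ZMod p) ≠ 2 := by
    rw [ZMod.ringChar_zmod_n]; omega
  have hp1 : p - 1 = 6*n := by omega
  by_cases hs : s = 0
  · rw [hs, TT_zero, zero_pow (by omega), quadraticChar_zero]; simp
  · have h1 : ((TT p s)^(3*n))^2 = 1 := by
      rw [← pow_mul, show 3*n*2 = p - 1 by omega, TT_fermat p s hs]
    have h2 : pii p ((TT p s)^(3*n)) = (quadraticChar (ZMod p) s : ZMod p) := by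
      rw [map_pow, pii_TT, quadraticChar_eq_pow_of_char_ne_two' hchar, ZMod.card]
      congr 1; omega
    have h3 : (1 : ZMod p) ≠ -1 := by
      intro h
      have h4 : ((2:ℕ) : ZMod p) = 0 := by push_cast; linear_combination h
      rw [ZMod.natCast_eq_zero_iff] at h4
      have := Nat.le_of_dvd (by norm_num) h4
      omega
    rcases sq_one p h5 _ h1 with h | h
    · rcases quadraticChar_dichotomy hs with h' | h'
      · rw [h, h', Int.cast_one]
      · rw [h, h', map_one] at h2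
        push_cast at h2
        exact absurd h2 h3
    · rcases quadraticChar_dichotomy hs with h' | h'
      · rw [h, h', map_neg, map_one] at h2
        push_cast at h2
        exact absurd h2.symm h3
      · rw [h, h']; push_cast; rfl

lemma JJ_split (g : (ZMod p)ˣ) (hg : ∀ x, x ∈ Subgroup.zpowers g) (h5 : 5 < p)
    (hpn : p = 6*n+1) : ∃ w : ZMod (p^2), 1 + w + w^2 = 0 ∧
    JJ p n = (aa (cc p g) (2*n) : ZMod (p^2)) + (bb (cc p g) (2*n) : ZMod (p^2)) * w := by
  have hn : 0 < n := by omega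
  have hp1 : p - 1 = 6*n := by omega
  have ho : orderOf g = p - 1 := by
    rw [orderOf_eq_card_of_forall_mem_zpowers hg, Nat.card_eq_fintype_card, ZMod.card_units]
  have hw3 : ((TT p g)^(4*n))^3 = 1 := by
    rw [← pow_mul, show 4*n*3 = (p-1)*2 by omega, pow_mul, TT_fermat p _ g.ne_zero, one_pow]
  have hu : IsUnit ((TT p g)^(4*n) - 1) := by
    apply isUnit_of_pii
    rw [map_sub, map_pow, pii_TT, map_one]
    intro hc
    have h1 : (g : ZMod p)^(4*n) = 1 := sub_eq_zero.1 hc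
    have h2 : g^(4*n) = 1 := by apply Units.ext; simpa using h1
    have h3 := orderOf_dvd_of_pow_eq_one h2
    rw [ho] at h3
    have := Nat.le_of_dvd (by omega) h3
    omega
  have hw : 1 + (TT p g)^(4*n) + ((TT p g)^(4*n))^2 = 0 := by
    apply hu.mul_left_cancel
    linear_combination hw3
  refine ⟨(TT p g)^(4*n), hw, ?_⟩
  rw [← cubic_split _ hw]
  have h1 : JJ p n = ∑ t : ZMod p, (TT p t)^(4*n) * (TT p (1-t))^(3*n) := by
    unfold JJ
    apply Fintype.sum_equiv (Equiv.subLeft (1 : ZMod p))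
    intro t
    simp only [Equiv.subLeft_apply, sub_sub_cancel]
    ring
  rw [h1, sum_gen p g hg, TT_zero, zero_pow (by omega), zero_mul, zero_add, hp1,
    show 3*(2*n) = 6*n by ring]
  apply sum_congr rfl
  intro k _
  rw [TT_3n p n h5 hpn, TT_pow]
  unfold cc
  rw [← pow_mul, ← pow_mul, mul_comm k]
  ring

/-- The Jacobi sum, its norm and trace. -/
theorem JJ_rep (h5 : 5 < p) (hpn : p = 6*n+1) : ∃ A B : ℤ, (p : ℤ) = A^2 + 3*B^2 ∧
    ∃ J' : ZMod (p^2), JJ p n + J' = 2 * (A : ZMod (p^2)) ∧ JJ p n * J' = (p : ZMod (p^2)) := by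
  obtain ⟨g, hg⟩ := exists_gen p
  obtain ⟨w, hw, hJ⟩ := JJ_split p n g hg h5 hpn
  have hN := norm_eq p n g hg h5 hpn
  obtain ⟨B, hB⟩ := bb_even (cc p g) (2*n) (fun k hk =>
    ⟨cc_odd p g hg _ (by omega) (by omega), cc_odd p g hg _ (by omega) (by omega)⟩)
  rw [hB] at hN hJ
  refine ⟨aa (cc p g) (2*n) - B, B, by rw [← hN]; ring,
    (aa (cc p g) (2*n) : ZMod (p^2)) + ((2*B : ℤ) : ZMod (p^2)) * w^2, ?_, ?_⟩
  · rw [hJ]; push_cast
    linear_combination (2 * (B : ZMod (p^2))) * hw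
  · have h2 := congrArg (Int.cast : ℤ → ZMod (p^2)) hN
    rw [hJ]; push_cast at h2 ⊢
    rw [← h2]
    have hw3 : w^3 = 1 := by linear_combination (w-1)*hw
    linear_combination ((aa (cc p g) (2*n) : ZMod (p^2)) * (2 * (B : ZMod (p^2)))) * hw +
      (2 * (B : ZMod (p^2)))^2 * hw3

end

end Pool.Agent.Helper4.Sun
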