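import Pool.Agent.Helper4.Sun.Bin
import Pool.Agent.Helper4.Sun.Norm
import Pool.Agent.Helper4.Sun.Case2
namespace Pool.Agent.Helper4.Sun
open Finset

set_option linter.unusedSectionVars false

lemma Red.den {p : ℕ} (hp : p.Prime) (e : ℕ) (he : e ≠ 0) {x : ℚ} {r : ZMod (p^e)}
    (h : Red (p^e) x r) : ¬ p ∣ x.den := by
  obtain ⟨a, b, h0, hb, h1, h2⟩ := h
  have hpb : ¬ ((p:ℤ) ∣ b) := by
    intro hdvd
    have hcop : IsCoprime b ((p^e : ℕ) : ℤ) := by
      rw [ZMod.coe_int_isUnit_iff_isCoprime] at hb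
      exact hb.symm
    have : IsUnit (p:ℤ) := by
      apply hcop.isUnit_of_dvd' hdvd
      push_cast
      exact dvd_pow_self _ he
    rw [Int.isUnit_iff] at this
    have := hp.two_le
    omega
  intro hd
  apply hpb
  have hb0 : (b:ℚ) ≠ 0 := by exact_mod_cast h0
  have hx : x = (a:ℚ)/(b:ℚ) := by rw [eq_div_iff hb0, h1]
  have h3 : (x.den : ℤ) ∣ b := by
    rw [hx, ← Rat.divInt_eq_div]; exact Rat.den_dvd a b
  exact dvd_trans (by exact_mod_cast hd) h3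

lemma unique_rep (p : ℕ) (hp : p.Prime) (A B A' B' : ℤ) (h : (p:ℤ) = A^2 + 3*B^2)
    (h' : (p:ℤ) = A'^2 + 3*B'^2) : A' = A ∨ A' = -A := by
  have hpos : (0:ℤ) < p := by exact_mod_cast hp.pos
  have hprime : Prime (p:ℤ) := Nat.prime_iff_prime_int.1 hp
  have e1 : (A*B' - A'*B) * (A*B' + A'*B) = p * (B'^2 - B^2) := by
    linear_combination (-B'^2) * h + B^2 * h'
  have key : ∀ D E : ℤ, (p:ℤ)^2 = E^2 + 3*D^2 → (p:ℤ) ∣ D → D = 0 := by
    intro D E hDE hd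
    obtain ⟨c, rfl⟩ := hd
    by_contra hne
    have hc : c ≠ 0 := by rintro rfl; simp at hne
    have hc1 : 1 ≤ c^2 := by
      have := sq_pos_of_ne_zero hc
      omega
    nlinarith [sq_nonneg E, mul_pos hpos hpos]
  have fin : (A*B' - A'*B) * (A*B' + A'*B) = 0 → A' = A ∨ A' = -A := by
    intro h0
    rw [e1] at h0
    have h1 : B'^2 - B^2 = 0 := by
      rcases mul_eq_zero.1 h0 with h2 | h2
      · omega
      · exact h2
    have h2 : A'^2 = A^2 := by linarith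
    exact sq_eq_sq_iff_eq_or_eq_neg.1 h2
  have hdvd : (p:ℤ) ∣ (A*B' - A'*B) * (A*B' + A'*B) := by rw [e1]; exact dvd_mul_right _ _
  rcases hprime.dvd_or_dvd hdvd with hd | hd
  · apply fin
    rw [key _ (A*A' + 3*(B*B')) (by
      linear_combination (p:ℤ) * h + (A^2 + 3*B^2) * h') hd, zero_mul]
  · apply fin
    rw [key _ (A*A' - 3*(B*B')) (by
      linear_combination (p:ℤ) * h + (A^2 + 3*B^2) * h') hd, mul_zero]

theorem case1 (p : ℕ) [hp : Fact p.Prime] (n : ℕ) (h5 : 5 < p) (hpn : p = 6*n+1) :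
    ∃ A B : ℤ, (p : ℤ) = A^2 + 3*B^2 ∧ ∃ r s : ZMod (p^2),
      Red (p^2) (PD (1/2) (1/6) 1 1 (-3/125) p) s ∧
      Red (p^2) (2*(A:ℚ) - p/(2*(A:ℚ))) r ∧ (s = r ∨ s = -r) := by
  have u125 : IsUnit (((125 : ℤ)) : ZMod (p^2)) := by
    have := unit_smooth p h5 0 0 3; norm_num at this ⊢; exact this
  obtain ⟨z, hz, -⟩ := Red.ofdiv p (-3) 125 u125
  push_cast at hz
  obtain ⟨uJ, hS⟩ := main2 p n h5 hpn hz
  obtain ⟨A, B, hAB, J', h1, h2⟩ := JJ_rep p n h5 hpn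
  have hJ' : J' = (p : ZMod (p^2)) * (JJ p n)⁻¹ := by
    apply uJ.mul_left_cancel
    rw [h2]
    have := ZMod.mul_inv_of_unit _ uJ
    linear_combination (-(p : ZMod (p^2))) * this
  have u2A : IsUnit ((2*A : ℤ) : ZMod (p^2)) := by
    push_cast
    rw [← h1, hJ']
    exact unit_add_P p _ _ uJ
  have hJ2 : J' = (p : ZMod (p^2)) * (((2*A : ℤ) : ZMod (p^2)))⁻¹ := by
    apply u2A.mul_left_cancel
    have h3 := ZMod.mul_inv_of_unit _ u2A
    have h4 : ((2*A : ℤ) : ZMod (p^2)) * J' = (p : ZMod (p^2)) := by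
      push_cast
      rw [← h1]
      linear_combination h2 + (J' + (p : ZMod (p^2)) * (JJ p n)⁻¹) * hJ' + ((JJ p n)⁻¹)^2 * P2 p
    rw [h4]
    linear_combination (-(p : ZMod (p^2))) * h3
  have r1 := (Red.int (m := p^2) (2*A)).sub ((Red.nat (m := p^2) p).div (Red.int (2*A)) u2A)
  have e1 : ((2*A : ℤ) : ZMod (p^2)) - (p : ZMod (p^2)) * (((2*A : ℤ) : ZMod (p^2)))⁻¹ = JJ p n := by
    rw [← hJ2]; push_cast; linear_combination -h1
  rw [e1] at r1
  push_cast at r1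
  have r2 := z_sum p h5 hz 0 0 0 (by norm_num) (a := 1/2) (b := 1/6) (c := 1) (d := 1)
    (by push_cast; ring) (by push_cast; ring) (by push_cast; ring) (by push_cast; ring)
  have e2 : S0 p z + c12 p 0 * G0 p z = S0 p z := by unfold c12; push_cast; ring
  rw [e2] at r2
  exact ⟨A, B, hAB, _, _, r2, r1, hS⟩

end Pool.Agent.Helper4.Sun
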