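import Pool.Agent.Helper4.Sun.Red
namespace Pool.Agent.Helper4.Sun
open Finset

set_option linter.unusedSectionVars false

section
variable {R : Type*} [CommRing R]

/-- formal derivative of the rising factorial -/
def dr (x : R) : ℕ → R
  | 0 => 0
  | (k+1) => dr x k * (x + k) + rf x k

lemma rf_add_P (P x y : R) (hP : P^2 = 0) (k : ℕ) :
    rf (x + P*y) k = rf x k + P*y*dr x k := by
  induction k with
  | zero => simp [dr]
  | succ k ih =>
    rw [rf_succ, rf_succ, ih, dr]
    linear_combination (y^2 * dr x k) * hP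

/-- reversal -/
lemma rf_reverse (x : R) (k : ℕ) : rf x k = (-1)^k * rf (1 - x - k) k := by
  have key : ∀ x : R, rf x k = ∏ i ∈ range k, (x + ((k - 1 - i : ℕ) : R)) := by
    intro x
    unfold rf
    exact (prod_range_reflect (fun i => x + (i:R)) k).symm
  rw [key x]
  unfold rf
  have h1 : ((-1:R))^k = ∏ i ∈ range k, (-1:R) := by simp
  rw [h1, ← prod_mul_distrib]
  apply prod_congr rfl
  intro i hi
  rw [mem_range] at hi
  have : ((k - 1 - i : ℕ) : R) = k - 1 - i := by
    rw [Nat.sub_sub, Nat.cast_sub (by omega)]; push_cast; ring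
  rw [this]
  ring

end

section
variable (p : ℕ) [hp : Fact p.Prime]

instance fact_sq : Fact (1 < p^2) := ⟨by
  have := hp.out.two_le
  nlinarith⟩

lemma P2 : (p : ZMod (p^2))^2 = 0 := by
  have := ZMod.natCast_self (p^2)
  push_cast at this
  exact this

lemma isUnit_lt (k : ℕ) (h0 : 0 < k) (h : k < p) : IsUnit (k : ZMod (p^2)) := by
  rw [ZMod.isUnit_iff_coprime]
  apply Nat.Coprime.pow_right
  exact (Nat.coprime_of_lt_prime (by omega) h hp.out).symm

/-- `p` times the harmonic number -/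
def ha (k : ℕ) : ZMod (p^2) := (p : ZMod (p^2)) * ∑ j ∈ range k, (((j+1 : ℕ) : ZMod (p^2)))⁻¹

/-- factorial in `ZMod (p^2)` -/
def fa (k : ℕ) : ZMod (p^2) := ((k.factorial : ℕ) : ZMod (p^2))

lemma fa_zero : fa p 0 = 1 := by simp [fa]

lemma fa_succ (k : ℕ) : fa p (k+1) = (k+1) * fa p k := by
  simp [fa, Nat.factorial_succ]

lemma ha_zero : ha p 0 = 0 := by simp [ha]

lemma ha_succ (k : ℕ) : ha p (k+1) = ha p k + p * (((k+1 : ℕ) : ZMod (p^2)))⁻¹ := by
  simp [ha, sum_range_succ, mul_add]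

lemma ha_mul (k l : ℕ) : ha p k * ha p l = 0 := by
  unfold ha
  have := P2 p
  linear_combination ((∑ j ∈ range k, (((j+1 : ℕ) : ZMod (p^2)))⁻¹) *
    ∑ j ∈ range l, (((j+1 : ℕ) : ZMod (p^2)))⁻¹) * this

lemma P_ha (k : ℕ) : (p : ZMod (p^2)) * ha p k = 0 := by
  unfold ha
  have := P2 p
  linear_combination ((∑ j ∈ range k, (((j+1 : ℕ) : ZMod (p^2)))⁻¹)) * this

lemma isUnit_fa (k : ℕ) (h : k < p) : IsUnit (fa p k) := by
  induction k with
  | zero => simp [fa]
  | succ k ih =>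
    rw [fa_succ]
    have := (isUnit_lt p (k+1) (by omega) h).mul (ih (by omega))
    push_cast at this
    exact this

/-- (L) -/
lemma rf_one_P (y : ZMod (p^2)) (k : ℕ) (h : k < p) :
    rf (1 + (p:ZMod (p^2)) * y) k = fa p k * (1 + y * ha p k) := by
  induction k with
  | zero => simp [ha_zero, fa_zero]
  | succ k ih =>
    rw [rf_succ, ih (by omega), ha_succ, fa_succ]
    have hu := isUnit_lt p (k+1) (by omega) h
    have e := ZMod.mul_inv_of_unit _ hu
    have e2 := P_ha p k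
    have e3 := P2 p
    push_cast at e ⊢
    linear_combination (-(fa p k) * y * p) * e + (fa p k) * y^2 * e2

/-- (L2) -/
lemma rf_mid_P (y : ZMod (p^2)) (a b : ℕ) (h : a + b < p) :
    rf (1 + (a:ZMod (p^2)) + (p:ZMod (p^2)) * y) b * fa p a =
      fa p (a+b) * (1 + y * (ha p (a+b) - ha p a)) := by
  have h1 := rf_one_P p y (a+b) h
  have h2 := rf_one_P p y a (by omega)
  rw [rf_add, h2] at h1
  have e2 := ha_mul p a a
  have e3 := ha_mul p (a+b) a
  have e : rf (1 + (a:ZMod (p^2)) + (p:ZMod (p^2)) * y) b = rf (1 + (p:ZMod (p^2)) * y + a) b := by ring_nf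
  rw [e]
  linear_combination (1 - y * ha p a) * h1 +
    (rf (1 + (p:ZMod (p^2)) * y + a) b * fa p a) * y^2 * e2
    - fa p (a+b) * y^2 * e3

/-- (L3) -/
lemma rf_neg_P (y : ZMod (p^2)) (a b : ℕ) (h : a + b < p) :
    rf (-((a+b:ℕ):ZMod (p^2)) + (p:ZMod (p^2)) * y) b * fa p a =
      (-1)^b * (fa p (a+b) * (1 - y * (ha p (a+b) - ha p a))) := by
  have h1 := rf_mid_P p (-y) a b h
  rw [rf_reverse]
  have e : (1 - (-((a+b:ℕ):ZMod (p^2)) + (p:ZMod (p^2)) * y) - b) = 1 + a + p * (-y) := by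
    push_cast; ring
  rw [e]
  linear_combination (-1)^b * h1

/-- symmetry of harmonic numbers -/
lemma ha_symm (k l : ℕ) (h : k + l + 1 = p) (hodd : p % 2 = 1) : ha p k = ha p l := by
  have h1 := rf_mid_P p 0 l k (by omega)
  have h2 := rf_mid_P p 0 k l (by omega)
  have e1 := rf_neg_P p 1 0 k (by omega)
  have e2 := rf_neg_P p 1 0 l (by omega)
  have c1 : (1 + (l:ZMod (p^2)) + p * 0) = -((0+k:ℕ):ZMod (p^2)) + p * 1 := by
    have : ((k + l + 1 : ℕ) : ZMod (p^2)) = p := by rw [h]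
    push_cast at this ⊢
    linear_combination this
  have c2 : (1 + (k:ZMod (p^2)) + p * 0) = -((0+l:ℕ):ZMod (p^2)) + p * 1 := by
    have : ((k + l + 1 : ℕ) : ZMod (p^2)) = p := by rw [h]
    push_cast at this ⊢
    linear_combination this
  rw [c1] at h1
  rw [c2] at h2
  simp only [fa_zero, ha_zero, zero_add, mul_one, one_mul, sub_zero, zero_mul, add_zero] at e1 e2 h1 h2
  rw [e1] at h1
  rw [e2] at h2
  have hpar : ((-1:ZMod (p^2))^k) = (-1)^l := by
    have : k % 2 = l % 2 := by omega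
    rw [neg_one_pow_eq_pow_mod_two, this, ← neg_one_pow_eq_pow_mod_two]
  rw [hpar] at h1
  have hs : fa p (l+k) = fa p (k+l) := by rw [add_comm]
  have hu : IsUnit ((-1:ZMod (p^2))^l * fa p k * fa p l) := by
    have u1 := isUnit_fa p k (by omega)
    have u2 := isUnit_fa p l (by omega)
    have u3 : IsUnit ((-1:ZMod (p^2))^l) := (isUnit_one.neg).pow l
    exact (u3.mul u1).mul u2
  apply hu.mul_left_cancel
  rw [hs] at h1
  linear_combination h2 - h1

/-- The factorial relation `(p-1)! = (-1)^k k! l! (1 - h_k)`, `k + l = p - 1`. -/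
lemma fa_compl (k l : ℕ) (h : k + l + 1 = p) :
    fa p (k+l) = (-1)^k * fa p k * fa p l * (1 - ha p k) := by
  have h1 := rf_mid_P p 0 l k (by omega)
  have e1 := rf_neg_P p 1 0 k (by omega)
  have c1 : (1 + (l:ZMod (p^2)) + p * 0) = -((0+k:ℕ):ZMod (p^2)) + p * 1 := by
    have : ((k + l + 1 : ℕ) : ZMod (p^2)) = p := by rw [h]
    push_cast at this ⊢
    linear_combination this
  rw [c1] at h1
  simp only [fa_zero, ha_zero, zero_add, mul_one, one_mul, sub_zero, zero_mul, add_zero] at e1 h1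
  rw [e1, add_comm l k] at h1
  rw [← h1]
  ring

end

end Pool.Agent.Helper4.Sun
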