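import Pool.Agent.Helper4.Sun.Basic
namespace Pool.Agent.Helper4.Sun
open Finset

lemma rf_sub_one (x y : ℚ) (k : ℕ) (h : y = x - 1) : rf y (k+1) = y * rf x k := by
  subst h; rw [rf_succ']; ring_nf

/-- z-side contiguous relation, parameters (1/2-w, ν-w; 1-2w). -/
lemma z_term (w ν : ℚ) (hν : ν = 1/6 ∨ ν = 5/6) (hc0 : ∀ j : ℤ, (1 - 2*w + j) ≠ 0) (k : ℕ) :
    hc (1/2 - (w+1)) (ν - (w+1)) (1-2*(w+1)) (k+2) =
      hc (1/2-w) (ν - w) (1-2*w) (k+2) - 1/2 * hc (1/2-w) (ν-w) (1-2*w) (k+1)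
      - 1/16 * ((w-1/6)*(w-5/6)/(w*(w-1))) * hc (1/2-(w-1)) (ν-(w-1)) (1-2*(w-1)) k := by
  have hA1 : rf (1/2 - w) (k+1) = (1/2-w) * rf (1/2-(w-1)) k :=
    rf_sub_one _ _ _ (by ring)
  have hA2 : rf (1/2 - w) (k+2) = (1/2-w) * rf (1/2-(w-1)) k * (1/2 - w + (k+1)) := by
    rw [rf_succ, hA1]; push_cast; ring
  have hA3 : rf (1/2 - (w+1)) (k+2) = (1/2-(w+1))*((1/2-w) * rf (1/2-(w-1)) k) := by
    rw [rf_sub_one (1/2-w) _ _ (by ring), hA1]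
  have hB1 : rf (ν - w) (k+1) = (ν-w) * rf (ν-(w-1)) k :=
    rf_sub_one _ _ _ (by ring)
  have hB2 : rf (ν - w) (k+2) = (ν-w) * rf (ν-(w-1)) k * (ν - w + (k+1)) := by
    rw [rf_succ, hB1]; push_cast; ring
  have hB3 : rf (ν - (w+1)) (k+2) = (ν-(w+1))*((ν-w) * rf (ν-(w-1)) k) := by
    rw [rf_sub_one (ν-w) _ _ (by ring), hB1]
  have nn : ∀ j : ℤ, ∀ y : ℚ, y = 1 - 2*w + j → y ≠ 0 := by
    intro j y hy; rw [hy]; exact hc0 j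
  have n0 : (1 - 2*w + (k+1) : ℚ) ≠ 0 := nn (k+1) _ (by push_cast; ring)
  have n1 : (1 - 2*w + k : ℚ) ≠ 0 := nn k _ (by push_cast; ring)
  have n3 : (1 - 2*w : ℚ) ≠ 0 := nn 0 _ (by push_cast; ring)
  have n6 : (2-2*w : ℚ) ≠ 0 := nn 1 _ (by push_cast; ring)
  have hC2 : rf (1 - 2*w) (k+2) = (1-2*w)*((2-2*w) * rf (1-2*(w-1)) k) := by
    rw [rf_sub_one (2-2*w) _ _ (by ring), rf_sub_one (1-2*(w-1)) _ _ (by ring)]
  have hC1 : rf (1 - 2*w) (k+1) = (1-2*w)*((2-2*w) * rf (1-2*(w-1)) k) / (1-2*w+(k+1)) := by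
    rw [eq_div_iff n0, ← hC2, rf_succ (1-2*w) (k+1)]; push_cast; ring
  have hC0 : rf (1 - 2*w) k = (1-2*w)*((2-2*w) * rf (1-2*(w-1)) k) / (1-2*w+(k+1)) / (1-2*w+k) := by
    rw [eq_div_iff n1, ← hC1, rf_succ (1-2*w) k]
  have hC3 : rf (1-2*(w+1)) (k+2) = (1-2*(w+1))*((-2*w) *
      ((1-2*w)*((2-2*w) * rf (1-2*(w-1)) k) / (1-2*w+(k+1)) / (1-2*w+k))) := by
    rw [rf_sub_one (-2*w) _ _ (by ring), rf_sub_one (1-2*w) _ _ (by ring), hC0]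
  have nC : rf (1-2*(w-1)) k ≠ 0 := by
    apply rf_ne
    intro j
    exact nn (j+2) _ (by push_cast; ring)
  have nF : ((k.factorial : ℕ) : ℚ) ≠ 0 := by positivity
  have hF1 : (((k+1).factorial : ℕ) : ℚ) = (k+1) * (k.factorial : ℚ) := by
    rw [Nat.factorial_succ]; push_cast; ring
  have hF2 : (((k+2).factorial : ℕ) : ℚ) = (k+2) * ((k+1) * (k.factorial : ℚ)) := by
    rw [Nat.factorial_succ, Nat.factorial_succ]; push_cast; ring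
  have nk1 : (k + 1 : ℚ) ≠ 0 := by positivity
  have nk2 : (k + 2 : ℚ) ≠ 0 := by positivity
  have ne : w ≠ 0 := by
    intro h; exact nn (-1) 0 (by rw [h]; norm_num) rfl
  have ne2 : w - 1 ≠ 0 := by intro h; apply n6; linarith
  have n7 : (1 - 2*(w+1) : ℚ) ≠ 0 := nn (-2) _ (by push_cast; ring)
  have ne3 : 1 - w ≠ 0 := by intro h; apply n6; linarith
  unfold hc
  rw [hA1, hA2, hA3, hB1, hB2, hB3, hC3, hC2, hC1, hF1, hF2]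
  generalize rf (1/2-(w-1)) k = A
  generalize rf (ν-(w-1)) k = B
  generalize rf (1-2*(w-1)) k = C at *
  generalize ((k.factorial : ℕ) : ℚ) = F at *
  generalize (k:ℚ) = κ at *
  rcases hν with rfl | rfl
  · field_simp
    ring
  · field_simp
    ring

/-- φ1-side -/
lemma p1_term (w μ : ℚ) (hμ : μ = 1/3 ∨ μ = 2/3) (hc0 : ∀ j : ℤ, (1 - 3*w + j) ≠ 0)
    (he : w ≠ 0) (he2 : w - 1 ≠ 0) (k : ℕ) :
    hc (μ-2*(w+1)) (μ - (w+1)) (1-3*(w+1)) (k+4) =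
      hc (μ-2*w) (μ - w) (1-3*w) (k+4) - 2/3 * hc (μ-2*w) (μ - w) (1-3*w) (k+3)
      - 1/27 * hc (μ-2*w) (μ - w) (1-3*w) (k+2)
      - 16/729 * ((w-1/6)*(w-5/6)/(w*(w-1))) * hc (μ-2*(w-1)) (μ - (w-1)) (1-3*(w-1)) (k+1) := by
  -- numerators a
  have hA0 : rf (μ-2*(w-1)) (k+1) = rf (μ-2*(w-1)) k * (μ-2*(w-1)+k) := rf_succ _ _
  have hA2 : rf (μ-2*w) (k+2) = (μ-2*w)*((μ-(2*w-1)) * rf (μ-2*(w-1)) k) := by
    rw [rf_sub_one (μ-(2*w-1)) _ _ (by ring), rf_sub_one (μ-2*(w-1)) _ _ (by ring)]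
  have hA3 : rf (μ-2*w) (k+3) = (μ-2*w)*((μ-(2*w-1)) * rf (μ-2*(w-1)) k)*(μ-2*w+(k+2)) := by
    rw [rf_succ, hA2]; push_cast; ring
  have hA4 : rf (μ-2*w) (k+4) = (μ-2*w)*((μ-(2*w-1)) * rf (μ-2*(w-1)) k)*(μ-2*w+(k+2))*
      (μ-2*w+(k+3)) := by
    rw [rf_succ, hA3]; push_cast; ring
  have hA5 : rf (μ-2*(w+1)) (k+4) = (μ-2*(w+1))*((μ-(2*w+1))*((μ-2*w)*((μ-(2*w-1)) *
      rf (μ-2*(w-1)) k))) := by
    rw [rf_sub_one (μ-(2*w+1)) _ _ (by ring), rf_sub_one (μ-2*w) _ _ (by ring), hA2]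
  have hB0 : rf (μ-(w-1)) (k+1) = rf (μ-(w-1)) k * (μ-(w-1)+k) := rf_succ _ _
  have hB1 : rf (μ-(w-1)) (k+2) = rf (μ-(w-1)) k * (μ-(w-1)+k)* (μ-(w-1)+(k+1)) := by
    rw [rf_succ, hB0]; push_cast; ring
  have hB1' : rf (μ-(w-1)) (k+3) = rf (μ-(w-1)) k * (μ-(w-1)+k)* (μ-(w-1)+(k+1))
      * (μ-(w-1)+(k+2)) := by
    rw [rf_succ, hB1]; push_cast; ring
  have hB2 : rf (μ-w) (k+2) = (μ-w)*rf (μ-(w-1)) (k+1) := by
    rw [rf_sub_one (μ-(w-1)) _ _ (by ring)]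
  have hB3 : rf (μ-w) (k+3) = (μ-w)*rf (μ-(w-1)) (k+2) := by
    rw [rf_sub_one (μ-(w-1)) _ _ (by ring)]
  have hB4 : rf (μ-w) (k+4) = (μ-w)*rf (μ-(w-1)) (k+3) := by
    rw [rf_sub_one (μ-(w-1)) _ _ (by ring)]
  have hB5 : rf (μ-(w+1)) (k+4) = (μ-(w+1))*((μ-w)*rf (μ-(w-1)) (k+2)) := by
    rw [rf_sub_one (μ-w) _ _ (by ring), hB3]
  have nn : ∀ j : ℤ, ∀ y : ℚ, y = 1 - 3*w + j → y ≠ 0 := by
    intro j y hy; rw [hy]; exact hc0 j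
  have m3 : (1-3*w+(k+3) : ℚ) ≠ 0 := nn (k+3) _ (by push_cast; ring)
  have m2 : (1-3*w+(k+2) : ℚ) ≠ 0 := nn (k+2) _ (by push_cast; ring)
  have m1 : (1-3*w+(k+1) : ℚ) ≠ 0 := nn (k+1) _ (by push_cast; ring)
  have hC4 : rf (1-3*w) (k+4) = (1-3*w)*((2-3*w)*((3-3*w)*rf (1-3*(w-1)) (k+1))) := by
    rw [rf_sub_one (2-3*w) _ _ (by ring), rf_sub_one (3-3*w) _ _ (by ring),
      rf_sub_one (1-3*(w-1)) _ _ (by ring)]
  have hC3 : rf (1-3*w) (k+3) = (1-3*w)*((2-3*w)*((3-3*w)*rf (1-3*(w-1)) (k+1)))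
      / (1-3*w+(k+3)) := by
    rw [eq_div_iff m3, ← hC4, rf_succ _ (k+3)]; push_cast; ring
  have hC2 : rf (1-3*w) (k+2) = (1-3*w)*((2-3*w)*((3-3*w)*rf (1-3*(w-1)) (k+1)))
      / (1-3*w+(k+3)) / (1-3*w+(k+2)) := by
    rw [eq_div_iff m2, ← hC3, rf_succ _ (k+2)]; push_cast; ring
  have hC1 : rf (1-3*w) (k+1) = (1-3*w)*((2-3*w)*((3-3*w)*rf (1-3*(w-1)) (k+1)))
      / (1-3*w+(k+3)) / (1-3*w+(k+2)) / (1-3*w+(k+1)) := by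
    rw [eq_div_iff m1, ← hC2, rf_succ _ (k+1)]; push_cast; ring
  have hC5 : rf (1-3*(w+1)) (k+4) = (1-3*(w+1))*((2-3*(w+1))*((-3*w)*
      rf (1-3*w) (k+1))) := by
    rw [rf_sub_one (2-3*(w+1)) _ _ (by ring), rf_sub_one (-3*w) _ _ (by ring),
      rf_sub_one (1-3*w) _ _ (by ring)]
  have nC : rf (1-3*(w-1)) (k+1) ≠ 0 := by
    apply rf_ne
    intro j
    exact nn (j+3) _ (by push_cast; ring)
  have nF : ((k.factorial : ℕ) : ℚ) ≠ 0 := by positivity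
  have hF1 : (((k+1).factorial : ℕ) : ℚ) = (k+1) * (k.factorial : ℚ) := by
    rw [Nat.factorial_succ]; push_cast; ring
  have hF2 : (((k+2).factorial : ℕ) : ℚ) = (k+2) * ((k+1) * (k.factorial : ℚ)) := by
    rw [Nat.factorial_succ, Nat.factorial_succ]; push_cast; ring
  have hF3 : (((k+3).factorial : ℕ) : ℚ) = (k+3) *((k+2) * ((k+1) * (k.factorial : ℚ))) := by
    rw [Nat.factorial_succ, Nat.factorial_succ, Nat.factorial_succ]; push_cast; ring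
  have hF4 : (((k+4).factorial : ℕ) : ℚ) = (k+4)*((k+3) *((k+2) * ((k+1) * (k.factorial : ℚ)))) := by
    rw [Nat.factorial_succ, Nat.factorial_succ, Nat.factorial_succ, Nat.factorial_succ]
    push_cast; ring
  have nk1 : (k + 1 : ℚ) ≠ 0 := by positivity
  have nk2 : (k + 2 : ℚ) ≠ 0 := by positivity
  have nk3 : (k + 3 : ℚ) ≠ 0 := by positivity
  have nk4 : (k + 4 : ℚ) ≠ 0 := by positivity
  have l1 : (1-3*w : ℚ) ≠ 0 := nn 0 _ (by push_cast; ring)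
  have l2 : (2-3*w : ℚ) ≠ 0 := nn 1 _ (by push_cast; ring)
  have l3 : (3-3*w : ℚ) ≠ 0 := nn 2 _ (by push_cast; ring)
  have l4 : (1-3*(w+1) : ℚ) ≠ 0 := nn (-3) _ (by push_cast; ring)
  have l5 : (2-3*(w+1) : ℚ) ≠ 0 := nn (-2) _ (by push_cast; ring)
  have l7 : 1 - w ≠ 0 := by intro h; apply l3; linarith
  unfold hc
  rw [hA0, hA2, hA3, hA4, hA5, hB5, hB4, hB3, hB2, hB1', hB1, hB0, hC5, hC4, hC3, hC2, hC1, hF1, hF2,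
    hF3, hF4]
  generalize rf (μ-2*(w-1)) k = A
  generalize rf (μ-(w-1)) k = B
  generalize rf (1-3*(w-1)) (k+1) = C at *
  generalize ((k.factorial : ℕ) : ℚ) = F at *
  generalize (k:ℚ) = κ at *
  rcases hμ with rfl | rfl
  · field_simp
    ring
  · field_simp
    ring

/-- φ2-side -/
lemma p2_term (w μ : ℚ) (hμ : μ = 1/3 ∨ μ = 2/3) (hc0 : ∀ j : ℤ, (1 - w + j) ≠ 0) (k : ℕ) :
    hc (μ-2*(w+1)) (μ + (w+1)) (1-(w+1)) (k+4) =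
      hc (μ-2*w) (μ + w) (1-w) (k+4) + 18 * hc (μ-2*w) (μ + w) (1-w) (k+3)
      - 27 * hc (μ-2*w) (μ + w) (1-w) (k+2)
      - 16 * ((w-1/6)*(w-5/6)/(w*(w-1))) * hc (μ-2*(w-1)) (μ + (w-1)) (1-(w-1)) (k+3) := by
  have hA0 : rf (μ-2*(w-1)) (k+3) = rf (μ-2*(w-1)) k * (μ-2*(w-1)+k) * (μ-2*(w-1)+(k+1))
      * (μ-2*(w-1)+(k+2)) := by
    rw [rf_succ, rf_succ, rf_succ]; push_cast; ring
  have hA2 : rf (μ-2*w) (k+2) = (μ-2*w)*((μ-(2*w-1)) * rf (μ-2*(w-1)) k) := by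
    rw [rf_sub_one (μ-(2*w-1)) _ _ (by ring), rf_sub_one (μ-2*(w-1)) _ _ (by ring)]
  have hA3 : rf (μ-2*w) (k+3) = (μ-2*w)*((μ-(2*w-1)) * rf (μ-2*(w-1)) k)*(μ-2*w+(k+2)) := by
    rw [rf_succ, hA2]; push_cast; ring
  have hA4 : rf (μ-2*w) (k+4) = (μ-2*w)*((μ-(2*w-1)) * rf (μ-2*(w-1)) k)*(μ-2*w+(k+2))*
      (μ-2*w+(k+3)) := by
    rw [rf_succ, hA3]; push_cast; ring
  have hA5 : rf (μ-2*(w+1)) (k+4) = (μ-2*(w+1))*((μ-(2*w+1))*((μ-2*w)*((μ-(2*w-1)) *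
      rf (μ-2*(w-1)) k))) := by
    rw [rf_sub_one (μ-(2*w+1)) _ _ (by ring), rf_sub_one (μ-2*w) _ _ (by ring), hA2]
  have hB1 : rf (μ+(w+1)) (k+1) = rf (μ+(w+1)) k * (μ+(w+1)+k) := rf_succ _ _
  have hB2 : rf (μ+(w+1)) (k+2) = rf (μ+(w+1)) k * (μ+(w+1)+k) * (μ+(w+1)+(k+1)) := by
    rw [rf_succ, hB1]; push_cast; ring
  have hB3 : rf (μ+(w+1)) (k+3) = rf (μ+(w+1)) k * (μ+(w+1)+k) * (μ+(w+1)+(k+1))
      * (μ+(w+1)+(k+2)) := by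
    rw [rf_succ, hB2]; push_cast; ring
  have hB4 : rf (μ+(w+1)) (k+4) = rf (μ+(w+1)) k * (μ+(w+1)+k) * (μ+(w+1)+(k+1))
      * (μ+(w+1)+(k+2)) * (μ+(w+1)+(k+3)) := by
    rw [rf_succ, hB3]; push_cast; ring
  have hB5 : rf (μ+w) (k+4) = (μ+w) * rf (μ+(w+1)) (k+3) := rf_sub_one _ _ _ (by ring)
  have hB6 : rf (μ+w) (k+3) = (μ+w) * rf (μ+(w+1)) (k+2) := rf_sub_one _ _ _ (by ring)
  have hB7 : rf (μ+w) (k+2) = (μ+w) * rf (μ+(w+1)) (k+1) := rf_sub_one _ _ _ (by ring)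
  have hB8 : rf (μ+(w-1)) (k+3) = (μ+(w-1)) * ((μ+w) * rf (μ+(w+1)) (k+1)) := by
    rw [rf_sub_one (μ+w) _ _ (by ring), hB7]
  have nn : ∀ j : ℤ, ∀ y : ℚ, y = 1 - w + j → y ≠ 0 := by
    intro j y hy; rw [hy]; exact hc0 j
  have m3 : (1-w+(k+3) : ℚ) ≠ 0 := nn (k+3) _ (by push_cast; ring)
  have m2 : (1-w+(k+2) : ℚ) ≠ 0 := nn (k+2) _ (by push_cast; ring)
  have hC4 : rf (1-w) (k+4) = (1-w)*rf (1-(w-1)) (k+3) := rf_sub_one _ _ _ (by ring)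
  have hC3 : rf (1-w) (k+3) = (1-w)*rf (1-(w-1)) (k+3) / (1-w+(k+3)) := by
    rw [eq_div_iff m3, ← hC4, rf_succ _ (k+3)]; push_cast; ring
  have hC2 : rf (1-w) (k+2) = (1-w)*rf (1-(w-1)) (k+3) / (1-w+(k+3)) / (1-w+(k+2)) := by
    rw [eq_div_iff m2, ← hC3, rf_succ _ (k+2)]; push_cast; ring
  have hC5 : rf (1-(w+1)) (k+4) = (-w)*((1-w)*rf (1-(w-1)) (k+3) / (1-w+(k+3))) := by
    rw [rf_sub_one (1-w) _ _ (by ring), hC3]; ring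
  have nC : rf (1-(w-1)) (k+3) ≠ 0 := by
    apply rf_ne
    intro j
    exact nn (j+1) _ (by push_cast; ring)
  have nF : ((k.factorial : ℕ) : ℚ) ≠ 0 := by positivity
  have hF2 : (((k+2).factorial : ℕ) : ℚ) = (k+2) * ((k+1) * (k.factorial : ℚ)) := by
    rw [Nat.factorial_succ, Nat.factorial_succ]; push_cast; ring
  have hF3 : (((k+3).factorial : ℕ) : ℚ) = (k+3) *((k+2) * ((k+1) * (k.factorial : ℚ))) := by
    rw [Nat.factorial_succ, Nat.factorial_succ, Nat.factorial_succ]; push_cast; ring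
  have hF4 : (((k+4).factorial : ℕ) : ℚ) = (k+4)*((k+3) *((k+2) * ((k+1) * (k.factorial : ℚ)))) := by
    rw [Nat.factorial_succ, Nat.factorial_succ, Nat.factorial_succ, Nat.factorial_succ]
    push_cast; ring
  have nk1 : (k + 1 : ℚ) ≠ 0 := by positivity
  have nk2 : (k + 2 : ℚ) ≠ 0 := by positivity
  have nk3 : (k + 3 : ℚ) ≠ 0 := by positivity
  have nk4 : (k + 4 : ℚ) ≠ 0 := by positivity
  have l1 : (1-w : ℚ) ≠ 0 := nn 0 _ (by push_cast; ring)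
  have l2 : (2-w : ℚ) ≠ 0 := nn 1 _ (by push_cast; ring)
  have he : w ≠ 0 := by
    intro h; exact nn (-1) 0 (by rw [h]; norm_num) rfl
  have l7 : w - 1 ≠ 0 := by intro h; apply l1; linarith
  unfold hc
  rw [hA0, hA2, hA3, hA4, hA5, hB8, hB7, hB6, hB5, hB4, hB3, hB2, hB1, hC5, hC4, hC3, hC2, hF2,
    hF3, hF4]
  generalize rf (μ-2*(w-1)) k = A
  generalize rf (μ+(w+1)) k = B
  generalize rf (1-(w-1)) (k+3) = C at *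
  generalize ((k.factorial : ℕ) : ℚ) = F at *
  generalize (k:ℚ) = κ at *
  rcases hμ with rfl | rfl
  · field_simp
    ring
  · field_simp
    ring

end Pool.Agent.Helper4.Sun
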