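import Pool.Agent.Helper4.Sun.Second
import Pool.Agent.Helper4.Sun.Alg
namespace Pool.Agent.Helper4.Sun
open Finset

set_option linter.unusedSectionVars false

section
variable {R : Type*} [CommRing R]

lemma rf_dup (x h : R) (hh : 2*h = 1) (n : ℕ) :
    rf (2*x) (2*n) = 4^n * rf x n * rf (x+h) n := by
  induction n with
  | zero => simp
  | succ n ih =>
    rw [show 2*(n+1) = 2*n+1+1 by ring, rf_succ, rf_succ, rf_succ, rf_succ, ih, pow_succ]
    push_cast
    linear_combination (-4^n * rf x n * rf (x+h) n * (2*x+2*n)) * hh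

lemma rf_trip (x t : R) (ht : 3*t = 1) (n : ℕ) :
    rf (3*x) (3*n) = 27^n * (rf x n * rf (x+t) n * rf (x+2*t) n) := by
  induction n with
  | zero => simp
  | succ n ih =>
    rw [show 3*(n+1) = 3*n+1+1+1 by ring, rf_succ, rf_succ, rf_succ, rf_succ, rf_succ, rf_succ, ih,
      pow_succ]
    push_cast
    have : 27^n * 27 * ((rf x n * (x + n)) * (rf (x+t) n * (x+t+n)) * (rf (x+2*t) n * (x+2*t+n)))
      = (27^n * (rf x n * rf (x+t) n * rf (x+2*t) n)) * (27 * (x+n) * (x+t+n) * (x+2*t+n)) := by ring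
    rw [this]
    generalize 27^n * (rf x n * rf (x+t) n * rf (x+2*t) n) = u
    have e1 : (3:R)*x + 3*n+1 = 3*(x+t+n) := by linear_combination -ht
    have e2 : (3:R)*x + (3*n+1+1) = 3*(x+2*t+n) := by linear_combination -2*ht
    linear_combination u * (3*x+3*n) * ((3:R)*x + (3*n+1+1)) * e1 + u * (3*x+3*n) * 3*(x+t+n) * e2

end

section
variable (p : ℕ) [hp : Fact p.Prime]

/-- harmonic numbers -/
def HH (k : ℕ) : ZMod (p^2) := ∑ j ∈ range k, (((j+1 : ℕ) : ZMod (p^2)))⁻¹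

lemma ha_def (k : ℕ) : ha p k = (p : ZMod (p^2)) * HH p k := rfl

/-- `1/12` -/
def ii : ZMod (p^2) := ((12:ℕ) : ZMod (p^2))⁻¹

lemma ii_eq (h5 : 5 < p) : 12 * ii p = 1 := by
  have := ZMod.mul_inv_of_unit _ (unit12 p h5)
  unfold ii
  push_cast at this ⊢
  exact this

lemma c12_ii (a : ℤ) : c12 p a = a * ii p := rfl

lemma rf_one_fa (k : ℕ) : rf (1 : ZMod (p^2)) k = fa p k := by
  rw [rf_one]; rfl

variable (n : ℕ)

lemma key_c (h5 : 5 < p) (hpn : p = 6*n+1) (m : ℕ) :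
    -((m*n : ℕ) : ZMod (p^2)) + (p : ZMod (p^2)) * (2*m*ii p) = 2*m*ii p := by
  have h1 := ii_eq p h5
  have h2 : (p : ZMod (p^2)) = 6*n+1 := by
    have : ((6*n+1 : ℕ) : ZMod (p^2)) = p := by rw [hpn]
    rw [← this]; push_cast; ring
  push_cast
  linear_combination (m*n : ZMod (p^2)) * h1 + 2*m*ii p * h2

lemma rf_gen (h5 : 5 < p) (hpn : p = 6*n+1) (m a b : ℕ) (hab : a + b = m*n) (hm : m ≤ 6) :
    rf (2*m*ii p) b * fa p a =
      (-1)^b * (fa p (m*n) * (1 - 2*m*ii p * (ha p (m*n) - ha p a))) := by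
  have hlt : a + b < p := by rw [hab, hpn]; nlinarith
  have h1 := rf_neg_P p (2*m*ii p) a b hlt
  rw [hab, key_c p n h5 hpn m] at h1
  exact h1

lemma nonunit_dvd (x : ZMod (p^2)) (h : ¬ IsUnit x) : ∃ y, x = (p : ZMod (p^2)) * y := by
  have hne : NeZero (p^2) := ⟨pow_ne_zero 2 hp.out.ne_zero⟩
  have hx : ((x.val : ℕ) : ZMod (p^2)) = x := ZMod.natCast_zmod_val x
  rw [← hx, ZMod.isUnit_iff_coprime] at h
  have h2 : p ∣ x.val := by
    by_contra hc
    apply h
    exact Nat.Coprime.pow_right _ ((hp.out.coprime_iff_not_dvd.2 hc).symm)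
  obtain ⟨m, hm⟩ := h2
  refine ⟨(m : ZMod (p^2)), ?_⟩
  rw [← hx, hm]; push_cast; ring

lemma unit_add_P (x y : ZMod (p^2)) (h : IsUnit x) : IsUnit (x + (p : ZMod (p^2)) * y) := by
  have h1 := ZMod.mul_inv_of_unit _ h
  have h2 : IsUnit ((x + (p : ZMod (p^2)) * y) * (x - (p : ZMod (p^2)) * y)) := by
    have : (x + (p : ZMod (p^2)) * y) * (x - (p : ZMod (p^2)) * y) = x * x := by
      linear_combination (-y^2) * P2 p
    rw [this]; exact h.mul h
  exact isUnit_of_mul_isUnit_left h2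

lemma unit2 (h5 : 5 < p) : IsUnit (2 : ZMod (p^2)) := by
  have := unit_smooth p h5 1 0 0; push_cast at this; simpa using this

lemma unit3 (h5 : 5 < p) : IsUnit (3 : ZMod (p^2)) := by
  have := unit_smooth p h5 0 1 0; push_cast at this; simpa using this

lemma unit5 (h5 : 5 < p) : IsUnit (5 : ZMod (p^2)) := by
  have := unit_smooth p h5 0 0 1; push_cast at this; simpa using this

lemma sq_one (h5 : 5 < p) (u : ZMod (p^2)) (h : u^2 = 1) : u = 1 ∨ u = -1 := by
  by_cases hu : IsUnit (u-1)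
  · right
    have : (u-1) * (u+1) = (u-1) * 0 := by linear_combination h
    have := hu.mul_left_cancel this
    linear_combination this
  · left
    obtain ⟨y, hy⟩ := nonunit_dvd p _ hu
    have h2 : IsUnit (u+1) := by
      have : u + 1 = 2 + (p : ZMod (p^2)) * y := by linear_combination hy
      rw [this]; exact unit_add_P p _ _ (unit2 p h5)
    have : (u+1) * (u-1) = (u+1) * 0 := by linear_combination h
    have := h2.mul_left_cancel this
    linear_combination this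

lemma Red.ofdiv (a b : ℤ) (hb : IsUnit (b : ZMod (p^2))) :
    ∃ r : ZMod (p^2), Red (p^2) ((a:ℚ)/b) r ∧ (b : ZMod (p^2)) * r = (a : ZMod (p^2)) := by
  refine ⟨_, (Red.int a).div (Red.int b) hb, ?_⟩
  have := ZMod.mul_inv_of_unit _ hb
  linear_combination (a : ZMod (p^2)) * this

/-- Fermat quotient -/
lemma fermat_q (x : ZMod (p^2)) (hx : IsUnit x) : ∃ q, x^(p-1) = 1 + (p : ZMod (p^2)) * q := by
  have hne : NeZero (p^2) := ⟨pow_ne_zero 2 hp.out.ne_zero⟩
  have hx' : ((x.val : ℕ) : ZMod (p^2)) = x := ZMod.natCast_zmod_val x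
  rw [← hx', ZMod.isUnit_iff_coprime] at hx
  have h1 : IsCoprime (x.val : ℤ) (p : ℤ) := by
    rw [Nat.isCoprime_iff_coprime]
    exact Nat.Coprime.coprime_dvd_right (dvd_pow_self p two_ne_zero) hx
  have h2 := Int.ModEq.pow_card_sub_one_eq_one hp.out h1
  obtain ⟨q, hq⟩ := h2.symm.dvd
  refine ⟨(q : ZMod (p^2)), ?_⟩
  have h3 := congrArg (Int.cast : ℤ → ZMod (p^2)) hq
  push_cast at h3
  rw [hx'] at h3
  linear_combination h3

end

end Pool.Agent.Helper4.Sun
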