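import Pool.Agent.Helper4.Sun.Main1
namespace Pool.Agent.Helper4.Sun
open Finset

set_option linter.unusedSectionVars false

section
variable (p : ℕ) [hp : Fact p.Prime] (n : ℕ)

lemma rf_gen' (h5 : 5 < p) (hpn : p = 6*n+1) (m a b : ℕ) (hab : a + b = m*n) (hm : m ≤ 6)
    (c : ZMod (p^2)) (hc : c = 2*(m : ZMod (p^2))*ii p) :
    rf c b * fa p a =
      (-1)^b * (fa p (m*n) * (1 - c * ((p:ZMod (p^2)) * HH p (m*n) - (p:ZMod (p^2)) * HH p a))) := by
  rw [hc]; exact rf_gen p n h5 hpn m a b hab hm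

lemma opow {R : Type*} [CommRing R] (P a : R) (hP : P^2 = 0) (k : ℕ) :
    (1 + P*a)^k = 1 + P*((k:R)*a) := by
  induction k with
  | zero => simp
  | succ k ih =>
    rw [pow_succ, ih]; push_cast
    linear_combination ((k:R)*a^2) * hP

lemma ocancel {R : Type*} [CommRing R] (P A B Λ : R) (hP : P^2 = 0)
    (h : Λ * (1 + P*A) = 1 + P*B) : Λ = 1 + P*(B-A) := by
  linear_combination (1 - P*A) * h + (Λ*A^2 - A*B) * hP

lemma ratio3 (hpn : p = 6*n+1) :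
    (3/4:ℚ)^(2*n) * rf (4/3) (2*n) / rf (7/6) (2*n) =
      (3/4)^(2*n) * rf (1/3) (2*n) / (rf (1/6) n * rf (1 + (p:ℚ) * (1/6)) n) := by
  have hp0 : (p:ℚ) ≠ 0 := by have := hp.out.pos; positivity
  have hpq : (p:ℚ) = 6*n+1 := by rw [hpn]; push_cast; ring
  have e1 : (1/3:ℚ) * rf (4/3) (2*n) = (p/3) * rf (1/3) (2*n) := by
    have h1 := rf_succ' (1/3:ℚ) (2*n)
    have h2 := rf_succ (1/3:ℚ) (2*n)
    rw [h2, show (1/3:ℚ)+1 = 4/3 by norm_num] at h1
    rw [← h1, hpq]; push_cast; ring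
  have e2 : (1/6:ℚ) * rf (7/6) (2*n) = (p/6) * (rf (1/6) n * rf (1 + (p:ℚ) * (1/6)) n) := by
    have h1 := rf_succ' (1/6:ℚ) (2*n)
    rw [show (1/6:ℚ)+1 = 7/6 by norm_num] at h1
    rw [← h1, show 2*n+1 = n + (n+1) by ring, rf_add, rf_succ',
      show (1/6:ℚ) + n + 1 = 1 + (p:ℚ) * (1/6) by rw [hpq]; ring, hpq]
    ring
  have e1' : rf (4/3:ℚ) (2*n) = p * rf (1/3) (2*n) := by linear_combination 3 * e1
  have e2' : rf (7/6:ℚ) (2*n) = p * (rf (1/6) n * rf (1 + (p:ℚ) * (1/6)) n) := by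
    linear_combination 6 * e2
  rw [e1', e2', ← mul_assoc, mul_comm _ (p:ℚ), mul_assoc, mul_div_mul_left _ _ hp0]

theorem main1 (h5 : 5 < p) (hpn : p = 6*n+1) {z' : ZMod (p^2)} (hz : Red (p^2) (-3/125) z')
    {J B1 B2 B3 : ZMod (p^2)}
    (hJ : J = ((p:ZMod (p^2))-1)*(-1)^n*(20*ii p*B1 - 8*ii p*(B2+B3)))
    (hB1 : B1 * fa p n * fa p (3*n) = fa p (4*n))
    (hB2 : B2 * fa p (3*n) * fa p n * (10*(p:ZMod (p^2))-4) =
      (7*(p:ZMod (p^2))-1) * fa p (4*n) * (1 - ha p (3*n)))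
    (hB3 : B3 * fa p n * fa p (3*n) * (10*(p:ZMod (p^2))-4) =
      (9*(p:ZMod (p^2))-3) * fa p (4*n) * (1 + ha p (2*n) - ha p (3*n))) :
    IsUnit J ∧ (S0 p z' = J ∨ S0 p z' = -J) := by
  have hi := ii_eq p h5
  have hP := P2 p
  have hodd : p % 2 = 1 := by omega
  have h42 : ha p (4*n) = ha p (2*n) := ha_symm p (4*n) (2*n) (by omega) hodd
  have ua := isUnit_fa p n (by omega)
  have ub := isUnit_fa p (2*n) (by omega)
  have uc := isUnit_fa p (3*n) (by omega)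
  have ud := isUnit_fa p (4*n) (by omega)
  -- rf values
  have kA2 := rf_gen' p n h5 hpn 3 (2*n) n (by ring) (by norm_num) (6*ii p) (by push_cast; ring)
  have kA6 := rf_gen' p n h5 hpn 1 0 n (by ring) (by norm_num) (2*ii p) (by push_cast; ring)
  have kB3 := rf_gen' p n h5 hpn 4 (3*n) n (by ring) (by norm_num) (8*ii p) (by push_cast; ring)
  have kD3 := rf_gen' p n h5 hpn 2 0 (2*n) (by ring) (by norm_num) (4*ii p) (by push_cast; ring)
  have kA26 := rf_gen' p n h5 hpn 3 0 (3*n) (by ring) (by norm_num) (6*ii p) (by push_cast; ring)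
  have kE3 := rf_gen' p n h5 hpn 4 (2*n) (2*n) (by ring) (by norm_num) (8*ii p) (by push_cast; ring)
  have kA3 := rf_gen' p n h5 hpn 2 n n (by ring) (by norm_num) (4*ii p) (by push_cast; ring)
  have kE6 := rf_one_P p (2*ii p) n (by omega)
  have hC1 := fa_compl p (2*n) (4*n) (by omega)
  have hC2 := fa_compl p (3*n) (3*n) (by omega)
  rw [show 2*n+4*n = 6*n by ring] at hC1
  rw [show 3*n+3*n = 6*n by ring] at hC2
  simp only [ha_def] at h42 kE6 hC1 hC2 hB2 hB3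
  have H0 : HH p 0 = 0 := by simp [HH]
  have pε : ((-1:ZMod (p^2))^(2*n)) = 1 := by rw [pow_mul]; simp
  have pε3 : ((-1:ZMod (p^2))^(3*n)) = (-1)^n := by
    rw [show 3*n = 2*n+n by ring, pow_add, pε, one_mul]
  have hε : ((-1:ZMod (p^2))^n)^2 = 1 := by rw [← pow_mul, mul_comm, pε]
  rw [H0] at kA6 kD3 kA26
  rw [fa_zero] at kA6 kD3 kA26
  rw [pε] at kD3 kE3 hC1
  rw [pε3] at kA26 hC2
  rw [h42] at kE3 kB3
  simp only [one_mul, mul_one, mul_zero, sub_zero, sub_self] at kA6 kD3 kA26 kE3 hC1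
  have D1 := rf_dup (6*ii p) (6*ii p) (by linear_combination hi) n
  have D2 := rf_dup (2*ii p) (6*ii p) (by linear_combination hi) n
  have D6 := rf_dup (6*ii p) (6*ii p) (by linear_combination hi) (3*n)
  have T3 := rf_trip (4*ii p) (4*ii p) (by linear_combination hi) n
  have T6 := rf_trip (4*ii p) (4*ii p) (by linear_combination hi) (2*n)
  rw [show 2*(6*ii p) = 1 by linear_combination hi, show 6*ii p + 6*ii p = 1 by linear_combination hi,
    rf_one_fa, rf_one_fa] at D1 D6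
  rw [show 2*(2*ii p) = 4*ii p by ring, show 2*ii p + 6*ii p = 8*ii p by ring] at D2
  rw [show 3*(4*ii p) = 1 by linear_combination hi, show 4*ii p + 4*ii p = 8*ii p by ring,
    show 4*ii p + 2*(4*ii p) = 1 by linear_combination hi, rf_one_fa, rf_one_fa] at T3 T6
  rw [show 2*(3*n) = 6*n by ring] at D6
  rw [show 3*(2*n) = 6*n by ring] at T6
  -- units
  have u2 := unit2 p h5
  have u3 := unit3 p h5
  have u5 := unit5 p h5
  have u4 : IsUnit (4 : ZMod (p^2)) := by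
    have := u2.mul u2; rw [show (2:ZMod (p^2))*2 = 4 by norm_num] at this; exact this
  have u4i : IsUnit ((4 : ℤ) : ZMod (p^2)) := by push_cast; exact u4
  have u3i : IsUnit ((3 : ℤ) : ZMod (p^2)) := by push_cast; exact u3
  have u9i : IsUnit ((9 : ℤ) : ZMod (p^2)) := by
    have := u3.mul u3; rw [show (3:ZMod (p^2))*3 = 9 by norm_num] at this; push_cast; exact this
  have u2000i : IsUnit ((2000 : ℤ) : ZMod (p^2)) := by
    have := unit_smooth p h5 4 0 3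
    norm_num at this ⊢; exact this
  have u2187 : IsUnit (2187 : ZMod (p^2)) := by
    have := unit_smooth p h5 0 7 0; norm_num at this ⊢; exact this
  have u250 : IsUnit (250 : ZMod (p^2)) := by
    have := unit_smooth p h5 1 0 3; norm_num at this ⊢; exact this
  have u6 : IsUnit (6 : ZMod (p^2)) := by
    have := unit_smooth p h5 1 1 0; norm_num at this ⊢; exact this
  have u8 : IsUnit (8 : ZMod (p^2)) := by
    have := unit_smooth p h5 3 0 0; norm_num at this ⊢; exact this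
  have uw : IsUnit ((4 : ZMod (p^2))^n) := u4.pow n
  have us : IsUnit ((3 : ZMod (p^2))^n) := u3.pow n
  obtain ⟨g, hg, hg'⟩ := Red.ofdiv p 4 3 u3i
  obtain ⟨k, hk, hk'⟩ := Red.ofdiv p 3 4 u4i
  obtain ⟨l, hl, hl'⟩ := Red.ofdiv p 2187 2000 u2000i
  obtain ⟨x, hx, hx'⟩ := Red.ofdiv p 1 9 u9i
  push_cast at hg hg' hk hk' hl hl' hx hx'
  have hz' : 125 * z' = -3 := by
    have h1 := (Red.int (m := p^2) 125).mul hz
    have h2 := Red.int (m := p^2) (-3)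
    push_cast at h1 h2
    rw [show (125:ℚ) * (-3/125) = -3 by norm_num] at h1
    exact Red.unique h1 h2
  have r13 : Red (p^2) (1/3) (4*ii p) := by
    have := Red.c12 p h5 4
    rw [c12_ii] at this; push_cast at this
    rw [show (4/12:ℚ) = 1/3 by norm_num] at this; exact this
  have r16 : Red (p^2) (1/6) (2*ii p) := by
    have := Red.c12 p h5 2
    rw [c12_ii] at this; push_cast at this
    rw [show (2/12:ℚ) = 1/6 by norm_num] at this; exact this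
  have r1p : Red (p^2) (1 + (p:ℚ)*(1/6)) (1 + (p:ZMod (p^2))*(2*ii p)) :=
    Red.one.add ((Red.nat p).mul r16)
  -- A
  have hA := algA (p : ZMod (p^2)) (HH p n) (HH p (2*n)) (HH p (3*n)) (fa p n) (fa p (2*n))
    (fa p (3*n)) (fa p (4*n)) ((-1)^n) (4^n) (ii p) (rf (6*ii p) n) (rf (2*ii p) n) (rf (8*ii p) n)
    hP hi hε ua uc uw (by linear_combination D1) kA2 (by linear_combination D2 - kD3) kA6
    (by linear_combination kB3) (by linear_combination hC2 - hC1)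
  have hf : fa p (6*n) = (-1)^n * (fa p (3*n) * fa p (3*n) * (1 - (p:ZMod (p^2)) * HH p (3*n))) := by
    linear_combination hC2
  have hf' : fa p (6*n) = fa p (2*n) * fa p (4*n) * (1 - (p:ZMod (p^2)) * HH p (2*n)) := by
    linear_combination hC1
  have hC : fa p (2*n) * fa p (4*n) * (1 - (p:ZMod (p^2)) * HH p (2*n)) =
      (-1)^n * (fa p (3*n) * fa p (3*n) * (1 - (p:ZMod (p^2)) * HH p (3*n))) := by
    rw [← hf, ← hf']
  have hw3 : ((4:ZMod (p^2))^n)^3 = 1 - 6*ii p*((p:ZMod (p^2)) * HH p (3*n)) := by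
    have := algQ2 (p : ZMod (p^2)) (HH p (3*n)) (fa p (3*n)) ((-1)^n) (4^(3*n)) (ii p)
      (rf (6*ii p) (3*n)) (fa p (6*n)) hP hi hε uc D6 kA26 hf
    rw [← this, ← pow_mul, mul_comm n 3]
  have hs6 : ((3:ZMod (p^2))^n)^6 = 1 - 8*ii p*((p:ZMod (p^2)) * HH p (2*n)) := by
    have := algQ3 (p : ZMod (p^2)) (HH p (2*n)) (fa p (2*n)) (fa p (4*n)) (27^(2*n)) (ii p)
      (rf (4*ii p) (2*n)) (rf (8*ii p) (2*n)) (fa p (6*n)) hP hi ub ud T6 kD3 kE3 hf'
    rw [← this, ← pow_mul, show (27:ZMod (p^2)) = 3^3 by norm_num, ← pow_mul]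
    congr 1; ring
  have hv3 : ((3:ZMod (p^2))^n)^3 = 27^n := by
    rw [← pow_mul, show (27:ZMod (p^2)) = 3^3 by norm_num, ← pow_mul, mul_comm]
  have hA3 : rf (4*ii p) n * fa p n = (-1)^n * (fa p (2*n) * (1 + 4*ii p*((p:ZMod (p^2)) * HH p (3*n)))) := by
    rw [kA3, hA]; ring
  have hV := algV (p : ZMod (p^2)) (HH p (2*n)) (HH p (3*n)) (fa p n) (fa p (2*n)) (fa p (3*n))
    (fa p (4*n)) ((-1)^n) (27^n) (ii p) (rf (4*ii p) n) (rf (8*ii p) n) hP hi hε uc T3 hA3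
    kB3 hC
  have hA6 : rf (2*ii p) n = (-1)^n * (fa p n * (1 - 2*ii p*((p:ZMod (p^2)) * HH p (2*n) + (p:ZMod (p^2)) * HH p (3*n)))) := by
    rw [← hA]; exact kA6
  have hE6 : rf (1 + (p:ZMod (p^2)) * (2*ii p)) n = fa p n * (1 + 2*ii p*((p:ZMod (p^2)) * HH p (2*n) + (p:ZMod (p^2)) * HH p (3*n))) := by
    rw [← hA]; exact kE6
  have uε : IsUnit ((-1 : ZMod (p^2))^n) := (isUnit_one.neg).pow n
  have uA6 : IsUnit (rf (2*ii p) n) := by
    rw [hA6, show (1:ZMod (p^2)) - 2*ii p*((p:ZMod (p^2)) * HH p (2*n) + (p:ZMod (p^2)) * HH p (3*n)) =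
      1 + (p:ZMod (p^2)) * (-(2*ii p*(HH p (2*n) + HH p (3*n)))) by ring]
    exact uε.mul (ua.mul (unit_add_P p _ _ isUnit_one))
  have uE6 : IsUnit (rf (1 + (p:ZMod (p^2)) * (2*ii p)) n) := by
    rw [hE6, show (1:ZMod (p^2)) + 2*ii p*((p:ZMod (p^2)) * HH p (2*n) + (p:ZMod (p^2)) * HH p (3*n)) =
      1 + (p:ZMod (p^2)) * ((2*ii p*(HH p (2*n) + HH p (3*n)))) by ring]
    exact (ua.mul (unit_add_P p _ _ isUnit_one))
  have hC2r := ((hg.pow n).mul (r13.rf n)).div (r16.rf n) uA6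
  have hC3r := ((hk.pow (2*n)).mul (r13.rf (2*n))).div ((r16.rf n).mul (r1p.rf n)) (uA6.mul uE6)
  rw [← ratio3 p n hpn] at hC3r
  obtain ⟨C2, hC2d⟩ : ∃ C2, C2 = g^n * rf (4*ii p) n * (rf (2*ii p) n)⁻¹ := ⟨_, rfl⟩
  obtain ⟨C3, hC3d⟩ : ∃ C3, C3 = k^(2*n) * rf (4*ii p) (2*n) * (rf (2*ii p) n * rf (1 + (p:ZMod (p^2)) * (2*ii p)) n)⁻¹ := ⟨_, rfl⟩
  rw [← hC2d] at hC2r
  rw [← hC3d] at hC3r
  have h2 : C2 * rf (2*ii p) n = g^n * rf (4*ii p) n := by
    rw [hC2d]; linear_combination (g^n * rf (4*ii p) n) * ZMod.inv_mul_of_unit _ uA6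
  have h3 : C3 * (rf (2*ii p) n * rf (1 + (p:ZMod (p^2)) * (2*ii p)) n) = k^(2*n) * rf (4*ii p) (2*n) := by
    rw [hC3d]; linear_combination (k^(2*n) * rf (4*ii p) (2*n)) * ZMod.inv_mul_of_unit _ (uA6.mul uE6)
  have hG : (3:ZMod (p^2))^n * g^n = 4^n := by rw [← mul_pow, hg']
  have hG' : ((4:ZMod (p^2))^n)^2 * k^(2*n) = (3^n)^2 := by
    rw [← pow_mul, ← pow_mul, mul_comm n 2, ← mul_pow, hk']
  have hCC := algC (p : ZMod (p^2)) (HH p (2*n)) (HH p (3*n)) (fa p n) (fa p (2*n)) ((-1)^n)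
    (27^n) (4^n) (3^n) (g^n) (k^(2*n)) (ii p) (rf (4*ii p) n) (rf (2*ii p) n) (rf (4*ii p) (2*n))
    (rf (1 + (p:ZMod (p^2)) * (2*ii p)) n) C2 C3 hP hi hε ua us uw hG hG' hv3 hV hw3 hA3 hA6 hE6 kD3 h2 h3
  have hL : ((4:ZMod (p^2))^n)^2 * (5^n)^3 * l^n = (3^n)^7 := by
    have e1 : ((4:ZMod (p^2))^n)^2 = 16^n := by
      rw [← pow_mul, mul_comm, pow_mul]; norm_num
    have e2 : ((5:ZMod (p^2))^n)^3 = 125^n := by
      rw [← pow_mul, mul_comm, pow_mul]; norm_num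
    have e3 : ((3:ZMod (p^2))^n)^7 = 2187^n := by
      rw [← pow_mul, mul_comm, pow_mul]; norm_num
    rw [e1, e2, e3, ← mul_pow, ← mul_pow, ← hl']; norm_num
  have hLC := algL (p : ZMod (p^2)) (HH p (2*n)) (HH p (3*n)) (fa p n) (fa p (2*n)) (fa p (3*n))
    ((-1)^n) (4^n) (3^n) (5^n) (g^n) (l^n) (ii p) (rf (6*ii p) n) (rf (4*ii p) n) (rf (2*ii p) n) C2
    hP hi hε ub us uw hG hL hs6 (by linear_combination D1) kA2 hA3 hA6 h2
  -- the four equations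
  have F1 := E1 p n h5 hpn hz hx hl
  obtain ⟨τ, σ₁, σ₂, hτ, hσ₁, hσ₂, F2⟩ := E2 p n h5 hpn hz hx hl
  have F3 := E3 p n h5 hpn hx hC2r
  have F4 := E4 p n h5 hpn hx hC3r
  simp only [c12_ii] at F1 F2 F3 F4
  push_cast at F1 F2 F3 F4
  simp only [ha_def] at F2
  rw [hA, pow_add l n p] at F2
  -- powers
  obtain ⟨q, hq⟩ := fermat_q p 5 u5
  have hp1 : p - 1 = 6*n := by omega
  rw [hp1] at hq
  have ht6 : ((5:ZMod (p^2))^n)^6 = 1 + (p:ZMod (p^2)) * q := by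
    rw [← pow_mul, mul_comm, hq]
  have hs6' : ((3:ZMod (p^2))^n)^6 = 1 + (p:ZMod (p^2)) * (-(8*ii p*HH p (2*n))) := by
    rw [hs6]; ring
  have hw3' : ((4:ZMod (p^2))^n)^3 = 1 + (p:ZMod (p^2)) * (-(6*ii p*HH p (3*n))) := by
    rw [hw3]; ring
  have pz : z'^(6*n) = 1 + (p:ZMod (p^2)) * (-(8*ii p*HH p (2*n)) - 3*q) := by
    apply ocancel _ (3*q) _ _ hP
    have e1 : (125:ZMod (p^2))^(6*n) = 1 + (p:ZMod (p^2)) * (3*q) := by
      have := opow (p:ZMod (p^2)) q hP 3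
      rw [← hq, ← pow_mul, mul_comm (6*n) 3, pow_mul] at this
      norm_num at this ⊢
      exact this
    have e2 : (-3:ZMod (p^2))^(6*n) = 1 + (p:ZMod (p^2)) * (-(8*ii p*HH p (2*n))) := by
      rw [← hs6', ← pow_mul, show 6*n = 2*(3*n) by ring, show n*6 = 2*(3*n) by ring, pow_mul,
        pow_mul 3]
      norm_num
    rw [← e1, ← e2, ← mul_pow, ← hz', mul_comm]
  have px : x^(6*n) = 1 + (p:ZMod (p^2)) * (0 - 2 * (-(8*ii p*HH p (2*n)))) := by
    apply ocancel _ _ _ _ hP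
    have e1 : (9:ZMod (p^2))^(6*n) = 1 + (p:ZMod (p^2)) * (2 * (-(8*ii p*HH p (2*n)))) := by
      have := opow (p:ZMod (p^2)) (-(8*ii p*HH p (2*n))) hP 2
      rw [← hs6', ← pow_mul, ← pow_mul, show n*(6*2) = 2*(6*n) by ring, pow_mul] at this
      norm_num at this ⊢
      exact this
    rw [← e1, ← mul_pow, mul_comm x, hx']
    simp
  have pl : l^(6*n) = 1 + (p:ZMod (p^2)) * (7 * (-(8*ii p*HH p (2*n))) - (4 * (-(6*ii p*HH p (3*n))) + 3*q)) := by
    apply ocancel _ _ _ _ hP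
    have e1 : (2000:ZMod (p^2))^(6*n) = 1 + (p:ZMod (p^2)) * (4 * (-(6*ii p*HH p (3*n))) + 3*q) := by
      have h1 := opow (p:ZMod (p^2)) (-(6*ii p*HH p (3*n))) hP 4
      have h2 := opow (p:ZMod (p^2)) q hP 3
      rw [← hw3', ← pow_mul, ← pow_mul, show n*(3*4) = 2*(6*n) by ring, pow_mul] at h1
      rw [← hq, ← pow_mul, mul_comm (6*n) 3, pow_mul] at h2
      have : (2000:ZMod (p^2))^(6*n) = (4^2)^(6*n) * (5^3)^(6*n) := by
        rw [← mul_pow]; norm_num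
      rw [this, h1, h2]
      push_cast
      linear_combination (4 * (-(6*ii p*HH p (3*n))) * (3 * q)) * hP
    have e2 : (2187:ZMod (p^2))^(6*n) = 1 + (p:ZMod (p^2)) * (7 * (-(8*ii p*HH p (2*n)))) := by
      have h1 := opow (p:ZMod (p^2)) (-(8*ii p*HH p (2*n))) hP 7
      rw [← hs6', ← pow_mul, ← pow_mul, show n*(6*7) = 7*(6*n) by ring, pow_mul] at h1
      push_cast at h1
      rw [← h1]; norm_num
    rw [← e1, ← e2, ← mul_pow, mul_comm l, hl']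
  have hps : p = 6*n + 1 := hpn
  have pz' : z'^p = z' * (1 - 8*ii p*((p:ZMod (p^2)) * HH p (2*n)) - 3*((p:ZMod (p^2)) * q)) := by
    conv_lhs => rw [show z'^p = z'^(6*n+1) by rw [← hps], pow_succ, pz]
    ring
  have px' : x^p = x * (1 + 16*ii p*((p:ZMod (p^2)) * HH p (2*n))) := by
    conv_lhs => rw [show x^p = x^(6*n+1) by rw [← hps], pow_succ, px]
    ring
  have pl' : l^p = l * (1 - 56*ii p*((p:ZMod (p^2)) * HH p (2*n)) + 2*((p:ZMod (p^2)) * HH p (3*n))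
      - 3*((p:ZMod (p^2)) * q)) := by
    conv_lhs => rw [show l^p = l^(6*n+1) by rw [← hps], pow_succ, pl]
    linear_combination (l * 2 * (p:ZMod (p^2)) * HH p (3*n)) * hi
  have hS := algS (p : ZMod (p^2)) (HH p (2*n)) (HH p (3*n)) q (ii p) (S0 p z') (G0 p z')
    (Ph p x) (Ga p x) (l^n) (l^p) z' (z'^p) x (x^p) l τ σ₁ σ₂ C2 C3 hP hi u6 u250 u2187 u8
    hτ hσ₁ hσ₂ hz' hx' hl' pz' px' pl'
    (by linear_combination F1) (by linear_combination F2) (by linear_combination F3)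
    (by linear_combination F4) hCC
  have u4P : IsUnit (10 * (p:ZMod (p^2)) - 4) := by
    have := unit_add_P p (-4) 10 u4.neg
    rw [show (-4 : ZMod (p^2)) + (p:ZMod (p^2)) * 10 = 10 * (p:ZMod (p^2)) - 4 by ring] at this
    exact this
  have hJJ := algJ (p : ZMod (p^2)) (HH p (2*n)) (HH p (3*n)) (ii p) (fa p n) (fa p (2*n))
    (fa p (3*n)) (fa p (4*n)) ((-1)^n) J B1 B2 B3 hP hi hε uc u4P hJ hB1 hB2 hB3 hC
  have hu := unit_add_P p 1 (6*ii p * HH p (2*n) - 4*ii p*HH p (3*n)) isUnit_one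
  have uJ : IsUnit J := by
    have h1 : IsUnit (-(-1)^n*J*fa p n*fa p (2*n)) := by
      rw [hJJ]
      rw [show (1:ZMod (p^2)) + 6*ii p*((p:ZMod (p^2)) * HH p (2*n)) - 4*ii p*((p:ZMod (p^2)) * HH p (3*n)) =
        1 + (p:ZMod (p^2)) * (6*ii p * HH p (2*n) - 4*ii p*HH p (3*n)) by ring]
      exact (uε.mul uc).mul hu
    exact isUnit_of_mul_isUnit_right (isUnit_of_mul_isUnit_left (isUnit_of_mul_isUnit_left h1))
  refine ⟨uJ, ?_⟩
  have e1 : (S0 p z' * (5^n)^3) * (fa p n * fa p (2*n)) =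
      (-(-1)^n * J * (1 + 6*ii p*((p:ZMod (p^2)) * q))) * (fa p n * fa p (2*n)) := by
    linear_combination ((5^n)^3 * (fa p n * fa p (2*n))) * hS +
      (1 + 6*ii p*((p:ZMod (p^2)) * HH p (2*n)) - 4*ii p*((p:ZMod (p^2)) * HH p (3*n)) + 6*ii p*((p:ZMod (p^2)) * q)) * hLC
      - (1 + 6*ii p*((p:ZMod (p^2)) * q)) * hJJ
      - ((-1)^n * fa p (3*n) * (6*ii p* HH p (2*n) - 4*ii p*HH p (3*n)) * 6*ii p*q) * hP
  have e2 := (ua.mul ub).mul_right_cancel e1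
  obtain ⟨u, hu'⟩ : ∃ u, u = (5^n)^3 * (1 - 6*ii p*((p:ZMod (p^2)) * q)) := ⟨_, rfl⟩
  have e3 : u^2 = 1 := by
    rw [hu']
    have : ((5^n)^3 * (1 - 6*ii p*((p:ZMod (p^2)) * q)))^2 = (5^n)^6 * (1 - 6*ii p*((p:ZMod (p^2)) * q))^2 := by
      ring
    rw [this, ht6]
    linear_combination (-(p:ZMod (p^2))*q) * hi + (36*(ii p)^2*q^2 - 12*ii p*q^2 + 36*(ii p)^2*q^3*(p:ZMod (p^2))) * hP
  have e4 : S0 p z' * u = -(-1)^n * J := by
    rw [hu']
    linear_combination (1 - 6*ii p*((p:ZMod (p^2)) * q)) * e2 + ((-1)^n*J*36*(ii p)^2*q^2) * hP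
  rcases sq_one p h5 u e3 with h | h <;> rcases neg_one_pow_eq_or (ZMod (p^2)) n with h' | h' <;>
    rw [h, h'] at e4
  · right; linear_combination e4
  · left; linear_combination e4
  · left; linear_combination -e4
  · right; linear_combination -e4

end

end Pool.Agent.Helper4.Sun
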