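import Pool.Agent.Helper4.Sun.Basic
namespace Pool.Agent.Helper4.Sun
open Finset

/-- `x` is `m`-integral and reduces to `r` modulo `m`. -/
def Red (m : ℕ) (x : ℚ) (r : ZMod m) : Prop :=
  ∃ a b : ℤ, b ≠ 0 ∧ IsUnit (b : ZMod m) ∧ x * b = a ∧ r * b = a

namespace Red
variable {m : ℕ} {x y : ℚ} {r s : ZMod m}

lemma int (a : ℤ) : Red m (a:ℚ) (a : ZMod m) := ⟨a, 1, by simp, by simp, by simp, by simp⟩
lemma nat (a : ℕ) : Red m (a:ℚ) (a : ZMod m) := by
  have := int (m := m) (a:ℤ); push_cast at this; exact this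
lemma one : Red m 1 1 := by have := nat (m := m) 1; push_cast at this; exact this
lemma zero : Red m 0 0 := by have := nat (m := m) 0; push_cast at this; exact this

lemma add (h : Red m x r) (h' : Red m y s) : Red m (x+y) (r+s) := by
  obtain ⟨a, b, h0, hb, h1, h2⟩ := h
  obtain ⟨c, d, h0', hd, h1', h2'⟩ := h'
  refine ⟨a*d + c*b, b*d, mul_ne_zero h0 h0', ?_, ?_, ?_⟩
  · push_cast; exact hb.mul hd
  · push_cast; linear_combination (d:ℚ) * h1 + (b:ℚ) * h1'
  · push_cast; linear_combination (d:ZMod m) * h2 + (b:ZMod m) * h2'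

lemma mul (h : Red m x r) (h' : Red m y s) : Red m (x*y) (r*s) := by
  obtain ⟨a, b, h0, hb, h1, h2⟩ := h
  obtain ⟨c, d, h0', hd, h1', h2'⟩ := h'
  refine ⟨a*c, b*d, mul_ne_zero h0 h0', ?_, ?_, ?_⟩
  · push_cast; exact hb.mul hd
  · push_cast; linear_combination (y*d:ℚ) * h1 + (a:ℚ) * h1'
  · push_cast; linear_combination (s*d:ZMod m) * h2 + (a:ZMod m) * h2'

lemma neg (h : Red m x r) : Red m (-x) (-r) := by
  obtain ⟨a, b, h0, hb, h1, h2⟩ := h
  refine ⟨-a, b, h0, hb, ?_, ?_⟩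
  · push_cast; linear_combination -h1
  · push_cast; linear_combination -h2

lemma sub (h : Red m x r) (h' : Red m y s) : Red m (x-y) (r-s) := by
  rw [sub_eq_add_neg, sub_eq_add_neg]; exact h.add h'.neg

lemma pow (h : Red m x r) (k : ℕ) : Red m (x^k) (r^k) := by
  induction k with
  | zero => simpa using one
  | succ k ih => rw [pow_succ, pow_succ]; exact ih.mul h

lemma sum {f : ℕ → ℚ} {g : ℕ → ZMod m} (s : Finset ℕ) (h : ∀ i ∈ s, Red m (f i) (g i)) :
    Red m (∑ i ∈ s, f i) (∑ i ∈ s, g i) := by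
  classical
  induction s using Finset.induction_on with
  | empty => simpa using zero
  | insert a s ha ih =>
    rw [sum_insert ha, sum_insert ha]
    exact (h a (mem_insert_self _ _)).add (ih (fun i hi => h i (mem_insert_of_mem hi)))

lemma rf (h : Red m x r) (k : ℕ) : Red m (Sun.rf x k) (Sun.rf r k) := by
  induction k with
  | zero => simpa using one
  | succ k ih => rw [rf_succ, rf_succ]; exact ih.mul (h.add (nat k))

lemma unique (h : Red m x r) (h' : Red m x s) : r = s := by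
  obtain ⟨a, b, h0, hb, h1, h2⟩ := h
  obtain ⟨c, d, h0', hd, h1', h2'⟩ := h'
  have e : (a * d : ℤ) = c * b := by
    have : (a * d : ℚ) = c * b := by rw [← h1, ← h1']; ring
    exact_mod_cast this
  have e' : (a * d : ZMod m) = c * b := by exact_mod_cast congrArg (Int.cast : ℤ → ZMod m) e
  have : r * (b * d) = s * (b * d) := by
    linear_combination (d:ZMod m) * h2 + e' - (b:ZMod m) * h2'
  exact (hb.mul hd).mul_right_cancel this

lemma inv [Fact (1 < m)] (h : Red m x r) (hr : IsUnit r) : Red m (x⁻¹) (r⁻¹) := by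
  obtain ⟨a, b, h0, hb, h1, h2⟩ := h
  have ha : IsUnit (a : ZMod m) := by rw [← h2]; exact hr.mul hb
  have ha0 : a ≠ 0 := by
    rintro rfl
    simp at ha
  have hx : x ≠ 0 := by
    rintro rfl
    apply ha0
    have : (0:ℚ) = a := by simpa using h1
    exact_mod_cast this.symm
  refine ⟨b, a, ha0, ha, ?_, ?_⟩
  · rw [← h1]; field_simp
  · rw [← h2, ← mul_assoc, ZMod.inv_mul_of_unit r hr, one_mul]

lemma div [Fact (1 < m)] (h : Red m x r) (h' : Red m y s) (hs : IsUnit s) :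
    Red m (x / y) (r * s⁻¹) := by
  rw [div_eq_mul_inv]; exact h.mul (h'.inv hs)

end Red

lemma inv_eq_of (m : ℕ) (a b : ZMod m) (h : a * b = 1) : a⁻¹ = b := by
  have ha : IsUnit a := IsUnit.of_mul_eq_one b h
  calc a⁻¹ = a⁻¹ * (a * b) := by rw [h, mul_one]
    _ = b := by rw [← mul_assoc, ZMod.inv_mul_of_unit a ha, one_mul]

/-- conclusion from a vanishing reduction modulo `p^2` -/
lemma Red.cong {p : ℕ} (hp : p.Prime) (e : ℕ) (he : e ≠ 0) {x : ℚ} (h : Red (p^e) x 0) :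
    ∃ q : ℚ, ¬ (p ∣ q.den) ∧ x = p^e * q := by
  obtain ⟨a, b, h0, hb, h1, h2⟩ := h
  rw [zero_mul] at h2
  have ha : ((p^e : ℕ) : ℤ) ∣ a := by
    rw [← ZMod.intCast_zmod_eq_zero_iff_dvd]
    · exact h2.symm
  obtain ⟨c, rfl⟩ := ha
  have hpb : ¬ ((p:ℤ) ∣ b) := by
    intro hdvd
    have hcop : IsCoprime b ((p^e : ℕ) : ℤ) := by
      rw [ZMod.coe_int_isUnit_iff_isCoprime] at hb
      exact hb.symm
    have : IsUnit (p:ℤ) := by
      apply hcop.isUnit_of_dvd' hdvd
      push_cast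
      exact dvd_pow_self _ he
    rw [Int.isUnit_iff] at this
    have := hp.two_le
    omega
  refine ⟨(c:ℚ)/(b:ℚ), ?_, ?_⟩
  · intro hd
    apply hpb
    have h3 : (((c:ℚ)/(b:ℚ)).den : ℤ) ∣ b := by
      rw [← Rat.divInt_eq_div]; exact Rat.den_dvd c b
    exact dvd_trans (by exact_mod_cast hd) h3
  · have hb0 : (b:ℚ) ≠ 0 := by exact_mod_cast h0
    rw [← mul_div_assoc, eq_div_iff hb0, h1]
    push_cast; ring

end Pool.Agent.Helper4.Sun
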