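import Pool.Agent.Helper4.Sun.Sums
namespace Pool.Agent.Helper4.Sun
open Finset

set_option linter.unusedSectionVars false

section
variable (p : ℕ) [hp : Fact p.Prime]

lemma unit_small (h5 : 5 < p) (k : ℕ) (hk : ∀ q : ℕ, q.Prime → q ∣ k → q ≤ 5) : IsUnit (k : ZMod (p^2)) := by
  apply isUnit_of_coprime
  rw [Nat.coprime_comm, hp.out.coprime_iff_not_dvd]
  intro h
  have := hk p hp.out h
  omega

lemma prime_le_five_of_dvd {q a b c : ℕ} (hq : q.Prime) (h : q ∣ 2^a*3^b*5^c) : q ≤ 5 := by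
  rcases (Nat.Prime.dvd_mul hq).1 h with h2 | h2
  · rcases (Nat.Prime.dvd_mul hq).1 h2 with h3 | h3
    · have := Nat.le_of_dvd (by norm_num) (hq.dvd_of_dvd_pow h3); omega
    · have := Nat.le_of_dvd (by norm_num) (hq.dvd_of_dvd_pow h3); omega
  · exact Nat.le_of_dvd (by norm_num) (hq.dvd_of_dvd_pow h2)

lemma unit_smooth (h5 : 5 < p) (a b c : ℕ) : IsUnit ((2^a*3^b*5^c : ℕ) : ZMod (p^2)) :=
  unit_small p h5 _ (fun _ hq h => prime_le_five_of_dvd hq h)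

lemma unit_c12 (h5 : 5 < p) (k : ℤ) (h : IsUnit (k : ZMod (p^2))) : IsUnit (c12 p k) := by
  have h1 := c12_eq p h5 k
  rw [← h1] at h
  exact isUnit_of_mul_isUnit_right h

lemma ratio_eq (h5 : 5 < p) (a b c d : ℤ) (hc : IsUnit (c12 p c)) (hd : IsUnit (c12 p d)) :
    (c * d : ZMod (p^2)) * (c12 p a * c12 p b * (c12 p c * c12 p d)⁻¹) = a * b := by
  have h1 := ZMod.mul_inv_of_unit _ (hc.mul hd)
  have ea := c12_eq p h5 a
  have eb := c12_eq p h5 b
  have ec := c12_eq p h5 c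
  have ed := c12_eq p h5 d
  rw [← ea, ← eb, ← ec, ← ed]
  linear_combination (144 * c12 p a * c12 p b) * h1

/-- (E2) -/
lemma E2 (n : ℕ) (h5 : 5 < p) (hpn : p = 6*n+1) {z' x' l' : ZMod (p^2)}
    (hz : Red (p^2) (-3/125) z') (hx : Red (p^2) (1/9) x') (hl : Red (p^2) (2187/2000) l') :
    ∃ τ σ₁ σ₂ : ZMod (p^2), 2 * τ = -1 ∧ 3 * σ₁ = -2 ∧ 18 * σ₂ = 1 ∧
    (S0 p z' + c12 p (-14) * G0 p z') +
      τ * ((1 + ha p (3*n)) * (1 + ha p n)) * z'^p * (S0 p z' + c12 p (-2) * G0 p z') =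
    l'^(n+p) * ((Ph p x' + c12 p (-21) * Ga p x') +
      σ₁ * ((1 + ha p (2*n)) * (1 + ha p (2*n))) * x'^p * ((Ph p x' + c12 p (-9) * Ga p x') +
      σ₂ * ((1 + ha p (2*n)) * (1 + ha p (2*n))) * x'^p * (Ph p x' + c12 p 3 * Ga p x'))) := by
  have hodd : p % 2 = 1 := by omega
  have h1 := T1 (n+p) (3*p) (by omega)
  have hw : (1/6 + ((n+p:ℕ):ℚ)) = p * (7/6) := by rw [hpn]; push_cast; ring
  have hp1 : ((p-1:ℕ):ℚ) = (p:ℚ) - 1 := by
    rw [Nat.cast_sub (by have := hp.out.pos; omega)]; simp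
  have hnq : (n:ℚ) = ((p:ℚ) - 1)/6 := by
    have : (p:ℚ) = 6*n+1 := by exact_mod_cast congrArg (Nat.cast : ℕ → ℚ) hpn
    rw [this]; ring
  rw [PS_stable _ _ _ _ (p+p) (3*p) (fun k hk => hc_vanish_b _ _ _ (n+p) _ (by ring) (by omega)) (by omega),
    show 3*p = p + (p+p) by ring] at h1
  rw [hw, PS_eq_PD, PS_eq_PD, PD_split _ _ _ _ _ p p, PD_split (1/3 - 2*(p*(7/6):ℚ)) _ _ _ _ p (p+p),
    PD_split _ _ _ _ (1/9) p p] at h1
  -- z blocks
  have r0 := z_sum p h5 hz (-14) (-28) 0 (by norm_num) (a := 1/2 - p*(7/6)) (b := 1/6-p*(7/6))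
    (c := 1 - 2*(p*(7/6))) (d := 1) (by push_cast; ring) (by push_cast; ring)
    (by push_cast; ring) (by push_cast; ring)
  have r1 := z_sum p h5 hz (-2) (-16) 12 (by norm_num) (a := 1/2 - p*(7/6) + p)
    (b := 1/6-p*(7/6) + p) (c := 1 - 2*(p*(7/6)) + p) (d := 1 + p) (by push_cast; ring)
    (by push_cast; ring) (by push_cast; ring) (by push_cast; ring)
  have u12 : IsUnit (c12 p 12) := by
    apply unit_c12 p h5
    have := unit_smooth p h5 2 1 0; push_cast at this ⊢; norm_num at this ⊢; exact this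
  have u24 : IsUnit (c12 p 24) := by
    apply unit_c12 p h5
    have := unit_smooth p h5 3 1 0; push_cast at this ⊢; norm_num at this ⊢; exact this
  have u16 : IsUnit (c12 p (-16)) := by
    apply unit_c12 p h5
    have := (unit_smooth p h5 4 0 0).neg; push_cast at this ⊢; norm_num at this ⊢; exact this
  have u30 : IsUnit (c12 p (-30)) := by
    apply unit_c12 p h5
    have := (unit_smooth p h5 1 1 1).neg; push_cast at this ⊢; norm_num at this ⊢; exact this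
  have u18 : IsUnit (c12 p (-18)) := by
    apply unit_c12 p h5
    have := (unit_smooth p h5 1 2 0).neg; push_cast at this ⊢; norm_num at this ⊢; exact this
  have rz := Red.hd_p p (3*n) n (by omega) (by omega) hodd (Red.c12 p h5 (-8)) (Red.c12 p h5 (-12))
    (Red.c12 p h5 (-16)) (Red.c12 p h5 12) u16 u12
  have rp1 := Red.hd_p p (2*n) (2*n) (by omega) (by omega) hodd (Red.c12 p h5 (-24))
    (Red.c12 p h5 (-10)) (Red.c12 p h5 (-30)) (Red.c12 p h5 12) u30 u12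
  have rp2 := Red.hd_p p (2*n) (2*n) (by omega) (by omega) hodd (Red.c12 p h5 (-12))
    (Red.c12 p h5 2) (Red.c12 p h5 (-18)) (Red.c12 p h5 24) u18 u24
  have ez : hd (-((3*n:ℕ):ℚ) + p*(((-8:ℤ):ℚ)/12)) (-(n:ℚ) + p*(((-12:ℤ):ℚ)/12))
      (-((p-1:ℕ):ℚ) + p*(((-16:ℤ):ℚ)/12)) (-((p-1:ℕ):ℚ) + p*(((12:ℤ):ℚ)/12)) p =
      hd (1/2 - p*(7/6)) (1/6-p*(7/6)) (1 - 2*(p*(7/6))) 1 p := by
    congr 1
    · push_cast; linear_combination (-3:ℚ) * hnq
    · push_cast; linear_combination (-1:ℚ) * hnq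
    · push_cast; linear_combination (-1:ℚ) * hp1
    · push_cast; linear_combination (-1:ℚ) * hp1
  have ep1 : hd (-((2*n:ℕ):ℚ) + p*(((-24:ℤ):ℚ)/12)) (-((2*n:ℕ):ℚ) + p*(((-10:ℤ):ℚ)/12))
      (-((p-1:ℕ):ℚ) + p*(((-30:ℤ):ℚ)/12)) (-((p-1:ℕ):ℚ) + p*(((12:ℤ):ℚ)/12)) p =
      hd (1/3 - 2*(p*(7/6))) (1/3-p*(7/6)) (1 - 3*(p*(7/6))) 1 p := by
    congr 1
    · push_cast; linear_combination (-2:ℚ) * hnq
    · push_cast; linear_combination (-2:ℚ) * hnq
    · push_cast; linear_combination (-1:ℚ) * hp1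
    · push_cast; linear_combination (-1:ℚ) * hp1
  have ep2 : hd (-((2*n:ℕ):ℚ) + p*(((-12:ℤ):ℚ)/12)) (-((2*n:ℕ):ℚ) + p*(((2:ℤ):ℚ)/12))
      (-((p-1:ℕ):ℚ) + p*(((-18:ℤ):ℚ)/12)) (-((p-1:ℕ):ℚ) + p*(((24:ℤ):ℚ)/12)) p =
      hd (1/3 - 2*(p*(7/6)) + p) (1/3-p*(7/6) + p) (1 - 3*(p*(7/6)) + p) (1+p) p := by
    congr 1
    · push_cast; linear_combination (-2:ℚ) * hnq
    · push_cast; linear_combination (-2:ℚ) * hnq
    · push_cast; linear_combination (-1:ℚ) * hp1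
    · push_cast; linear_combination (-1:ℚ) * hp1
  rw [ez] at rz
  rw [ep1] at rp1
  rw [ep2] at rp2
  have q0 := p_sum p h5 hx (-21) (-28) (-14) (-42) 0 (by norm_num) (by norm_num)
    (a := 1/3 - 2*(p*(7/6))) (b := 1/3-p*(7/6))
    (c := 1 - 3*(p*(7/6))) (d := 1) (by push_cast; ring) (by push_cast; ring)
    (by push_cast; ring) (by push_cast; ring)
  have q1 := p_sum p h5 hx (-9) (-16) (-2) (-30) 12 (by norm_num) (by norm_num)
    (a := 1/3 - 2*(p*(7/6)) + p) (b := 1/3-p*(7/6) + p)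
    (c := 1 - 3*(p*(7/6)) + p) (d := 1 + p) (by push_cast; ring) (by push_cast; ring)
    (by push_cast; ring) (by push_cast; ring)
  have q2 := p_sum p h5 hx 3 (-4) 10 (-18) 24 (by norm_num) (by norm_num)
    (a := 1/3 - 2*(p*(7/6)) + p + p) (b := 1/3-p*(7/6) + p + p)
    (c := 1 - 3*(p*(7/6)) + p + p) (d := 1 + p + p) (by push_cast; ring) (by push_cast; ring)
    (by push_cast; ring) (by push_cast; ring)
  have lhs := r0.add ((rz.mul (hz.pow p)).mul r1)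
  have rhs := (hl.pow (n+p)).mul (q0.add ((rp1.mul (hx.pow p)).mul
    (q1.add ((rp2.mul (hx.pow p)).mul q2))))
  rw [h1] at lhs
  have key := Red.unique lhs rhs
  have w1 := ratio_eq p h5 (-8) (-12) (-16) 12 u16 u12
  have w2 := ratio_eq p h5 (-24) (-10) (-30) 12 u30 u12
  have w3 := ratio_eq p h5 (-12) 2 (-18) 24 u18 u24
  refine ⟨_, _, _, ?_, ?_, ?_, key⟩
  · have hu := (unit_smooth p h5 5 1 0)
    apply hu.mul_left_cancel
    push_cast at w1 ⊢
    linear_combination (-1 : ZMod (p^2)) * w1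
  · have hu := (unit_smooth p h5 3 1 1)
    apply hu.mul_left_cancel
    push_cast at w2 ⊢
    linear_combination (-1 : ZMod (p^2)) * w2
  · have hu := (unit_smooth p h5 3 1 0)
    apply hu.mul_left_cancel
    push_cast at w3 ⊢
    linear_combination (-1 : ZMod (p^2)) * w3

end

end Pool.Agent.Helper4.Sun
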