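import Pool.Agent.Helper4.Sun.Affine
import Pool.Agent.Helper4.Sun.Closed
namespace Pool.Agent.Helper4.Sun
open Finset

set_option linter.unusedSectionVars false

section
variable (p : ℕ) [hp : Fact p.Prime]

/-- the constant `a/12` in `ZMod (p^2)` -/
def c12 (a : ℤ) : ZMod (p^2) := (a : ZMod (p^2)) * ((12:ℕ) : ZMod (p^2))⁻¹

lemma isUnit_of_coprime (k : ℕ) (h : Nat.Coprime k p) : IsUnit (k : ZMod (p^2)) := by
  rw [ZMod.isUnit_iff_coprime]
  exact Nat.Coprime.pow_right _ h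

lemma unit12 (h5 : 5 < p) : IsUnit ((12:ℕ) : ZMod (p^2)) := by
  apply isUnit_of_coprime
  rw [Nat.coprime_comm, hp.out.coprime_iff_not_dvd]
  intro h
  have h1 : p ∣ 2 * 2 * 3 := by simpa using h
  rcases (Nat.Prime.dvd_mul hp.out).1 h1 with h2 | h2
  · rcases (Nat.Prime.dvd_mul hp.out).1 h2 with h3 | h3 <;>
    · have := Nat.le_of_dvd (by norm_num) h3; omega
  · have := Nat.le_of_dvd (by norm_num) h2; omega

lemma Red.c12 (h5 : 5 < p) (a : ℤ) : Red (p^2) ((a:ℚ)/12) (c12 p a) := by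
  have := (Red.int (m := p^2) a).div (Red.nat 12) (unit12 p h5)
  push_cast at this ⊢
  exact this

lemma c12_eq (h5 : 5 < p) (a : ℤ) : 12 * c12 p a = a := by
  have := ZMod.mul_inv_of_unit _ (unit12 p h5)
  unfold c12
  push_cast at this ⊢
  linear_combination (a : ZMod (p^2)) * this

def S0 (z : ZMod (p^2)) : ZMod (p^2) := ∑ k ∈ range p, t0 p (c12 p 6) (c12 p 2) k * z^k
def G0 (z : ZMod (p^2)) : ZMod (p^2) := ∑ k ∈ range p, t1 p (c12 p 6) (c12 p 2) k * z^k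
def Ph (x : ZMod (p^2)) : ZMod (p^2) := ∑ k ∈ range p, t0 p (c12 p 4) (c12 p 4) k * x^k
def Ga (x : ZMod (p^2)) : ZMod (p^2) := ∑ k ∈ range p, t1 p (c12 p 4) (c12 p 4) k * x^k

lemma z_sum (h5 : 5 < p) {x : ℚ} {x' : ZMod (p^2)} (hx : Red (p^2) x x') (e e3 e4 : ℤ)
    (h : e3 + e4 = 2*e) {a b c d : ℚ} (ha : a = 6/12 + p*(e/12)) (hb : b = 2/12 + p*(e/12))
    (hc : c = 1 + p*(e3/12)) (hd : d = 1 + p*(e4/12)) :
    Red (p^2) (PD a b c d x p) (S0 p x' + c12 p e * G0 p x') := by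
  have h1 : Red (p^2) (PD a b c d x p) (PR (c12 p 6 + (p:ZMod (p^2)) * c12 p e)
      (c12 p 2 + (p:ZMod (p^2)) * c12 p e) (1 + (p:ZMod (p^2)) * c12 p e3)
      (1 + (p:ZMod (p^2)) * c12 p e4) x' p) := by
    rw [ha, hb, hc, hd]
    apply Red.PD _ _ _ _ hx
    · intro k hk
      exact (isUnit_one_P p _ k hk).mul (isUnit_one_P p _ k hk)
    · have := (Red.c12 p h5 6).add ((Red.nat p).mul (Red.c12 p h5 e)); push_cast at this; exact this
    · have := (Red.c12 p h5 2).add ((Red.nat p).mul (Red.c12 p h5 e)); push_cast at this; exact this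
    · exact Red.one.add ((Red.nat p).mul (Red.c12 p h5 e3))
    · exact Red.one.add ((Red.nat p).mul (Red.c12 p h5 e4))
  have h34 : c12 p e3 + c12 p e4 = 2 * c12 p e := by
    unfold c12
    have : ((e3 + e4 : ℤ) : ZMod (p^2)) = ((2*e : ℤ) : ZMod (p^2)) := by rw [h]
    push_cast at this
    linear_combination ((12:ℕ) : ZMod (p^2))⁻¹ * this
  have h2 : PR (c12 p 6 + (p:ZMod (p^2)) * c12 p e)
      (c12 p 2 + (p:ZMod (p^2)) * c12 p e) (1 + (p:ZMod (p^2)) * c12 p e3)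
      (1 + (p:ZMod (p^2)) * c12 p e4) x' p = S0 p x' + c12 p e * G0 p x' := by
    unfold PR S0 G0
    rw [mul_sum, ← sum_add_distrib]
    apply sum_congr rfl
    intro k hk
    rw [affine_z p _ _ _ _ _ h34 k (mem_range.1 hk)]
    ring
  rw [← h2]; exact h1

lemma p_sum (h5 : 5 < p) {x : ℚ} {x' : ZMod (p^2)} (hx : Red (p^2) x x') (E e1 e2 e3 e4 : ℤ)
    (h : e1 + e2 = 2*E) (h' : e3 + e4 = 2*E) {a b c d : ℚ} (ha : a = 4/12 + p*(e1/12))
    (hb : b = 4/12 + p*(e2/12))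
    (hc : c = 1 + p*(e3/12)) (hd : d = 1 + p*(e4/12)) :
    Red (p^2) (PD a b c d x p) (Ph p x' + c12 p E * Ga p x') := by
  have h1 : Red (p^2) (PD a b c d x p) (PR (c12 p 4 + (p:ZMod (p^2)) * c12 p e1)
      (c12 p 4 + (p:ZMod (p^2)) * c12 p e2) (1 + (p:ZMod (p^2)) * c12 p e3)
      (1 + (p:ZMod (p^2)) * c12 p e4) x' p) := by
    rw [ha, hb, hc, hd]
    apply Red.PD _ _ _ _ hx
    · intro k hk
      exact (isUnit_one_P p _ k hk).mul (isUnit_one_P p _ k hk)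
    · have := (Red.c12 p h5 4).add ((Red.nat p).mul (Red.c12 p h5 e1)); push_cast at this; exact this
    · have := (Red.c12 p h5 4).add ((Red.nat p).mul (Red.c12 p h5 e2)); push_cast at this; exact this
    · exact Red.one.add ((Red.nat p).mul (Red.c12 p h5 e3))
    · exact Red.one.add ((Red.nat p).mul (Red.c12 p h5 e4))
  have h12 : c12 p e1 + c12 p e2 = 2 * c12 p E := by
    unfold c12
    have : ((e1 + e2 : ℤ) : ZMod (p^2)) = ((2*E : ℤ) : ZMod (p^2)) := by rw [h]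
    push_cast at this
    linear_combination ((12:ℕ) : ZMod (p^2))⁻¹ * this
  have h34 : c12 p e3 + c12 p e4 = 2 * c12 p E := by
    unfold c12
    have : ((e3 + e4 : ℤ) : ZMod (p^2)) = ((2*E : ℤ) : ZMod (p^2)) := by rw [h']
    push_cast at this
    linear_combination ((12:ℕ) : ZMod (p^2))⁻¹ * this
  have h2 : PR (c12 p 4 + (p:ZMod (p^2)) * c12 p e1)
      (c12 p 4 + (p:ZMod (p^2)) * c12 p e2) (1 + (p:ZMod (p^2)) * c12 p e3)
      (1 + (p:ZMod (p^2)) * c12 p e4) x' p = Ph p x' + c12 p E * Ga p x' := by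
    unfold PR Ph Ga
    rw [mul_sum, ← sum_add_distrib]
    apply sum_congr rfl
    intro k hk
    rw [affine_p p _ _ _ _ _ _ h12 h34 k (mem_range.1 hk)]
    ring
  rw [← h2]; exact h1

variable (n : ℕ) (hpn : p = 6*n+1)

/-- (E1) T1 at `K = n`. -/
lemma E1 (h5 : 5 < p) (hpn : p = 6*n+1) {z' x' l' : ZMod (p^2)} (hz : Red (p^2) (-3/125) z')
    (hx : Red (p^2) (1/9) x') (hl : Red (p^2) (2187/2000) l') :
    S0 p z' + c12 p (-2) * G0 p z' = l'^n * (Ph p x' + c12 p (-3) * Ga p x') := by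
  have h1 := T1 n (3*p) (by omega)
  have hw : (1/6 + (n:ℚ)) = p * (1/6) := by rw [hpn]; push_cast; ring
  rw [PS_stable _ _ _ _ p (3*p) (fun k hk => hc_vanish_b _ _ _ n _ (by ring) (by omega)) (by omega),
    PS_stable (1/3 - 2*(1/6+(n:ℚ))) _ _ _ p (3*p)
      (fun k hk => hc_vanish_a _ _ _ (2*n) _ (by push_cast; ring) (by omega)) (by omega)] at h1
  rw [hw, PS_eq_PD, PS_eq_PD] at h1
  have r1 := z_sum p h5 hz (-2) (-4) 0 (by norm_num) (a := 1/2 - p*(1/6)) (b := 1/6-p*(1/6))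
    (c := 1 - 2*(p*(1/6))) (d := 1) (by push_cast; ring) (by push_cast; ring)
    (by push_cast; ring) (by push_cast; ring)
  have r2 := p_sum p h5 hx (-3) (-4) (-2) (-6) 0 (by norm_num) (by norm_num)
    (a := 1/3 - 2*(p*(1/6))) (b := 1/3-p*(1/6))
    (c := 1 - 3*(p*(1/6))) (d := 1) (by push_cast; ring) (by push_cast; ring)
    (by push_cast; ring) (by push_cast; ring)
  rw [h1] at r1
  exact Red.unique r1 ((hl.pow n).mul r2)

/-- (E3) -/
lemma E3 (h5 : 5 < p) (hpn : p = 6*n+1) {x' C2 : ZMod (p^2)}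
    (hx : Red (p^2) (1/9) x')
    (hC : Red (p^2) ((4/3)^n * rf (1/3) n / rf (1/6) n) C2) :
    Ph p x' + c12 p (-1) * Ga p x' = C2 := by
  have h1 := T2 n (3*p) (by omega)
  have hw : (1/6 + (n:ℚ)) = p * (1/6) := by rw [hpn]; push_cast; ring
  rw [PS_stable (1/3 - 2*(1/6+(n:ℚ))) _ _ _ p (3*p)
      (fun k hk => hc_vanish_a _ _ _ (2*n) _ (by push_cast; ring) (by omega)) (by omega)] at h1
  rw [hw, PS_eq_PD] at h1
  have r2 := p_sum p h5 hx (-1) (-4) (2) (-2) 0 (by norm_num) (by norm_num)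
    (a := 1/3 - 2*(p*(1/6))) (b := 1/3+p*(1/6))
    (c := 1 - p*(1/6)) (d := 1) (by push_cast; ring) (by push_cast; ring)
    (by push_cast; ring) (by push_cast; ring)
  rw [h1] at r2
  exact Red.unique r2 hC

/-- (E4) -/
lemma E4 (h5 : 5 < p) (hpn : p = 6*n+1) {x' C3 : ZMod (p^2)}
    (hx : Red (p^2) (1/9) x')
    (hC : Red (p^2) ((3/4)^(2*n) * rf (4/3) (2*n) / rf (7/6) (2*n)) C3) :
    Ph p x' + c12 p 2 * Ga p x' = C3 := by
  have h1 := T3 (2*n) (3*p) (by omega)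
  have hw : (-((2*n:ℕ):ℚ) - 1/3) = -(p * (1/3)) := by rw [hpn]; push_cast; ring
  rw [PS_stable _ (1/3 + (-((2*n:ℕ):ℚ)-1/3)) _ _ p (3*p)
      (fun k hk => hc_vanish_b _ _ _ (2*n) _ (by push_cast; ring) (by omega)) (by omega)] at h1
  rw [hw, PS_eq_PD] at h1
  have r2 := p_sum p h5 hx 2 8 (-4) 4 0 (by norm_num) (by norm_num)
    (a := 1/3 - 2*(-(p*(1/3)))) (b := 1/3+(-(p*(1/3))))
    (c := 1 - (-(p*(1/3)))) (d := 1) (by push_cast; ring) (by push_cast; ring)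
    (by push_cast; ring) (by push_cast; ring)
  rw [h1] at r2
  exact Red.unique r2 hC

end

end Pool.Agent.Helper4.Sun
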